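import Pool.Agent.Helper970.UniDefs

universe u

open scoped DirectSum

namespace Pool.Agent.Helper970.Uni

/-- elementwise form of uniserial -/
def User (R : Type u) [Ring R] (M : Type u) [AddCommGroup M] [Module R M] : Prop :=
  ∀ x y : M, (∃ r : R, x = r • y) ∨ (∃ r : R, y = r • x)

/-- elementwise form of uniform -/
def Unif (R : Type u) [Ring R] (M : Type u) [AddCommGroup M] [Module R M] : Prop :=
  ∀ x y : M, x ≠ 0 → y ≠ 0 → ∃ a b : R, a • x = b • y ∧ a • x ≠ 0

/-- all uniform modules are uniserial -/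
def PU (R : Type u) [Ring R] : Prop :=
  ∀ (M : Type u) [AddCommGroup M] [Module R M], Unif R M → User R M

variable {R : Type u} [Ring R]

section basic

variable {M : Type u} [AddCommGroup M] [Module R M]

lemma isUniserial_iff : IsUniserial R M ↔ User R M := by
  constructor
  · intro h x y
    rcases h (Submodule.span R {x}) (Submodule.span R {y}) with h1 | h1
    · left
      have : x ∈ Submodule.span R {y} := h1 (Submodule.mem_span_singleton_self x)
      obtain ⟨r, hr⟩ := Submodule.mem_span_singleton.1 this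
      exact ⟨r, hr.symm⟩
    · right
      have : y ∈ Submodule.span R {x} := h1 (Submodule.mem_span_singleton_self y)
      obtain ⟨r, hr⟩ := Submodule.mem_span_singleton.1 this
      exact ⟨r, hr.symm⟩
  · intro h A B
    by_contra hAB
    push Not at hAB
    obtain ⟨h1, h2⟩ := hAB
    obtain ⟨x, hxA, hxB⟩ := Set.not_subset.1 h1
    obtain ⟨y, hyB, hyA⟩ := Set.not_subset.1 h2
    rcases h x y with ⟨r, rfl⟩ | ⟨r, rfl⟩
    · exact hxB (B.smul_mem r hyB)
    · exact hyA (A.smul_mem r hxA)

lemma User.unif (h : User R M) : Unif R M := by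
  intro x y hx hy
  rcases h x y with ⟨r, hr⟩ | ⟨r, hr⟩
  · exact ⟨1, r, by simpa using hr, by simpa using hx⟩
  · exact ⟨r, 1, by simpa using hr.symm, by rw [← hr]; exact hy⟩

lemma User.total (h : User R M) (A B : Submodule R M) : A ≤ B ∨ B ≤ A :=
  isUniserial_iff.2 h A B

lemma Unif.inf_ne_bot (h : Unif R M) {A B : Submodule R M} (hA : A ≠ ⊥) (hB : B ≠ ⊥) :
    A ⊓ B ≠ ⊥ := by
  obtain ⟨x, hxA, hx⟩ := (Submodule.ne_bot_iff A).1 hA
  obtain ⟨y, hyB, hy⟩ := (Submodule.ne_bot_iff B).1 hB
  obtain ⟨a, b, hab, h0⟩ := h x y hx hy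
  refine (Submodule.ne_bot_iff _).2 ⟨a • x, ⟨A.smul_mem a hxA, ?_⟩, h0⟩
  change a • x ∈ B
  rw [hab]
  exact B.smul_mem b hyB

variable {M' : Type u} [AddCommGroup M'] [Module R M']

lemma User.of_injective (h : User R M) (f : M' →ₗ[R] M) (hf : Function.Injective f) :
    User R M' := by
  intro x y
  rcases h (f x) (f y) with ⟨r, hr⟩ | ⟨r, hr⟩
  · exact Or.inl ⟨r, hf (by simpa using hr)⟩
  · exact Or.inr ⟨r, hf (by simpa using hr)⟩

lemma Unif.of_injective (h : Unif R M) (f : M' →ₗ[R] M) (hf : Function.Injective f) :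
    Unif R M' := by
  intro x y hx hy
  obtain ⟨a, b, hab, h0⟩ := h (f x) (f y) (fun h => hx (hf (by simpa using h)))
    (fun h => hy (hf (by simpa using h)))
  refine ⟨a, b, hf (by simpa using hab), fun h => h0 ?_⟩
  rw [← map_smul, h, map_zero]

lemma User.of_surjective (h : User R M) (f : M →ₗ[R] M') (hf : Function.Surjective f) :
    User R M' := by
  intro x y
  obtain ⟨x, rfl⟩ := hf x
  obtain ⟨y, rfl⟩ := hf y
  rcases h x y with ⟨r, hr⟩ | ⟨r, hr⟩
  · exact Or.inl ⟨r, by rw [hr, map_smul]⟩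
  · exact Or.inr ⟨r, by rw [hr, map_smul]⟩

lemma User.sub (h : User R M) (X : Submodule R M) : User R X :=
  h.of_injective X.subtype X.injective_subtype

lemma User.quot (h : User R M) (X : Submodule R M) : User R (M ⧸ X) :=
  h.of_surjective X.mkQ X.mkQ_surjective

end basic

section hull

/-- every module embeds in an injective module of the same universe -/
lemma exists_injective_embedding (M : Type u) [AddCommGroup M] [Module R M] :
    ∃ (Q : Type u) (_ : AddCommGroup Q) (_ : Module R Q) (j : M →ₗ[R] Q),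
      Module.Injective R Q ∧ Function.Injective j := by
  have := ModuleCat.enoughInjectives.{u, u} R
  obtain ⟨J⟩ := CategoryTheory.EnoughInjectives.presentation (ModuleCat.of R M)
  refine ⟨J.J, inferInstance, inferInstance, J.f.hom, ?_, ?_⟩
  · have := J.injective
    exact Module.injective_module_of_injective_object R J.J
  · have := J.mono
    exact (ModuleCat.mono_iff_injective J.f).1 inferInstance

variable {Q : Type u} [AddCommGroup Q] [Module R Q]

/-- `U` is essential in `E` (elementwise) -/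
def Ess (U E : Submodule R Q) : Prop := ∀ x ∈ E, x ≠ 0 → ∃ r : R, r • x ∈ U ∧ r • x ≠ 0

lemma exists_hull_in (hQ : Module.Injective R Q) (U : Submodule R Q) :
    ∃ E : Submodule R Q, U ≤ E ∧ Ess U E ∧ Module.Injective R E := by
  classical
  -- maximal essential extension
  obtain ⟨E, hUE, hE⟩ := zorn_le_nonempty₀ {E : Submodule R Q | U ≤ E ∧ Ess U E} (by
    intro c hc hchain y hy
    have hne : c.Nonempty := ⟨y, hy⟩
    refine ⟨sSup c, ⟨(hc hy).1.trans (le_sSup hy), ?_⟩, fun z hz => le_sSup hz⟩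
    intro x hx hx0
    obtain ⟨z, hz, hxz⟩ := (Submodule.mem_sSup_of_directed hne hchain.directedOn).1 hx
    exact (hc hz).2 x hxz hx0) U ⟨le_rfl, fun x hx hx0 => ⟨1, by simpa using hx, by simpa using hx0⟩⟩
  have hE1 : U ≤ E := hE.prop.1
  have hE2 : Ess U E := hE.prop.2
  -- a complement
  obtain ⟨C, -, hC⟩ := zorn_le_nonempty₀ {C : Submodule R Q | ∀ x ∈ C, x ∈ E → x = 0} (by
    intro c hc hchain y hy
    have hne : c.Nonempty := ⟨y, hy⟩
    refine ⟨sSup c, ?_, fun z hz => le_sSup hz⟩
    intro x hx hx0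
    obtain ⟨z, hz, hxz⟩ := (Submodule.mem_sSup_of_directed hne hchain.directedOn).1 hx
    exact (hc hz) x hxz hx0) (⊥ : Submodule R Q)
      (by intro x hx _; exact (Submodule.mem_bot R).1 hx)
  have hC1 : ∀ x ∈ C, x ∈ E → x = 0 := hC.prop
  -- extension
  have hinj : Function.Injective (C.mkQ.comp E.subtype) := by
    rw [injective_iff_map_eq_zero]
    intro a ha
    have : (a : Q) ∈ C := by
      simpa using ha
    exact Subtype.ext (hC1 _ this a.2)
  obtain ⟨h, hh⟩ := hQ.out (C.mkQ.comp E.subtype) hinj E.subtype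
  have hh' : ∀ e ∈ E, h (C.mkQ e) = e := fun e he => hh ⟨e, he⟩
  -- key: for q not in C, some multiple is congruent to a nonzero element of E
  have key : ∀ q : Q, q ∉ C → ∃ r : R, ∃ e ∈ E, e ≠ 0 ∧ C.mkQ (r • q) = C.mkQ e := by
    intro q hq
    by_contra hcon
    push Not at hcon
    have hmem : (C ⊔ Submodule.span R {q}) ∈ {C : Submodule R Q | ∀ x ∈ C, x ∈ E → x = 0} := by
      intro x hx hxE
      obtain ⟨c, hc, y, hy, rfl⟩ := Submodule.mem_sup.1 hx
      obtain ⟨r, rfl⟩ := Submodule.mem_span_singleton.1 hy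
      by_contra hne
      apply hcon r (c + r • q) hxE hne
      rw [map_add]
      have : C.mkQ c = 0 := by simpa using hc
      rw [this, zero_add]
    have := hC.le_of_ge hmem le_sup_left
    exact hq (this (Submodule.mem_sup_right (Submodule.mem_span_singleton_self q)))
  have hinj2 : ∀ q : Q, h (C.mkQ q) = 0 → q ∈ C := by
    intro q hq
    by_contra hqC
    obtain ⟨r, e, he, he0, hre⟩ := key q hqC
    apply he0
    rw [← hh' e he, ← hre, map_smul, map_smul, hq, smul_zero]
  -- range of h is inside E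
  have hrange : ∀ q : Q, h (C.mkQ q) ∈ E := by
    have hmem : LinearMap.range (h.comp C.mkQ) ∈ {E : Submodule R Q | U ≤ E ∧ Ess U E} := by
      refine ⟨fun x hx => ⟨x, hh' x (hE1 hx)⟩, ?_⟩
      rintro _ ⟨q, rfl⟩ hq0
      have hqC : q ∉ C := by
        intro hqC
        apply hq0
        have : C.mkQ q = 0 := by simpa using hqC
        simp only [LinearMap.comp_apply]
        rw [this, map_zero]
      obtain ⟨r, e, he, he0, hre⟩ := key q hqC
      obtain ⟨s, hs1, hs2⟩ := hE2 e he he0
      have heq : r • (h.comp C.mkQ) q = e := by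
        simp only [LinearMap.comp_apply]
        rw [← hh' e he, ← hre, map_smul, map_smul]
      exact ⟨s * r, by rw [mul_smul, heq]; exact hs1, by rw [mul_smul, heq]; exact hs2⟩
    have hle : E ≤ LinearMap.range (h.comp C.mkQ) := fun x hx => ⟨x, hh' x hx⟩
    have := hE.le_of_ge hmem hle
    intro q
    exact this ⟨q, rfl⟩
  refine ⟨E, hE1, hE2, ⟨?_⟩⟩
  intro X Y _ _ _ _ f hf g
  obtain ⟨k, hk⟩ := hQ.out f hf (E.subtype.comp g)
  refine ⟨((h.comp C.mkQ).comp k).codRestrict E (fun y => hrange (k y)), ?_⟩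
  intro x
  apply Subtype.ext
  have h1 : k (f x) = (g x : Q) := hk x
  simp only [LinearMap.codRestrict_apply, LinearMap.comp_apply]
  rw [h1]
  exact hh' _ (g x).2

/-- uniform injective hull -/
lemma exists_unif_hull {M : Type u} [AddCommGroup M] [Module R M] (hM : Unif R M) :
    ∃ (E : Type u) (_ : AddCommGroup E) (_ : Module R E) (j : M →ₗ[R] E),
      Module.Injective R E ∧ Unif R E ∧ Function.Injective j ∧
        ∀ x : E, x ≠ 0 → ∃ (r : R) (m : M), r • x = j m ∧ m ≠ 0 := by
  obtain ⟨Q, _, _, i, hQ, hi⟩ := exists_injective_embedding (R := R) M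
  obtain ⟨E, hE1, hE2, hE3⟩ := exists_hull_in hQ (LinearMap.range i)
  have hess : ∀ x : E, x ≠ 0 → ∃ (r : R) (m : M), r • (x : Q) = i m ∧ m ≠ 0 := by
    intro x hx
    obtain ⟨r, ⟨m, hm⟩, hr2⟩ := hE2 x x.2 (fun h => hx (Subtype.ext h))
    exact ⟨r, m, hm.symm, fun h => hr2 (by rw [← hm, h, map_zero])⟩
  refine ⟨E, inferInstance, inferInstance, i.codRestrict E (fun m => hE1 ⟨m, rfl⟩), hE3, ?_, ?_, ?_⟩
  · intro x y hx hy
    obtain ⟨r, m, hm, hm0⟩ := hess x hx
    obtain ⟨s, n, hn, hn0⟩ := hess y hy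
    obtain ⟨a, b, hab, h0⟩ := hM m n hm0 hn0
    have e1 : (a * r) • (x : Q) = i (a • m) := by rw [mul_smul, hm, map_smul]
    have e2 : (b * s) • (y : Q) = i (b • n) := by rw [mul_smul, hn, map_smul]
    refine ⟨a * r, b * s, Subtype.ext ?_, ?_⟩
    · change (a * r) • (x : Q) = (b * s) • (y : Q)
      rw [e1, e2, hab]
    · intro h
      apply h0
      apply hi
      rw [← e1, map_zero]
      exact congrArg Subtype.val h
  · intro x y hxy
    exact hi (congrArg Subtype.val hxy)
  · intro x hx
    obtain ⟨r, m, hm, hm0⟩ := hess x hx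
    exact ⟨r, m, Subtype.ext hm, hm0⟩

end hull

section noeth

/-- a nonzero noetherian module contains a uniform nonzero submodule -/
lemma exists_unif_sub {M : Type u} [AddCommGroup M] [Module R M] [IsNoetherian R M]
    {x : M} (hx : x ≠ 0) : ∃ L : Submodule R M, L ≠ ⊥ ∧ Unif R L := by
  classical
  let S : Set (Submodule R M) := {K | ∃ L : Submodule R M, L ≠ ⊥ ∧ K ⊓ L = ⊥}
  have hS : S.Nonempty := ⟨⊥, ⊤, fun h => hx ((Submodule.eq_bot_iff _).1 h x trivial), by simp⟩
  obtain ⟨K, ⟨L, hL, hKL⟩, hmax⟩ := set_has_maximal_iff_noetherian.2 ‹IsNoetherian R M› S hS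
  refine ⟨L, hL, ?_⟩
  intro a b ha hb
  by_contra hcon
  push Not at hcon
  have ha' : (a : M) ≠ 0 := fun h => ha (Subtype.ext h)
  have hb' : (b : M) ≠ 0 := fun h => hb (Subtype.ext h)
  have hmem : (K ⊔ Submodule.span R {(a : M)}) ∈ S := by
    refine ⟨Submodule.span R {(b : M)}, ?_, ?_⟩
    · simpa [Submodule.span_singleton_eq_bot] using hb'
    · rw [Submodule.eq_bot_iff]
      rintro z ⟨hz1, hz2⟩
      obtain ⟨k, hk, y, hy, hkz⟩ := Submodule.mem_sup.1 hz1
      obtain ⟨r, rfl⟩ := Submodule.mem_span_singleton.1 hy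
      obtain ⟨s, rfl⟩ := Submodule.mem_span_singleton.1 hz2
      have hkL : k ∈ L := by
        have : k = s • (b : M) - r • (a : M) := by rw [← hkz]; abel
        rw [this]
        exact L.sub_mem (L.smul_mem _ b.2) (L.smul_mem _ a.2)
      have hk0 : k = 0 := by
        have : k ∈ K ⊓ L := ⟨hk, hkL⟩
        rw [hKL] at this
        exact (Submodule.mem_bot R).1 this
      rw [hk0, zero_add] at hkz
      have h1 := hcon r s (Subtype.ext hkz)
      rw [← hkz]
      exact congrArg Subtype.val h1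
  apply hmax _ hmem
  refine lt_of_le_of_ne le_sup_left ?_
  intro heq
  have haK : (a : M) ∈ K := by
    rw [heq]
    exact Submodule.mem_sup_right (Submodule.mem_span_singleton_self _)
  have : (a : M) ∈ K ⊓ L := ⟨haK, a.2⟩
  rw [hKL] at this
  exact ha' ((Submodule.mem_bot R).1 this)

/-- over a left noetherian ring, every nonzero element has a multiple generating a
uniform submodule -/
lemma exists_unif_in [IsNoetherianRing R] {M : Type u} [AddCommGroup M] [Module R M]
    {x : M} (hx : x ≠ 0) : ∃ L : Submodule R M, L ≤ Submodule.span R {x} ∧ L ≠ ⊥ ∧ Unif R L := by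
  have : IsNoetherian R (Submodule.span R {x}) :=
    isNoetherian_of_fg_of_noetherian _ (Submodule.fg_span_singleton x)
  obtain ⟨L, hL, hU⟩ := exists_unif_sub (R := R) (M := Submodule.span R {x})
    (x := ⟨x, Submodule.mem_span_singleton_self x⟩) (fun h => hx (congrArg Subtype.val h))
  refine ⟨L.map (Submodule.subtype _), ?_, ?_, ?_⟩
  · rintro _ ⟨y, -, rfl⟩
    exact y.2
  · intro h
    apply hL
    rw [Submodule.eq_bot_iff] at h ⊢
    intro y hy
    exact Subtype.ext (h y ⟨y, hy, rfl⟩)
  · have e : L.map (Submodule.subtype _) ≃ₗ[R] L :=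
      (Submodule.equivMapOfInjective _ (Submodule.injective_subtype _) L).symm
    exact hU.of_injective e.toLinearMap e.injective

end noeth

section bass

/-- Bass-Papp: over a left noetherian ring direct sums of injective modules are injective -/
lemma directSum_injective [IsNoetherianRing R] {ι : Type u} (E : ι → Type u)
    [∀ i, AddCommGroup (E i)] [∀ i, Module R (E i)] (hE : ∀ i, Module.Injective R (E i)) :
    Module.Injective R (Π₀ i, E i) := by
  classical
  apply Module.Baer.injective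
  intro I g
  obtain ⟨s, hs⟩ := IsNoetherian.noetherian (⊤ : Submodule R I)
  -- finite set of indices
  let F : Finset ι := s.biUnion (fun x => (g x).support)
  have hF : ∀ x : I, ∀ i, i ∉ F → g x i = 0 := by
    intro x i hi
    have hx : x ∈ Submodule.span R (s : Set I) := by rw [hs]; trivial
    induction hx using Submodule.span_induction with
    | mem x hx =>
      by_contra hne
      apply hi
      exact Finset.mem_biUnion.2 ⟨x, hx, by simpa using hne⟩
    | zero => simp
    | add x y _ _ hx hy => simp [hx, hy]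
    | smul a x _ hx => simp [hx]
  have hB : ∀ i, ∃ g' : R →ₗ[R] E i, ∀ (x : R) (mem : x ∈ I), g' x = g ⟨x, mem⟩ i := by
    intro i
    exact (Module.Baer.of_injective (hE i)) I ((DFinsupp.lapply i).comp g)
  choose g' hg' using hB
  refine ⟨∑ i ∈ F, (DFinsupp.lsingle i).comp (g' i), ?_⟩
  intro x mem
  ext i
  simp only [LinearMap.sum_apply, LinearMap.comp_apply]
  rw [DFinsupp.finsetSum_apply]
  by_cases hi : i ∈ F
  · rw [Finset.sum_eq_single_of_mem i hi]
    · simp [hg' i x mem]
    · intro j _ hj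
      simp [DFinsupp.single_apply, hj]
  · rw [hF _ i hi]
    apply Finset.sum_eq_zero
    intro j hj
    have : j ≠ i := fun h => hi (h ▸ hj)
    simp [DFinsupp.single_apply, this]

lemma sSupIndep_insert_of {M : Type u} [AddCommGroup M] [Module R M]
    {s : Set (Submodule R M)} (hs : sSupIndep s) {L : Submodule R M} (hL : L ⊓ sSup s = ⊥) :
    sSupIndep (insert L s) := by
  intro a ha
  rcases ha with rfl | ha
  · rw [disjoint_iff, eq_bot_iff, ← hL]
    refine inf_le_inf_left _ (sSup_le_sSup ?_)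
    rintro b ⟨hb1, hb2⟩
    rcases hb1 with rfl | hb1
    · exact absurd rfl hb2
    · exact hb1
  · have h1 : sSup (insert L s \ {a}) ≤ L ⊔ sSup (s \ {a}) := by
      apply sSup_le
      rintro b ⟨hb1, hb2⟩
      rcases hb1 with rfl | hb1
      · exact le_sup_left
      · exact le_sup_of_le_right (le_sSup ⟨hb1, hb2⟩)
    refine Disjoint.mono_right h1 ?_
    rw [Submodule.disjoint_def]
    intro x hxa hx
    obtain ⟨l, hl, y, hy, rfl⟩ := Submodule.mem_sup.1 hx
    have hy' : y ∈ sSup s := (sSup_le_sSup Set.sdiff_subset : sSup (s \ {a}) ≤ sSup s) hy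
    have hx' : l + y ∈ sSup s := (le_sSup ha : a ≤ sSup s) hxa
    have hl' : l ∈ L ⊓ sSup s := ⟨hl, by simpa using (sSup s).sub_mem hx' hy'⟩
    rw [hL] at hl'
    rw [(Submodule.mem_bot R).1 hl', zero_add] at hxa ⊢
    exact (Submodule.disjoint_def.1 (hs ha)) y hxa hy

/-- over a left noetherian ring every module embeds in a direct sum of uniform modules -/
lemma exists_embedding [IsNoetherianRing R] (M : Type u) [AddCommGroup M] [Module R M] :
    ∃ (ι : Type u) (U : ι → Type u) (_ : ∀ i, AddCommGroup (U i)) (_ : ∀ i, Module R (U i)),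
      (∀ i, Unif R (U i)) ∧ ∃ f : M →ₗ[R] (Π₀ i, U i), Function.Injective f := by
  classical
  obtain ⟨s, hs⟩ := zorn_subset
    {s : Set (Submodule R M) | sSupIndep s ∧ ∀ L ∈ s, L ≠ ⊥ ∧ Unif R L} (by
      intro c hc hchain
      refine ⟨⋃₀ c, ⟨?_, ?_⟩, fun t ht => Set.subset_sUnion_of_mem ht⟩
      · exact iSupIndep_sUnion_of_directed hchain.directedOn (fun a ha => (hc ha).1)
      · rintro L ⟨t, ht, hL⟩
        exact (hc ht).2 L hL)
  have hs1 : sSupIndep s := hs.prop.1
  have hs2 : ∀ L ∈ s, L ≠ ⊥ ∧ Unif R L := hs.prop.2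
  have hind : iSupIndep (fun i : s => (i : Submodule R M)) := sSupIndep_iff s |>.1 hs1
  have hκ := hind.dfinsupp_lsum_injective
  have hrange := Submodule.iSup_eq_range_dfinsupp_lsum (fun i : s => (i : Submodule R M))
  set κ := (DFinsupp.lsum ℕ) fun i : s => (i : Submodule R M).subtype with hκdef
  choose E iE mE j hE1 hE2 hE3 hE4 using
    fun i : s => exists_unif_hull (R := R) (M := (i : Submodule R M)) (hs2 i i.2).2
  have hinj : Module.Injective R (Π₀ i, E i) := directSum_injective E hE1
  obtain ⟨h, hh⟩ := hinj.out κ hκ (DFinsupp.mapRange.linearMap j)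
  refine ⟨s, E, iE, mE, hE2, h, ?_⟩
  rw [injective_iff_map_eq_zero]
  intro x hx
  by_contra hx0
  obtain ⟨L, hL1, hL2, hL3⟩ := exists_unif_in (R := R) hx0
  by_cases hcap : L ⊓ sSup s = ⊥
  · have hmem : insert L s ∈ {s : Set (Submodule R M) | sSupIndep s ∧ ∀ L ∈ s, L ≠ ⊥ ∧ Unif R L} := by
      refine ⟨sSupIndep_insert_of hs1 hcap, ?_⟩
      rintro L' (rfl | hL')
      · exact ⟨hL2, hL3⟩
      · exact hs2 L' hL'
    have hsub := hs.le_of_ge hmem (Set.subset_insert L s)
    have hLs : L ∈ s := hsub (Set.mem_insert L s)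
    apply hL2
    rw [eq_bot_iff, ← hcap]
    exact le_inf le_rfl (le_sSup hLs)
  · obtain ⟨z, ⟨hzL, hzs⟩, hz0⟩ := (Submodule.ne_bot_iff _).1 hcap
    have hzr : z ∈ LinearMap.range κ := by
      rw [← hrange, ← sSup_eq_iSup']
      exact hzs
    obtain ⟨y, rfl⟩ := hzr
    obtain ⟨r, hr⟩ := Submodule.mem_span_singleton.1 (hL1 hzL)
    have h1 : DFinsupp.mapRange.linearMap j y = 0 := by
      rw [← hh y, ← hr, map_smul, hx, smul_zero]
    apply hz0
    have hy : y = 0 := by
      ext i
      have := DFunLike.congr_fun h1 i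
      simp only [DFinsupp.mapRange.linearMap_apply, DFinsupp.mapRange_apply,
        DFinsupp.coe_zero, Pi.zero_apply] at this
      have h2 := hE3 i (this.trans (map_zero (j i)).symm)
      rw [h2]
      rfl
    rw [hy, map_zero]

theorem hasE_of [IsNoetherianRing R] (h : PU R) : HasE R := by
  intro M _ _
  obtain ⟨ι, U, iU, mU, hU, f, hf⟩ := exists_embedding (R := R) M
  exact ⟨ι, U, iU, mU, fun i => isUniserial_iff.2 (h (U i) (hU i)), f, hf⟩

end bass

end Pool.Agent.Helper970.Uni
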