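import Pool.Agent.Helper970.UniA

universe u

open scoped DirectSum

namespace Pool.Agent.Helper970.Uni

variable {R : Type u} [Ring R]

section forward

/-- finite intersection argument: a uniform module embedded in a direct sum embeds in a
summand -/
lemma unif_embeds_summand {M : Type u} [AddCommGroup M] [Module R M] (hM : Unif R M)
    {ι : Type u} {U : ι → Type u} [∀ i, AddCommGroup (U i)] [∀ i, Module R (U i)]
    (f : M →ₗ[R] (Π₀ i, U i)) (hf : Function.Injective f) {x : M} (hx : x ≠ 0) :
    ∃ i, Function.Injective ((DFinsupp.lapply i : (Π₀ i, U i) →ₗ[R] U i).comp f) := by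
  classical
  by_contra hcon
  push Not at hcon
  -- every component has a nonzero kernel
  have hker : ∀ i, ∃ z : M, z ≠ 0 ∧ f z i = 0 := by
    intro i
    by_contra h
    push Not at h
    apply hcon i
    rw [injective_iff_map_eq_zero]
    intro a ha
    by_contra ha0
    exact h a ha0 ha
  -- finite induction: some nonzero multiple of x is killed by the components in F
  have hfin : ∀ F : Finset ι, ∃ a : R, a • x ≠ 0 ∧ ∀ i ∈ F, f (a • x) i = 0 := by
    intro F
    induction F using Finset.induction_on with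
    | empty => exact ⟨1, by simpa using hx, by simp⟩
    | insert i F hi ih =>
      obtain ⟨a, ha, hF⟩ := ih
      obtain ⟨z, hz, hzi⟩ := hker i
      obtain ⟨b, c, hbc, h0⟩ := hM (a • x) z ha hz
      refine ⟨b * a, by rw [mul_smul]; exact h0, ?_⟩
      intro k hk
      rcases Finset.mem_insert.1 hk with rfl | hk
      · rw [mul_smul, hbc, map_smul, DFinsupp.smul_apply, hzi, smul_zero]
      · rw [mul_smul, map_smul, DFinsupp.smul_apply, hF k hk, smul_zero]
  obtain ⟨a, ha, hF⟩ := hfin (f x).support
  apply ha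
  apply hf
  rw [map_zero]
  ext i
  by_cases hi : i ∈ (f x).support
  · exact hF i hi
  · rw [DFinsupp.notMem_support_iff] at hi
    rw [map_smul, DFinsupp.smul_apply, hi, smul_zero]
    rfl

theorem pu_of_hasE (h : HasE R) : PU R := by
  intro M _ _ hM
  obtain ⟨ι, U, iU, mU, hU, f, hf⟩ := h M
  by_cases hne : ∃ x : M, x ≠ 0
  · obtain ⟨x, hx⟩ := hne
    obtain ⟨i, hi⟩ := unif_embeds_summand hM f hf hx
    exact (isUniserial_iff.1 (hU i)).of_injective _ hi
  · push Not at hne
    intro x y
    exact Or.inl ⟨0, by rw [hne x, zero_smul]⟩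

/-- in a product of `F.card` uniserial modules, among more than `F.card` elements one is in the
span of the others. -/
lemma dep_of_card {M : Type u} [AddCommGroup M] [Module R M] {ι : Type u} {U : ι → Type u}
    [∀ i, AddCommGroup (U i)] [∀ i, Module R (U i)] (hU : ∀ i, User R (U i))
    (p : ∀ i, M →ₗ[R] U i) (F : Finset ι) :
    ∀ (T : Finset ℕ) (x : ℕ → M), F.card < T.card →
      ∃ j ∈ T, ∃ c : ℕ → R, ∀ i ∈ F, p i (x j - ∑ l ∈ T.erase j, c l • x l) = 0 := by
  classical
  induction F using Finset.induction_on with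
  | empty =>
    intro T x hT
    obtain ⟨j, hj⟩ := Finset.card_pos.1 (by simpa using hT)
    exact ⟨j, hj, fun _ => 0, by simp⟩
  | insert i F hi ih =>
    intro T x hT
    rw [Finset.card_insert_of_notMem hi] at hT
    -- choose the index with the largest i-component
    have hmax : ∀ S : Finset ℕ, S.Nonempty → ∃ m ∈ S, ∀ l ∈ S, ∃ r : R, p i (x l) = r • p i (x m) := by
      intro S hS
      induction hS using Finset.Nonempty.cons_induction with
      | singleton a => exact ⟨a, by simp, fun l hl => ⟨1, by simp at hl; simp [hl]⟩⟩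
      | cons a S ha hS ihS =>
        obtain ⟨m, hm, hml⟩ := ihS
        rcases hU i (p i (x a)) (p i (x m)) with ⟨r, hr⟩ | ⟨r, hr⟩
        · refine ⟨m, by simp [hm], ?_⟩
          intro l hl
          rcases Finset.mem_cons.1 hl with rfl | hl
          · exact ⟨r, hr⟩
          · exact hml l hl
        · refine ⟨a, by simp, ?_⟩
          intro l hl
          rcases Finset.mem_cons.1 hl with rfl | hl
          · exact ⟨1, by simp⟩
          · obtain ⟨s, hs⟩ := hml l hl
            exact ⟨s * r, by rw [hs, hr, mul_smul]⟩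
    obtain ⟨m, hm, hml⟩ := hmax T (Finset.card_pos.1 (by omega))
    choose! r hr using hml
    -- new elements
    obtain ⟨j, hj, c, hc⟩ := ih (T.erase m) (fun l => x l - r l • x m)
      (by rw [Finset.card_erase_of_mem hm]; omega)
    have hjm : j ≠ m := (Finset.mem_erase.1 hj).1
    have hjT : j ∈ T := (Finset.mem_erase.1 hj).2
    refine ⟨j, hjT, fun l => if l = m then r j - ∑ l ∈ (T.erase m).erase j, c l * r l else c l, ?_⟩
    have hkey : x j - ∑ l ∈ T.erase j, (if l = m then r j - ∑ l ∈ (T.erase m).erase j, c l * r l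
        else c l) • x l
        = (x j - r j • x m) - ∑ l ∈ (T.erase m).erase j, c l • (x l - r l • x m) := by
      have hmT : m ∈ T.erase j := Finset.mem_erase.2 ⟨hjm.symm, hm⟩
      rw [← Finset.add_sum_erase _ _ hmT, if_pos rfl, Finset.erase_right_comm]
      have : ∑ l ∈ (T.erase j).erase m, (if l = m then
          r j - ∑ l ∈ (T.erase j).erase m, c l * r l else c l) • x l
          = ∑ l ∈ (T.erase j).erase m, c l • x l := by
        apply Finset.sum_congr rfl
        intro l hl
        rw [if_neg]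
        exact (Finset.mem_erase.1 hl).1
      rw [this, sub_smul, Finset.sum_smul]
      simp only [smul_sub, Finset.sum_sub_distrib, mul_smul]
      abel
    intro k hk
    rw [hkey]
    rcases Finset.mem_insert.1 hk with rfl | hk
    · have h1 : ∀ l ∈ T, p k (x l - r l • x m) = 0 := by
        intro l hl
        rw [map_sub, map_smul, hr l hl, sub_self]
      rw [map_sub, h1 j hjT, map_sum]
      rw [Finset.sum_eq_zero, sub_zero]
      intro l hl
      rw [map_smul, h1 l (Finset.mem_erase.1 (Finset.mem_erase.1 hl).2).2, smul_zero]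
    · exact hc k hk

/-- the Chase type argument -/
lemma chase {I : ℕ → Ideal R} (hI : Monotone I)
    {ι : Type u} {U : ι → Type u} [∀ i, AddCommGroup (U i)] [∀ i, Module R (U i)]
    (f : (∀ n : ℕ, R ⧸ I n) →ₗ[R] (Π₀ i, U i)) :
    ∃ m : ℕ, ∃ F : Finset ι, ∀ y : (∀ n : ℕ, R ⧸ I n), (∀ n < m, y n = 0) →
      (∀ r ∈ I m, r • y = 0) → ∀ i ∉ F, ∀ n, ∀ r ∈ I n, r • f y i = 0 := by
  classical
  by_contra hcon
  push Not at hcon
  choose Y hY1 hY2 i hi n r hr hrne using hcon
  let σ : ℕ → ℕ × Finset ι := fun k => Nat.rec (0, ∅)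
    (fun _ s => (max (s.1 + 1) (n s.1 s.2), s.2 ∪ (f (Y s.1 s.2)).support)) k
  have hσ : ∀ k, σ (k + 1) = (max ((σ k).1 + 1) (n (σ k).1 (σ k).2),
      (σ k).2 ∪ (f (Y (σ k).1 (σ k).2)).support) := fun k => rfl
  let m : ℕ → ℕ := fun k => (σ k).1
  let F : ℕ → Finset ι := fun k => (σ k).2
  let y : ℕ → (∀ n : ℕ, R ⧸ I n) := fun k => Y (m k) (F k)
  have hm1 : ∀ k, m k < m (k + 1) := fun k => by
    change (σ k).1 < (σ (k + 1)).1
    rw [hσ]
    exact lt_of_lt_of_le (Nat.lt_succ_self _) (le_max_left _ _)
  have hmm : StrictMono m := strictMono_nat_of_lt_succ hm1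
  have hmk : ∀ k, k ≤ m k := fun k => hmm.id_le k
  have hmn : ∀ k, n (m k) (F k) ≤ m (k + 1) := fun k => by
    change n (σ k).1 (σ k).2 ≤ (σ (k + 1)).1
    rw [hσ]
    exact le_max_right _ _
  have hF1 : ∀ k, F k ⊆ F (k + 1) := fun k => by
    change (σ k).2 ⊆ (σ (k + 1)).2
    rw [hσ]
    exact Finset.subset_union_left
  have hFs : ∀ k, (f (y k)).support ⊆ F (k + 1) := fun k => by
    change (f (Y (σ k).1 (σ k).2)).support ⊆ (σ (k + 1)).2
    rw [hσ]
    exact Finset.subset_union_right
  have hFm : Monotone F := monotone_nat_of_le_succ hF1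
  have hyz : ∀ k n, n < m k → y k n = 0 := fun k n hn => hY1 (m k) (F k) n hn
  have hyk : ∀ k, ∀ r ∈ I (m k), r • y k = 0 := fun k r hr => hY2 (m k) (F k) r hr
  let yy : (∀ n : ℕ, R ⧸ I n) := fun n => ∑ k ∈ Finset.range (n + 1), y k n
  have hyy : ∀ n N, n + 1 ≤ N → yy n = ∑ k ∈ Finset.range N, y k n := by
    intro n N hN
    apply Finset.sum_subset (Finset.range_subset_range.2 hN)
    intro k _ hk
    apply hyz
    have := hmk k
    simp only [Finset.mem_range, not_lt] at hk
    omega
  -- tail
  have htail : ∀ k, ∀ r ∈ I (m (k + 1)), r • (yy - ∑ j ∈ Finset.range (k + 1), y j) = 0 := by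
    intro k r hr
    ext n
    have h1 : (yy - ∑ j ∈ Finset.range (k + 1), y j) n
        = ∑ j ∈ Finset.Ico (k + 1) (max (n + 1) (k + 1)), y j n := by
      rw [Finset.sum_Ico_eq_sub _ (le_max_right _ _), Pi.sub_apply, Finset.sum_apply,
        hyy n (max (n + 1) (k + 1)) (le_max_left _ _)]
    rw [Pi.smul_apply, h1, Finset.smul_sum, Pi.zero_apply]
    apply Finset.sum_eq_zero
    intro j hj
    have h2 : k + 1 ≤ j := (Finset.mem_Ico.1 hj).1
    have h3 := hyk j r (hI (hmm.monotone h2) hr)
    exact congrFun h3 n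
  -- components
  have hcomp : ∀ k, f yy (i (m k) (F k)) ≠ 0 := by
    intro k h0
    have e1 : yy = (yy - ∑ j ∈ Finset.range (k + 1), y j) + ∑ j ∈ Finset.range (k + 1), y j := by
      abel
    have e2 : ∀ j < k, f (y j) (i (m k) (F k)) = 0 := by
      intro j hj
      by_contra hne
      apply hi (m k) (F k)
      have h3 : i (m k) (F k) ∈ (f (y j)).support := by
        rw [DFinsupp.mem_support_iff]; exact hne
      exact hFm (show j + 1 ≤ k by omega) (hFs j h3)
    apply hrne (m k) (F k)
    have e3 : f yy (i (m k) (F k)) = f (yy - ∑ j ∈ Finset.range (k + 1), y j) (i (m k) (F k))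
        + f (y k) (i (m k) (F k)) := by
      conv_lhs => rw [e1]
      rw [map_add, DFinsupp.add_apply]
      congr 1
      rw [Finset.sum_range_succ, map_add, DFinsupp.add_apply, map_sum, DFinsupp.finsetSum_apply,
        Finset.sum_eq_zero, zero_add]
      intro j hj
      exact e2 j (Finset.mem_range.1 hj)
    have e4 : r (m k) (F k) • f (yy - ∑ j ∈ Finset.range (k + 1), y j) (i (m k) (F k)) = 0 := by
      rw [← DFinsupp.smul_apply, ← map_smul, htail k _ (hI (hmn k) (hr (m k) (F k))), map_zero]
      rfl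
    have e5 := congrArg (fun t => r (m k) (F k) • t) e3
    simp only [smul_add] at e5
    rw [e4, zero_add, h0, smul_zero] at e5
    exact e5.symm
  have hinj : Function.Injective (fun k => i (m k) (F k)) := by
    have haux : ∀ j k, j < k → i (m j) (F j) ≠ i (m k) (F k) := by
      intro j k hjk heq
      apply hi (m k) (F k)
      rw [← heq]
      have h3 : i (m j) (F j) ∈ (f (y j)).support := by
        rw [DFinsupp.mem_support_iff]
        intro h0
        apply hrne (m j) (F j)
        change r (m j) (F j) • f (y j) (i (m j) (F j)) = 0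
        rw [h0, smul_zero]
      exact hFm (show j + 1 ≤ k by omega) (hFs j h3)
    intro j k hjk
    rcases lt_trichotomy j k with h | h | h
    · exact absurd hjk (haux j k h)
    · exact h
    · exact absurd hjk.symm (haux k j h)
  have hfinite : (Set.range fun k => i (m k) (F k)).Finite :=
    (f yy).support.finite_toSet.subset (by
      rintro _ ⟨k, rfl⟩
      simpa using hcomp k)
  exact Set.infinite_range_of_injective hinj hfinite

theorem noetherian_of_hasE (h : HasE R) : IsNoetherianRing R := by
  classical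
  rw [isNoetherianRing_iff, ← monotone_stabilizes_iff_noetherian]
  by_contra hcon
  push Not at hcon
  obtain ⟨g, hg⟩ := hcon
  let I : ℕ → Ideal R := fun n => g n
  have hI : Monotone I := g.monotone
  have hex : ∀ n, ∃ k, ∃ r ∈ I k, r ∉ I n := by
    intro n
    obtain ⟨k, hk, hne⟩ := hg n
    have hlt : g n < g k := lt_of_le_of_ne (g.monotone hk) hne
    obtain ⟨r, hr1, hr2⟩ := SetLike.exists_of_lt hlt
    exact ⟨k, r, hr1, hr2⟩
  obtain ⟨ι, U, iU, mU, hU, f, hf⟩ := h (∀ n : ℕ, R ⧸ I n)
  obtain ⟨m, F, hmF⟩ := chase hI f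
  choose k r hr1 hr2 using hex
  -- basic elements
  let x : ℕ → (∀ n : ℕ, R ⧸ I n) := fun l => Pi.single (m + l) (Submodule.Quotient.mk 1)
  have hsm : ∀ (s : R) l, s • x l = Pi.single (m + l) (Submodule.Quotient.mk s) := by
    intro s l
    have h1 : s • (Submodule.Quotient.mk 1 : R ⧸ I (m + l)) = Submodule.Quotient.mk s := by
      rw [← Submodule.Quotient.mk_smul, smul_eq_mul, mul_one]
    funext n
    rw [Pi.smul_apply]
    by_cases hn : n = m + l
    · subst hn
      rw [Pi.single_eq_same, ← h1]
      congr 1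
      exact Pi.single_eq_same _ _
    · rw [Pi.single_eq_of_ne hn]
      have : x l n = 0 := Pi.single_eq_of_ne hn _
      rw [this, smul_zero]
  have hx1 : ∀ l, ∀ i ∉ F, ∀ n, ∀ s ∈ I n, s • f (x l) i = 0 := by
    intro l
    apply hmF
    · intro n hn
      exact Pi.single_eq_of_ne (by omega) _
    · intro s hs
      rw [hsm]
      have : (Submodule.Quotient.mk s : R ⧸ I (m + l)) = 0 := by
        rw [Submodule.Quotient.mk_eq_zero]
        exact hI (Nat.le_add_right m l) hs
      rw [this, Pi.single_zero]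
  let w : ℕ → (∀ n : ℕ, R ⧸ I n) := fun l => r (m + l) • x l
  have hw1 : ∀ l, w l = Pi.single (m + l) (Submodule.Quotient.mk (r (m + l))) := fun l => hsm _ l
  have hw2 : ∀ l, ∀ i ∉ F, ∀ s : R, f (s • w l) i = 0 := by
    intro l i hi s
    change f (s • r (m + l) • x l) i = 0
    rw [← mul_smul, map_smul, DFinsupp.smul_apply]
    exact hx1 l i hi _ _ ((I _).mul_mem_left s (hr1 (m + l)))
  obtain ⟨j, hj, c, hc⟩ := dep_of_card (fun i => isUniserial_iff.1 (hU i))
    (fun i => (DFinsupp.lapply i : (Π₀ i, U i) →ₗ[R] U i).comp f) F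
    (Finset.range (F.card + 1)) w (by simp)
  have hz : w j - ∑ l ∈ (Finset.range (F.card + 1)).erase j, c l • w l = 0 := by
    apply hf
    rw [map_zero]
    ext i
    by_cases hi : i ∈ F
    · exact hc i hi
    · rw [map_sub, DFinsupp.sub_apply, map_sum, DFinsupp.finsetSum_apply, Finset.sum_eq_zero]
      · have := hw2 j i hi 1
        rw [one_smul] at this
        rw [this, sub_zero]
        rfl
      · intro l _
        exact hw2 l i hi _
  have hz2 := congrFun hz (m + j)
  rw [Pi.sub_apply, Finset.sum_apply, Finset.sum_eq_zero, sub_zero, hw1, Pi.single_eq_same,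
    Pi.zero_apply, Submodule.Quotient.mk_eq_zero] at hz2
  · exact hr2 _ hz2
  · intro l hl
    rw [Pi.smul_apply, hw1, Pi.single_eq_of_ne, smul_zero]
    have := (Finset.mem_erase.1 hl).1
    omega

/-- Theorem A: (E) iff left noetherian and uniform modules are uniserial -/
theorem hasE_iff : HasE R ↔ IsNoetherianRing R ∧ PU R :=
  ⟨fun h => ⟨noetherian_of_hasE h, pu_of_hasE h⟩, fun ⟨_, h2⟩ => hasE_of h2⟩

end forward

end Pool.Agent.Helper970.Uni
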