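import Pool.Agent.Helper970.UniA

universe u

open scoped DirectSum WithZero

namespace Pool.Agent.Helper970.Uni

section order

variable {D : Type u} [DivisionRing D]

variable (v : Valuation D ℤᵐ⁰)

/-- order of an element -/
def ordd (a : D) : ℤ := - WithZero.log (v a)

lemma ordd_mul {a b : D} (ha : a ≠ 0) (hb : b ≠ 0) : ordd v (a * b) = ordd v a + ordd v b := by
  unfold ordd
  rw [map_mul, WithZero.log_mul ((v.ne_zero_iff).2 ha) ((v.ne_zero_iff).2 hb)]
  ring

lemma ordd_inv (a : D) : ordd v (a⁻¹) = - ordd v a := by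
  unfold ordd
  rw [map_inv₀, WithZero.log_inv]

lemma le_one_iff_ordd {a : D} (ha : a ≠ 0) : v a ≤ 1 ↔ 0 ≤ ordd v a := by
  unfold ordd
  rw [← WithZero.log_le_log ((v.ne_zero_iff).2 ha) one_ne_zero, WithZero.log_one]
  constructor <;> intro h <;> linarith

lemma lt_one_iff_ordd {a : D} (ha : a ≠ 0) : v a < 1 ↔ 1 ≤ ordd v a := by
  unfold ordd
  rw [← WithZero.log_lt_log ((v.ne_zero_iff).2 ha) one_ne_zero, WithZero.log_one]
  constructor <;> intro h <;> linarith

variable {k : ℕ} (n : Fin k → ℕ)

/-- admissibility of an entry -/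
def adm (i j : Fin k) (a : D) : Prop := v a ≤ 1 ∧ (n i < n j → v a < 1)

variable {v n}

lemma adm_mul {i j l : Fin k} {a b : D} (ha : adm v n i j a) (hb : adm v n j l b) :
    adm v n i l (a * b) := by
  constructor
  · rw [map_mul]
    exact mul_le_one' ha.1 hb.1
  · intro hil
    rw [map_mul]
    rcases lt_or_ge (n i) (n j) with h | h
    · exact mul_lt_one_A (ha.2 h) hb.1
    · exact mul_lt_one_B ha.1 (hb.2 (lt_of_le_of_lt h hil))

lemma adm_add {i j : Fin k} {a b : D} (ha : adm v n i j a) (hb : adm v n i j b) :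
    adm v n i j (a + b) :=
  ⟨v.map_add_le ha.1 hb.1, fun h => v.map_add_lt (ha.2 h) (hb.2 h)⟩

lemma adm_zero {i j : Fin k} : adm v n i j 0 := by
  constructor <;> simp

lemma adm_one {i : Fin k} : adm v n i i 1 := by
  constructor <;> simp

/-- matrix unit in the order -/
def el {i j : Fin k} {a : D} (h : adm v n i j a) : hereditaryOrder v n :=
  ⟨Matrix.single i j a, by
    intro p q
    by_cases hpq : i = p ∧ j = q
    · obtain ⟨rfl, rfl⟩ := hpq
      simpa [adm] using h
    · have : Matrix.single i j a p q = 0 := by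
        rw [Matrix.single_apply, if_neg hpq]
      rw [this]
      simp⟩

lemma el_mul {i j l : Fin k} {a b : D} (ha : adm v n i j a) (hb : adm v n j l b) :
    el ha * el hb = el (adm_mul ha hb) := by
  apply Subtype.ext
  change Matrix.single i j a * Matrix.single j l b = Matrix.single i l (a * b)
  rw [Matrix.single_mul_single_same]

lemma el_add {i j : Fin k} {a b : D} (ha : adm v n i j a) (hb : adm v n i j b) :
    el ha + el hb = el (adm_add ha hb) := by
  apply Subtype.ext
  change Matrix.single i j a + Matrix.single i j b = Matrix.single i j (a + b)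
  rw [Matrix.single_add]

lemma el_zero {i j : Fin k} : el (adm_zero : adm v n i j 0) = 0 := by
  apply Subtype.ext
  change Matrix.single i j (0 : D) = 0
  simp

lemma el_congr {i j : Fin k} {a b : D} (ha : adm v n i j a) (hb : adm v n i j b) (h : a = b) :
    el ha = el hb := by
  subst h; rfl

lemma sum_el : ∑ i : Fin k, el (adm_one : adm v n i i 1) = 1 := by
  apply Subtype.ext
  rw [AddSubmonoidClass.coe_finsetSum]
  change ∑ i : Fin k, Matrix.single i i (1 : D) = 1
  ext p q
  rw [Matrix.sum_apply, Matrix.one_apply]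
  by_cases h : p = q
  · subst h
    rw [if_pos rfl, Finset.sum_eq_single p]
    · simp
    · intro b _ hb
      simp [hb]
    · simp
  · rw [if_neg h]
    apply Finset.sum_eq_zero
    intro b _
    rw [Matrix.single_apply, if_neg]
    rintro ⟨rfl, rfl⟩
    exact h rfl

/-- sandwich -/
lemma el_mul_el (h : hereditaryOrder v n) (i j : Fin k) :
    el (adm_one : adm v n i i 1) * h * el (adm_one : adm v n j j 1)
      = el (show adm v n i j (h.1 i j) from h.2 i j) := by
  apply Subtype.ext
  change Matrix.single i i (1 : D) * h.1 * Matrix.single j j (1 : D) = Matrix.single i j (h.1 i j)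
  rw [Matrix.single_mul_mul_single]
  simp

/-- weight -/
def wt (v : Valuation D ℤᵐ⁰) {k : ℕ} (n : Fin k → ℕ) (t : ℕ) (i j : Fin k) (a : D) : ℤ :=
  t * ordd v a + n i - n j

lemma adm_iff_wt {t : ℕ} (ht : ∀ i, n i < t) {i j : Fin k} {a : D} (ha : a ≠ 0) :
    adm v n i j a ↔ 0 ≤ wt v n t i j a := by
  unfold adm wt
  rw [le_one_iff_ordd v ha, lt_one_iff_ordd v ha]
  have h1 := ht i
  have h2 := ht j
  have h1' : (n i : ℤ) < t := by exact_mod_cast h1
  have h2' : (n j : ℤ) < t := by exact_mod_cast h2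
  have h3 : (0 : ℤ) ≤ n i := by positivity
  have h4 : (0 : ℤ) ≤ n j := by positivity
  constructor
  · rintro ⟨h5, h6⟩
    rcases lt_or_ge (n i) (n j) with h | h
    · have := h6 h
      nlinarith
    · have h' : (n j : ℤ) ≤ n i := by exact_mod_cast h
      nlinarith
  · intro h
    have h5 : 0 ≤ ordd v a := by
      by_contra hcon
      push Not at hcon
      have : ordd v a ≤ -1 := by linarith
      nlinarith
    refine ⟨h5, ?_⟩
    intro hij
    have h' : (n i : ℤ) < n j := by exact_mod_cast hij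
    by_contra hcon
    push Not at hcon
    have : ordd v a = 0 := by linarith
    rw [this] at h
    linarith

lemma el_inj {i j : Fin k} {a : D} (ha : adm v n i j a) (h : el ha = 0) : a = 0 := by
  have h1 := congrArg (fun M : hereditaryOrder v n => M.1 i j) h
  simpa [el] using h1

end order

section lemmaH

variable {D : Type u} [DivisionRing D] (v : Valuation D ℤᵐ⁰) {k : ℕ} (n : Fin k → ℕ)
variable {U : Type u} [AddCommGroup U] [Module (hereditaryOrder v n) U]

/-- homogeneous elements -/
def Hmg (i : Fin k) (x : U) : Prop := el (adm_one : adm v n i i 1) • x = x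

/-- comparable homogeneous elements -/
def Cmp (i j : Fin k) (x y : U) : Prop :=
  (∃ (a : D) (h : adm v n i j a), x = el h • y) ∨ (∃ (a : D) (h : adm v n j i a), y = el h • x)

variable {v n}

lemma Cmp.symm {i j : Fin k} {x y : U} (h : Cmp v n i j x y) : Cmp v n j i y x := Or.symm h

lemma Hmg.el_smul {i j : Fin k} {a : D} (h : adm v n i j a) (x : U) : Hmg v n i (el h • x) := by
  unfold Hmg
  rw [← mul_smul, el_mul]
  congr 1
  exact el_congr _ _ (one_mul a)

lemma Hmg.sub {i : Fin k} {x y : U} (hx : Hmg v n i x) (hy : Hmg v n i y) :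
    Hmg v n i (x - y) := by
  unfold Hmg at *
  rw [smul_sub, hx, hy]

lemma cmp_step {i j : Fin k} {x y : U} (hx : Hmg v n i x) (hy : Hmg v n j y) {γ : D}
    (hγ : adm v n j i γ) (hC : Cmp v n i j x (y - el hγ • x)) : Cmp v n i j x y := by
  have hy1 : Hmg v n j (y - el hγ • x) := hy.sub (Hmg.el_smul hγ x)
  rcases hC with ⟨δ, hδ, hx'⟩ | ⟨δ, hδ, hy'⟩
  · rcases lt_or_ge (v (δ * γ)) 1 with h1 | h1
    · left
      have hne : (1 + δ * γ) ≠ 0 := by
        intro h
        have : v (1 + δ * γ) = 1 := v.map_one_add_of_lt h1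
        rw [h, map_zero] at this
        exact zero_ne_one this
      have hv1 : v (1 + δ * γ) = 1 := v.map_one_add_of_lt h1
      have hε1 : adm v n i i ((1 + δ * γ)⁻¹) := by
        constructor
        · rw [map_inv₀, hv1, inv_one]
        · intro h; exact absurd h (lt_irrefl _)
      have hε2 : adm v n i i (1 + δ * γ) := by
        constructor
        · rw [hv1]
        · intro h; exact absurd h (lt_irrefl _)
      refine ⟨(1 + δ * γ)⁻¹ * δ, adm_mul hε1 hδ, ?_⟩
      have e1 : el hε2 • x = el hδ • y := by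
        have e2 : el hε2 = el (adm_one : adm v n i i 1) + el (adm_mul hδ hγ) := by
          rw [el_add]
        rw [e2, add_smul, ← el_mul hδ hγ, mul_smul]
        unfold Hmg at hx
        rw [hx]
        nth_rewrite 1 [hx']
        rw [smul_sub]
        abel
      rw [← el_mul hε1 hδ, mul_smul, ← e1, ← mul_smul, el_mul]
      have e3 : el (adm_mul hε1 hε2) = el (adm_one : adm v n i i 1) :=
        el_congr _ _ (inv_mul_cancel₀ hne)
      rw [e3]
      exact hx.symm
    · right
      rw [map_mul] at h1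
      have hδ1 : v δ = 1 := by
        apply le_antisymm hδ.1
        by_contra hcon
        push Not at hcon
        exact absurd h1 (not_le.2 (mul_lt_one_A hcon hγ.1))
      have hγ1 : v γ = 1 := by
        apply le_antisymm hγ.1
        by_contra hcon
        push Not at hcon
        exact absurd h1 (not_le.2 (mul_lt_one_B hδ.1 hcon))
      have hδ0 : δ ≠ 0 := by
        intro h
        rw [h, map_zero] at hδ1
        exact zero_ne_one hδ1
      have hji : ¬ n j < n i := by
        intro h
        have := hγ.2 h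
        rw [hγ1] at this
        exact lt_irrefl _ this
      have hδi : adm v n j i δ⁻¹ := by
        constructor
        · rw [map_inv₀, hδ1, inv_one]
        · intro h; exact absurd h hji
      refine ⟨δ⁻¹ + γ, adm_add hδi hγ, ?_⟩
      rw [← el_add hδi hγ, add_smul]
      have e1 : el hδi • x = y - el hγ • x := by
        nth_rewrite 1 [hx']
        rw [← mul_smul, el_mul]
        have : el (adm_mul hδi hδ) = el (adm_one : adm v n j j 1) :=
          el_congr _ _ (inv_mul_cancel₀ hδ0)
        rw [this]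
        exact hy1
      rw [e1]
      abel
  · right
    refine ⟨δ + γ, adm_add hδ hγ, ?_⟩
    rw [← el_add hδ hγ, add_smul, ← hy']
    abel

lemma cmp_zero_left {i j : Fin k} (y : U) : Cmp v n i j 0 y :=
  Or.inl ⟨0, adm_zero, by rw [el_zero, zero_smul]⟩

lemma cmp_zero_right {i j : Fin k} (x : U) : Cmp v n i j x 0 :=
  Or.inr ⟨0, adm_zero, by rw [el_zero, zero_smul]⟩

lemma exists_common (hU : Unif (hereditaryOrder v n) U) {i j : Fin k} {x y : U}
    (hx : Hmg v n i x) (hy : Hmg v n j y) (hx0 : x ≠ 0) (hy0 : y ≠ 0) :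
    ∃ (l : Fin k) (α β : D) (hα : adm v n l i α) (hβ : adm v n l j β),
      el hα • x = el hβ • y ∧ el hα • x ≠ 0 := by
  obtain ⟨a, b, hab, h0⟩ := hU x y hx0 hy0
  have hex : ∃ l : Fin k, el (adm_one : adm v n l l 1) • (a • x) ≠ 0 := by
    by_contra hcon
    push Not at hcon
    apply h0
    rw [← one_smul (hereditaryOrder v n) (a • x), ← sum_el, Finset.sum_smul]
    exact Finset.sum_eq_zero (fun l _ => hcon l)
  obtain ⟨l, hl⟩ := hex
  have e1 : el (adm_one : adm v n l l 1) • (a • x)
      = el (show adm v n l i (a.1 l i) from a.2 l i) • x := by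
    rw [← el_mul_el, mul_smul, mul_smul]
    unfold Hmg at hx
    rw [hx]
  have e2 : el (adm_one : adm v n l l 1) • (b • y)
      = el (show adm v n l j (b.1 l j) from b.2 l j) • y := by
    rw [← el_mul_el, mul_smul, mul_smul]
    unfold Hmg at hy
    rw [hy]
  refine ⟨l, a.1 l i, b.1 l j, a.2 l i, b.2 l j, ?_, ?_⟩
  · rw [← e1, ← e2, hab]
  · rw [← e1]
    exact hl

lemma wt_mul_inv {t : ℕ} {l l' j : Fin k} {β β' : D} (hβ : β ≠ 0) (hβ' : β' ≠ 0) :
    wt v n t l l' (β * β'⁻¹) = wt v n t l j β - wt v n t l' j β' := by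
  unfold wt
  rw [ordd_mul v hβ (inv_ne_zero hβ'), ordd_inv]
  ring

lemma wt_inv_mul {t : ℕ} {l i j : Fin k} {α β : D} (hα : α ≠ 0) (hβ : β ≠ 0) :
    wt v n t j i (β⁻¹ * α) = wt v n t l i α - wt v n t l j β := by
  unfold wt
  rw [ordd_mul v (inv_ne_zero hβ) hα, ordd_inv]
  ring

/-- reduction by a common multiple -/
lemma reduce_lemma {t : ℕ} (ht : ∀ i, n i < t) (hU : Unif (hereditaryOrder v n) U)
    {i j : Fin k} {x y : U}
    (hx : Hmg v n i x) (hy : Hmg v n j y) (hx0 : x ≠ 0) (hy0 : y ≠ 0) :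
    ∃ (l : Fin k) (α β : D) (hα : adm v n l i α) (hβ : adm v n l j β), α ≠ 0 ∧ β ≠ 0 ∧
      el hβ • y ≠ 0 ∧
      ((wt v n t l j β ≤ wt v n t l i α ∧ ∃ (γ : D) (hγ : adm v n j i γ),
          el hβ • (y - el hγ • x) = 0) ∨
       (wt v n t l i α < wt v n t l j β ∧ ∃ (γ : D) (hγ : adm v n i j γ),
          el hα • (x - el hγ • y) = 0)) := by
  obtain ⟨l, α, β, hα, hβ, heq, hne⟩ := exists_common hU hx hy hx0 hy0
  have hα0 : α ≠ 0 := by
    rintro rfl
    apply hne
    rw [el_zero, zero_smul]
  have hβ0 : β ≠ 0 := by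
    rintro rfl
    apply hne
    rw [heq, el_zero, zero_smul]
  refine ⟨l, α, β, hα, hβ, hα0, hβ0, by rw [← heq]; exact hne, ?_⟩
  rcases le_or_gt (wt v n t l j β) (wt v n t l i α) with h | h
  · left
    refine ⟨h, β⁻¹ * α, ?_, ?_⟩
    · rw [adm_iff_wt ht (mul_ne_zero (inv_ne_zero hβ0) hα0), wt_inv_mul (l := l) hα0 hβ0]
      linarith
    · rw [smul_sub, ← mul_smul, el_mul]
      rw [el_congr _ hα (by rw [← mul_assoc, mul_inv_cancel₀ hβ0, one_mul]), heq, sub_self]
  · right
    refine ⟨h, α⁻¹ * β, ?_, ?_⟩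
    · rw [adm_iff_wt ht (mul_ne_zero (inv_ne_zero hα0) hβ0), wt_inv_mul (l := l) hβ0 hα0]
      linarith
    · rw [smul_sub, ← mul_smul, el_mul]
      rw [el_congr _ hβ (by rw [← mul_assoc, mul_inv_cancel₀ hα0, one_mul]), heq, sub_self]

lemma cmp_of_kill {t : ℕ} (ht : ∀ i, n i < t) (hU : Unif (hereditaryOrder v n) U) :
    ∀ (B : ℕ) (i j : Fin k) (x y : U), Hmg v n i x → Hmg v n j y →
      (∃ (l : Fin k) (β : D) (h : adm v n l j β), β ≠ 0 ∧ wt v n t l j β < B ∧ el h • y = 0) →
      Cmp v n i j x y := by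
  intro B
  induction B with
  | zero =>
    rintro i j x y hx hy ⟨l, β, h, hβ, hw, -⟩
    rw [adm_iff_wt ht hβ] at h
    simp at hw
    linarith
  | succ B ih =>
    rintro i j x y hx hy ⟨l', β', h', hβ', hw', hk'⟩
    by_cases hx0 : x = 0
    · rw [hx0]; exact cmp_zero_left y
    by_cases hy0 : y = 0
    · rw [hy0]; exact cmp_zero_right x
    obtain ⟨l, α, β, hα, hβ, hα0, hβ0, hne, hcase⟩ := reduce_lemma ht hU hx hy hx0 hy0
    have hlt : wt v n t l j β < wt v n t l' j β' := by
      by_contra hcon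
      push Not at hcon
      have hadm : adm v n l l' (β * β'⁻¹) := by
        rw [adm_iff_wt ht (mul_ne_zero hβ0 (inv_ne_zero hβ')), wt_mul_inv (j := j) hβ0 hβ']
        linarith
      apply hne
      have : el hβ = el hadm * el h' := by
        rw [el_mul]
        exact el_congr _ _ (by rw [mul_assoc, inv_mul_cancel₀ hβ', mul_one])
      rw [this, mul_smul, hk', smul_zero]
    push_cast at hw'
    rcases hcase with ⟨hw, γ, hγ, hz⟩ | ⟨hw, γ, hγ, hz⟩
    · apply cmp_step hx hy hγ
      apply ih i j x _ hx (hy.sub (Hmg.el_smul hγ x))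
      exact ⟨l, β, hβ, hβ0, by linarith, hz⟩
    · apply Cmp.symm
      apply cmp_step hy hx hγ
      apply ih j i y _ hy (hx.sub (Hmg.el_smul hγ y))
      exact ⟨l, α, hα, hα0, by linarith, hz⟩

lemma cmp_all (hU : Unif (hereditaryOrder v n) U) {i j : Fin k} {x y : U}
    (hx : Hmg v n i x) (hy : Hmg v n j y) : Cmp v n i j x y := by
  obtain ⟨t, ht⟩ : ∃ t : ℕ, ∀ i, n i < t := by
    refine ⟨∑ i, n i + 1, fun i => ?_⟩
    have := Finset.single_le_sum (f := n) (fun i _ => Nat.zero_le (n i)) (Finset.mem_univ i)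
    omega
  by_cases hx0 : x = 0
  · rw [hx0]; exact cmp_zero_left y
  by_cases hy0 : y = 0
  · rw [hy0]; exact cmp_zero_right x
  obtain ⟨l, α, β, hα, hβ, hα0, hβ0, hne, hcase⟩ := reduce_lemma ht hU hx hy hx0 hy0
  rcases hcase with ⟨hw, γ, hγ, hz⟩ | ⟨hw, γ, hγ, hz⟩
  · apply cmp_step hx hy hγ
    refine cmp_of_kill ht hU ((wt v n t l j β).toNat + 1) i j x _ hx (hy.sub (Hmg.el_smul hγ x)) ?_
    refine ⟨l, β, hβ, hβ0, ?_, hz⟩
    push_cast
    have := Int.self_le_toNat (wt v n t l j β)
    linarith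
  · apply Cmp.symm
    apply cmp_step hy hx hγ
    refine cmp_of_kill ht hU ((wt v n t l i α).toNat + 1) j i y _ hy (hx.sub (Hmg.el_smul hγ y)) ?_
    refine ⟨l, α, hα, hα0, ?_, hz⟩
    push_cast
    have := Int.self_le_toNat (wt v n t l i α)
    linarith

/-- finite families with pairwise comparable members have a largest one -/
lemma exists_largest {S : Type u} [Ring S] {W : Type u} [AddCommGroup W] [Module S W]
    {κ : Type} [Finite κ] [Nonempty κ] (z : κ → W)
    (h : ∀ a b, (∃ r : S, z a = r • z b) ∨ (∃ r : S, z b = r • z a)) :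
    ∃ m, ∀ l, ∃ r : S, z l = r • z m := by
  classical
  cases nonempty_fintype κ
  have hmax : ∀ F : Finset κ, F.Nonempty → ∃ m ∈ F, ∀ l ∈ F, ∃ r : S, z l = r • z m := by
    intro F hF
    induction hF using Finset.Nonempty.cons_induction with
    | singleton a => exact ⟨a, by simp, fun l hl => ⟨1, by simp at hl; simp [hl]⟩⟩
    | cons a F ha hF ihF =>
      obtain ⟨m, hm, hml⟩ := ihF
      rcases h a m with ⟨r, hr⟩ | ⟨r, hr⟩
      · refine ⟨m, by simp [hm], ?_⟩
        intro l hl
        rcases Finset.mem_cons.1 hl with rfl | hl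
        · exact ⟨r, hr⟩
        · exact hml l hl
      · refine ⟨a, by simp, ?_⟩
        intro l hl
        rcases Finset.mem_cons.1 hl with rfl | hl
        · exact ⟨1, by simp⟩
        · obtain ⟨s, hs⟩ := hml l hl
          exact ⟨s * r, by rw [hs, hr, mul_smul]⟩
  obtain ⟨m, _, hm⟩ := hmax Finset.univ Finset.univ_nonempty
  exact ⟨m, fun l => hm l (Finset.mem_univ l)⟩

/-- uniform modules over a hereditary order are uniserial -/
theorem user_of_unif_order (hU : Unif (hereditaryOrder v n) U) : User (hereditaryOrder v n) U := by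
  classical
  intro x y
  rcases Nat.eq_zero_or_pos k with hk | hk
  · left
    refine ⟨0, ?_⟩
    subst hk
    have h1 : (1 : hereditaryOrder v n) = 0 := by
      apply Subtype.ext
      ext i
      exact i.elim0
    rw [zero_smul, ← one_smul (hereditaryOrder v n) x, h1, zero_smul]
  · have : Nonempty (Fin k) := ⟨⟨0, hk⟩⟩
    let z : Bool × Fin k → U := fun p =>
      el (adm_one : adm v n p.2 p.2 1) • (if p.1 then x else y)
    have hz : ∀ p, Hmg v n p.2 (z p) := fun p => Hmg.el_smul _ _
    obtain ⟨m, hm⟩ := exists_largest (S := hereditaryOrder v n) z (by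
      intro a b
      rcases cmp_all hU (hz a) (hz b) with ⟨c, h, hc⟩ | ⟨c, h, hc⟩
      · exact Or.inl ⟨_, hc⟩
      · exact Or.inr ⟨_, hc⟩)
    choose r hr using hm
    have hx : x = (∑ i, r (true, i)) • z m := by
      rw [Finset.sum_smul]
      have : ∀ i, r (true, i) • z m = el (adm_one : adm v n i i 1) • x := fun i => by
        rw [← hr]; simp [z]
      rw [Finset.sum_congr rfl (fun i _ => this i), ← Finset.sum_smul, sum_el, one_smul]
    have hy : y = (∑ i, r (false, i)) • z m := by
      rw [Finset.sum_smul]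
      have : ∀ i, r (false, i) • z m = el (adm_one : adm v n i i 1) • y := fun i => by
        rw [← hr]; simp [z]
      rw [Finset.sum_congr rfl (fun i _ => this i), ← Finset.sum_smul, sum_el, one_smul]
    obtain ⟨b, i⟩ := m
    cases b with
    | true =>
      right
      refine ⟨(∑ i, r (false, i)) * el (adm_one : adm v n i i 1), ?_⟩
      conv_lhs => rw [hy]
      simp [z, mul_smul]
    | false =>
      left
      refine ⟨(∑ i, r (true, i)) * el (adm_one : adm v n i i 1), ?_⟩
      conv_lhs => rw [hx]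
      simp [z, mul_smul]

end lemmaH

end Pool.Agent.Helper970.Uni
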