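import Pool.Agent.Helper970.UniC

universe u

open scoped DirectSum WithZero

namespace Pool.Agent.Helper970.Uni

section backward

variable {R : Type u} [Ring R]

/-- module structure along a surjection whose kernel kills the module -/
@[reducible] noncomputable def modOfSurj {R' : Type u} [Ring R'] (φ : R →+* R')
    (hφ : Function.Surjective φ)
    (U : Type u) [AddCommGroup U] [Module R U] (hk : ∀ r, φ r = 0 → ∀ x : U, r • x = 0) :
    Module R' U :=
  have key : ∀ (r s : R), φ r = φ s → ∀ x : U, r • x = s • x := by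
    intro r s h x
    have h1 : φ (r - s) = 0 := by rw [map_sub, h, sub_self]
    have h2 := hk _ h1 x
    rw [sub_smul, sub_eq_zero] at h2
    exact h2
  { smul := fun r' x => (hφ r').choose • x
    one_smul := fun x => by
      change (hφ 1).choose • x = x
      rw [key _ 1 (by rw [(hφ 1).choose_spec, map_one]), one_smul]
    mul_smul := fun a b x => by
      change (hφ (a * b)).choose • x = (hφ a).choose • (hφ b).choose • x
      rw [← mul_smul]
      apply key
      rw [map_mul, (hφ a).choose_spec, (hφ b).choose_spec, (hφ (a * b)).choose_spec]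
    smul_zero := fun a => by
      change (hφ a).choose • (0 : U) = 0
      rw [smul_zero]
    smul_add := fun a x y => by
      change (hφ a).choose • (x + y) = (hφ a).choose • x + (hφ a).choose • y
      rw [smul_add]
    add_smul := fun a b x => by
      change (hφ (a + b)).choose • x = (hφ a).choose • x + (hφ b).choose • x
      rw [← add_smul]
      apply key
      rw [map_add, (hφ a).choose_spec, (hφ b).choose_spec, (hφ (a + b)).choose_spec]
    zero_smul := fun x => by
      change (hφ 0).choose • x = 0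
      exact hk _ (hφ 0).choose_spec x }

lemma modOfSurj_smul {R' : Type u} [Ring R'] (φ : R →+* R')
    (hφ : Function.Surjective φ)
    (U : Type u) [AddCommGroup U] [Module R U] (hk : ∀ r, φ r = 0 → ∀ x : U, r • x = 0)
    (r : R) (x : U) :
    letI := modOfSurj φ hφ U hk
    (φ r) • x = r • x := by
  change (hφ (φ r)).choose • x = r • x
  have h1 : φ ((hφ (φ r)).choose - r) = 0 := by rw [map_sub, (hφ (φ r)).choose_spec, sub_self]
  have h2 := hk _ h1 x
  rw [sub_smul, sub_eq_zero] at h2
  exact h2

lemma user_of_surj {R' : Type u} [Ring R'] (φ : R →+* R') (hφ : Function.Surjective φ)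
    (hR' : PU R')
    (U : Type u) [AddCommGroup U] [Module R U] (hk : ∀ r, φ r = 0 → ∀ x : U, r • x = 0)
    (hU : Unif R U) : User R U := by
  let _ := modOfSurj φ hφ U hk
  have hs : ∀ (r : R) (x : U), (φ r) • x = r • x := fun r x => modOfSurj_smul φ hφ U hk r x
  have h1 : Unif R' U := by
    intro x y hx hy
    obtain ⟨a, b, hab, h0⟩ := hU x y hx hy
    exact ⟨φ a, φ b, by rw [hs, hs, hab], by rw [hs]; exact h0⟩
  intro x y
  rcases hR' U h1 x y with ⟨r, hr⟩ | ⟨r, hr⟩
  · obtain ⟨r, rfl⟩ := hφ r
    exact Or.inl ⟨r, by rw [hr, hs]⟩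
  · obtain ⟨r, rfl⟩ := hφ r
    exact Or.inr ⟨r, by rw [hr, hs]⟩

/-- comaximality with an intersection -/
lemma exists_comax {κ : Type*} (Q : κ → Ideal R) (hQ : ∀ i, (Q i).IsTwoSided) (J : Ideal R)
    (s : Finset κ) (h : ∀ i ∈ s, J ⊔ Q i = ⊤) :
    ∃ b : R, (∀ i ∈ s, b ∈ Q i) ∧ 1 - b ∈ J := by
  classical
  induction s using Finset.induction_on with
  | empty => exact ⟨1, by simp, by simp⟩
  | insert i s hi ih =>
    obtain ⟨b, hb1, hb2⟩ := ih (fun j hj => h j (Finset.mem_insert_of_mem hj))
    have h1 : (1 : R) ∈ J ⊔ Q i := by rw [h i (Finset.mem_insert_self i s)]; trivial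
    obtain ⟨c, hc, d, hd, hcd⟩ := Submodule.mem_sup.1 h1
    refine ⟨d * b, ?_, ?_⟩
    · intro j hj
      rcases Finset.mem_insert.1 hj with rfl | hj
      · exact (hQ j).mul_mem_of_left b hd
      · exact (Q j).mul_mem_left d (hb1 j hj)
    · have : 1 - d * b = c + d * (1 - b) := by
        rw [mul_sub, mul_one, ← add_sub_assoc, hcd]
      rw [this]
      exact J.add_mem hc (J.mul_mem_left d hb2)

/-- a uniform module killed by the intersection of pairwise comaximal ideals is killed by one
of them -/
lemma killed_by_one {κ : Type} (Q : κ → Ideal R) (hQ : ∀ i, (Q i).IsTwoSided)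
    {X : Type u} [AddCommGroup X] [Module R X] (hX : Unif R X) (s : Finset κ) (hs : s.Nonempty)
    (hco : ∀ i ∈ s, ∀ j ∈ s, i ≠ j → Q i ⊔ Q j = ⊤)
    (hk : ∀ r : R, (∀ i ∈ s, r ∈ Q i) → ∀ x : X, r • x = 0) :
    ∃ i ∈ s, ∀ r ∈ Q i, ∀ x : X, r • x = 0 := by
  classical
  induction hs using Finset.Nonempty.cons_induction with
  | singleton a => exact ⟨a, by simp, fun r hr => hk r (by simpa using hr)⟩
  | cons a s ha hs ih =>
    by_cases h1 : ∀ r ∈ Q a, ∀ x : X, r • x = 0
    · exact ⟨a, by simp, h1⟩
    push Not at h1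
    obtain ⟨r0, hr0, x0, hx0⟩ := h1
    obtain ⟨b, hb1, hb2⟩ := exists_comax Q hQ (Q a) s (fun i hi =>
      hco a (by simp) i (by simp [hi]) (fun h => ha (h ▸ hi)))
    have hB : ∀ r : R, (∀ i ∈ s, r ∈ Q i) → ∀ x : X, r • x = 0 := by
      intro c hc x
      by_contra hne
      obtain ⟨p, q, hpq, h0⟩ := hX _ _ hx0 hne
      apply h0
      have e1 : b • (p • (r0 • x0)) = 0 := by
        rw [← mul_smul, ← mul_smul]
        apply hk
        intro i hi
        rcases Finset.mem_cons.1 hi with rfl | hi
        · exact (Q i).mul_mem_left _ hr0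
        · exact (hQ i).mul_mem_of_left r0 ((hQ i).mul_mem_of_left p (hb1 i hi))
      have e2 : (1 - b) • (p • (r0 • x0)) = 0 := by
        rw [hpq, ← mul_smul, ← mul_smul]
        apply hk
        intro i hi
        rcases Finset.mem_cons.1 hi with rfl | hi
        · exact (hQ i).mul_mem_of_left c ((hQ i).mul_mem_of_left q hb2)
        · exact (Q i).mul_mem_left _ (hc i hi)
      rw [sub_smul, one_smul, e1, sub_zero] at e2
      exact e2
    obtain ⟨i, hi, hik⟩ := ih (fun i hi j hj hij => hco i (by simp [hi]) j (by simp [hj]) hij) hB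
    exact ⟨i, by simp [hi], hik⟩

/-- the elements killed by `N` -/
def annSub (N : Ideal R) (hN : N.IsTwoSided) (U : Type u) [AddCommGroup U] [Module R U] :
    Submodule R U where
  carrier := {x | ∀ n ∈ N, n • x = 0}
  add_mem' := by
    intro x y hx hy n hn
    rw [smul_add, hx n hn, hy n hn, add_zero]
  zero_mem' := by
    intro n _
    rw [smul_zero]
  smul_mem' := by
    intro r x hx n hn
    rw [← mul_smul]
    exact hx _ (hN.mul_mem_of_left r hn)

lemma mem_annSub {N : Ideal R} {hN : N.IsTwoSided} {U : Type u} [AddCommGroup U] [Module R U]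
    {x : U} : x ∈ annSub N hN U ↔ ∀ n ∈ N, n • x = 0 := Iff.rfl

/-- the case when `N` is absorbed -/
lemma killed_of_absorb {N P : Ideal R} (hN : N.IsTwoSided) (hNP : N ≤ P * N)
    {U : Type u} [AddCommGroup U] [Module R U] (hP : ∀ p ∈ P, ∀ x ∈ annSub N hN U, p • x = 0)
    (e : ℕ) : ∀ x : U, (∀ a ∈ N ^ (e + 1), a • x = 0) → ∀ n ∈ N, n • x = 0 := by
  induction e with
  | zero =>
    intro x hx n hn
    apply hx
    rw [zero_add, Submodule.pow_one]
    exact hn
  | succ e ih =>
    intro x hx n hn
    have h1 : ∀ n ∈ N, n • x ∈ annSub N hN U := by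
      intro n hn
      rw [mem_annSub]
      apply ih
      intro a ha
      rw [← mul_smul]
      apply hx
      rw [Submodule.pow_succ]
      exact Ideal.mul_mem_mul ha hn
    have h2 : ∀ r ∈ P * N, r • x = 0 := by
      intro r hr
      refine Submodule.mul_induction_on hr ?_ ?_
      · intro p hp m hm
        rw [mul_smul]
        exact hP p hp _ (h1 m hm)
      · intro a b ha hb
        rw [add_smul, ha, hb, add_zero]
    exact h2 n (hNP hn)

/-- uniform module over a semisimple quotient is simple -/
lemma simple_of_unif {A : Ideal R} (hA : IsSemisimpleModule R (R ⧸ A))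
    {X : Type u} [AddCommGroup X] [Module R X] (hX : Unif R X) (hk : ∀ r ∈ A, ∀ x : X, r • x = 0) :
    ∀ x y : X, y ≠ 0 → ∃ r : R, x = r • y := by
  intro x y hy
  by_cases hx : x = 0
  · exact ⟨0, by rw [hx, zero_smul]⟩
  have hle : A ≤ LinearMap.ker (LinearMap.toSpanSingleton R X x) := by
    intro r hr
    rw [LinearMap.mem_ker, LinearMap.toSpanSingleton_apply]
    exact hk r hr x
  let f : (R ⧸ A) →ₗ[R] X := A.liftQ (LinearMap.toSpanSingleton R X x) hle
  have hf1 : x ∈ LinearMap.range f := ⟨Submodule.Quotient.mk 1, by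
    change A.liftQ (LinearMap.toSpanSingleton R X x) hle (Submodule.Quotient.mk 1) = x
    rw [Submodule.liftQ_apply, LinearMap.toSpanSingleton_apply, one_smul]⟩
  have hss : IsSemisimpleModule R (LinearMap.range f) :=
    IsSemisimpleModule.of_surjective f.rangeRestrict f.surjective_rangeRestrict
  have hU : Unif R (LinearMap.range f) :=
    hX.of_injective _ (Submodule.injective_subtype _)
  -- the submodule L = range f ∩ R y
  let L : Submodule R (LinearMap.range f) := (Submodule.span R {y}).comap (Submodule.subtype _)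
  obtain ⟨L', hL'⟩ := exists_isCompl L
  have hL : L ≠ ⊥ := by
    obtain ⟨a, b, hab, h0⟩ := hX x y hx hy
    refine (Submodule.ne_bot_iff L).2 ⟨⟨a • x, (LinearMap.range f).smul_mem a hf1⟩, ?_, ?_⟩
    · change a • x ∈ Submodule.span R {y}
      rw [hab]
      exact Submodule.mem_span_singleton.2 ⟨b, rfl⟩
    · intro h
      exact h0 (congrArg Subtype.val h)
  have hL'bot : L' = ⊥ := by
    by_contra hne
    exact hU.inf_ne_bot hL hne hL'.disjoint.eq_bot
  have hLtop : L = ⊤ := by
    have := hL'.codisjoint.eq_top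
    rwa [hL'bot, sup_bot_eq] at this
  have hxL : (⟨x, hf1⟩ : LinearMap.range f) ∈ L := by rw [hLtop]; trivial
  obtain ⟨r, hr⟩ := Submodule.mem_span_singleton.1 (show x ∈ Submodule.span R {y} from hxL)
  exact ⟨r, hr.symm⟩

/-- a multiple outside `U₁` all of whose `N`-multiples are in `U₁` -/
lemma exists_second {N : Ideal R} (hN : N.IsTwoSided) {U : Type u} [AddCommGroup U] [Module R U]
    (e : ℕ) : ∀ x : U, (∀ a ∈ N ^ (e + 1), a • x = 0) → x ∉ annSub N hN U →
      ∃ a : R, a • x ∉ annSub N hN U ∧ ∀ n ∈ N, n • a • x ∈ annSub N hN U := by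
  induction e with
  | zero =>
    intro x hx hxn
    exact absurd (fun n hn => hx n (by rw [zero_add, Submodule.pow_one]; exact hn)) hxn
  | succ e ih =>
    intro x hx hxn
    by_cases h : ∀ n ∈ N, n • x ∈ annSub N hN U
    · exact ⟨1, by rwa [one_smul], fun n hn => by rw [one_smul]; exact h n hn⟩
    · push Not at h
      obtain ⟨n, hn, hnx⟩ := h
      obtain ⟨a, ha1, ha2⟩ := ih (n • x) (fun a ha => by
        rw [← mul_smul]
        apply hx
        rw [Submodule.pow_succ]
        exact Ideal.mul_mem_mul ha hn) hnx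
      refine ⟨a * n, ?_, ?_⟩
      · rw [mul_smul]; exact ha1
      · intro m hm
        rw [mul_smul]; exact ha2 m hm

/-- uniseriality of the maps from `N` to a module -/
def HomUser (N : Ideal R) (S : Type u) [AddCommGroup S] [Module R S] : Prop :=
  ∀ φ ψ : N →ₗ[R] S, (∃ r : R, ∀ a b : N, (b : R) = a * r → φ a = ψ b) ∨
    (∃ r : R, ∀ a b : N, (b : R) = a * r → ψ a = φ b)

/-- a uniform module is uniserial, or its part killed by `N` is killed by `A` -/
lemma dich {N A : Ideal R} (hN : N.IsTwoSided) (hA : A.IsTwoSided)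
    {m : ℕ} (P : Fin m → Ideal R)
    (hP : ∀ i, (P i).IsTwoSided) (hAP : ∀ i, A ⊔ P i = ⊤) (hPP : ∀ i j, i ≠ j → P i ⊔ P j = ⊤)
    (hNdef : N = A ⊓ ⨅ i, P i)
    (hPN : ∀ i, N ≤ P i * N)
    (hred : ∀ i, ∀ (U : Type u) [AddCommGroup U] [Module R U], Unif R U →
      (∀ r ∈ P i, ∀ x : U, r • x = 0) → User R U)
    (e : ℕ) (U : Type u) [AddCommGroup U] [Module R U] (hU : Unif R U)
    (hk : ∀ a ∈ N ^ (e + 1), ∀ x : U, a • x = 0) :
    User R U ∨ ∀ r ∈ A, ∀ x ∈ annSub N hN U, r • x = 0 := by
  classical
  let Q : Option (Fin m) → Ideal R := fun o => o.elim A P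
  have hQ : ∀ o, (Q o).IsTwoSided := by
    rintro (_ | i)
    · exact hA
    · exact hP i
  have hX : Unif R (annSub N hN U) := hU.of_injective _ (Submodule.injective_subtype _)
  obtain ⟨o, -, ho⟩ := killed_by_one Q hQ hX Finset.univ ⟨none, Finset.mem_univ _⟩ (by
      rintro (_ | i) _ (_ | j) _ hij
      · exact absurd rfl hij
      · exact hAP j
      · change P i ⊔ A = ⊤
        rw [sup_comm]; exact hAP i
      · exact hPP i j (fun h => hij (by rw [h]))) (by
      intro r hr x
      have hrN : r ∈ N := by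
        rw [hNdef]
        refine ⟨hr none (Finset.mem_univ _), ?_⟩
        change r ∈ ⨅ i, P i
        rw [Submodule.mem_iInf]
        intro i
        exact hr (some i) (Finset.mem_univ _)
      exact Subtype.ext (x.2 r hrN))
  cases o with
  | none =>
    right
    intro r hr x hx
    exact congrArg Subtype.val (ho r hr ⟨x, hx⟩)
  | some i =>
    left
    have h1 : ∀ p ∈ P i, ∀ x ∈ annSub N hN U, p • x = 0 := fun p hp x hx =>
      congrArg Subtype.val (ho p hp ⟨x, hx⟩)
    have h2 := killed_of_absorb hN (hPN i) h1 e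
    apply hred i U hU
    intro r hr x
    exact h1 r hr x (fun n hn => h2 x (fun a ha => hk a ha x) n hn)

/-- the main induction: uniform modules are uniserial -/
lemma user_of_unif_struct {N A : Ideal R} (hN : N.IsTwoSided) (hA : A.IsTwoSided)
    {m : ℕ} (P : Fin m → Ideal R)
    (hP : ∀ i, (P i).IsTwoSided) (hAP : ∀ i, A ⊔ P i = ⊤) (hPP : ∀ i j, i ≠ j → P i ⊔ P j = ⊤)
    (hNdef : N = A ⊓ ⨅ i, P i)
    (hss : IsSemisimpleModule R (R ⧸ A))
    (hPN : ∀ i, N ≤ P i * N)
    (hred : ∀ i, ∀ (U : Type u) [AddCommGroup U] [Module R U], Unif R U →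
      (∀ r ∈ P i, ∀ x : U, r • x = 0) → User R U)
    (hhom : ∀ (S : Type u) [AddCommGroup S] [Module R S], IsSimpleModule R S → HomUser N S)
    (e : ℕ) : ∀ (U : Type u) [AddCommGroup U] [Module R U], Unif R U →
      (∀ a ∈ N ^ (e + 1), ∀ x : U, a • x = 0) → User R U := by
  classical
  induction e with
  | zero =>
    intro U _ _ hU hk
    rcases dich hN hA P hP hAP hPP hNdef hPN hred 0 U hU hk with h | h
    · exact h
    · have hall : ∀ x : U, x ∈ annSub N hN U := fun x n hn =>
        hk n (by rw [zero_add, Submodule.pow_one]; exact hn) x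
      intro x y
      by_cases hy : y = 0
      · right; exact ⟨0, by rw [hy, zero_smul]⟩
      · left
        exact simple_of_unif hss hU (fun r hr x => h r hr x (hall x)) x y hy
  | succ e ih =>
    intro U _ _ hU hk
    rcases dich hN hA P hP hAP hPP hNdef hPN hred (e + 1) U hU hk with h | h
    · exact h
    set S := annSub N hN U with hS
    have hSU : Unif R S := hU.of_injective _ (Submodule.injective_subtype _)
    have hsimp : ∀ x y : S, y ≠ 0 → ∃ r : R, x = r • y :=
      simple_of_unif hss hSU (fun r hr x => Subtype.ext (h r hr x x.2))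
    by_cases htriv : ∀ x : U, x = 0
    · intro x y
      exact Or.inl ⟨0, by rw [htriv x, zero_smul]⟩
    push Not at htriv
    obtain ⟨x0, hx0⟩ := htriv
    -- S nonzero
    have hSne : ∃ s : S, s ≠ 0 := by
      by_contra hcon
      push Not at hcon
      have : ∀ e, ∀ x : U, (∀ a ∈ N ^ (e + 1), a • x = 0) → x = 0 := by
        intro e
        induction e with
        | zero =>
          intro x hx
          have := hcon ⟨x, fun n hn => hx n (by rw [zero_add, Submodule.pow_one]; exact hn)⟩
          exact congrArg Subtype.val this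
        | succ e ihe =>
          intro x hx
          have h1 : ∀ n ∈ N, n • x = 0 := by
            intro n hn
            apply ihe
            intro a ha
            rw [← mul_smul]
            apply hx
            rw [Submodule.pow_succ]
            exact Ideal.mul_mem_mul ha hn
          exact congrArg Subtype.val (hcon ⟨x, h1⟩)
      exact hx0 (this (e + 1) x0 (fun a ha => hk a ha x0))
    obtain ⟨s0, hs0⟩ := hSne
    have hSsimple : IsSimpleModule R S := by
      rw [isSimpleModule_iff_toSpanSingleton_surjective]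
      refine ⟨⟨s0, 0, hs0⟩, fun y hy x => ?_⟩
      obtain ⟨r, hr⟩ := hsimp x y hy
      exact ⟨r, by rw [LinearMap.toSpanSingleton_apply, hr]⟩
    have hH := hhom S hSsimple
    have hmk : ∀ z : U, S.mkQ z = 0 ↔ z ∈ S := fun z => by
      rw [Submodule.mkQ_apply, Submodule.Quotient.mk_eq_zero]
    -- the quotient is uniform
    have hquot : Unif R (U ⧸ S) := by
      intro xq yq hxq hyq
      obtain ⟨x, rfl⟩ := S.mkQ_surjective xq
      obtain ⟨y, rfl⟩ := S.mkQ_surjective yq
      have hx : x ∉ S := fun h => hxq ((hmk _).2 h)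
      have hy : y ∉ S := fun h => hyq ((hmk _).2 h)
      obtain ⟨a, ha1, ha2⟩ := exists_second hN (e + 1) x (fun a ha => hk a ha x) hx
      obtain ⟨b, hb1, hb2⟩ := exists_second hN (e + 1) y (fun a ha => hk a ha y) hy
      let φ : N →ₗ[R] S :=
        ((LinearMap.toSpanSingleton R U (a • x)).comp N.subtype).codRestrict S
          (fun n => ha2 n n.2)
      let ψ : N →ₗ[R] S :=
        ((LinearMap.toSpanSingleton R U (b • y)).comp N.subtype).codRestrict S
          (fun n => hb2 n n.2)
      have hφ : ∀ n : N, ((φ n : S) : U) = (n : R) • a • x := fun n => rfl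
      have hψ : ∀ n : N, ((ψ n : S) : U) = (n : R) • b • y := fun n => rfl
      rcases hH φ ψ with ⟨r, hr⟩ | ⟨r, hr⟩
      · have hmem : a • x - r • b • y ∈ S := by
          intro n hn
          rw [smul_sub, sub_eq_zero]
          have := congrArg Subtype.val (hr ⟨n, hn⟩ ⟨n * r, hN.mul_mem_of_left r hn⟩ rfl)
          rw [hφ, hψ] at this
          change n • a • x = (n * r) • b • y at this
          rw [this, mul_smul]
        refine ⟨a, r * b, ?_, ?_⟩
        · rw [← map_smul, ← map_smul, ← sub_eq_zero, ← map_sub, mul_smul]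
          exact (hmk _).2 hmem
        · rw [← map_smul]
          intro h0
          exact ha1 ((hmk _).1 h0)
      · have hmem : b • y - r • a • x ∈ S := by
          intro n hn
          rw [smul_sub, sub_eq_zero]
          have := congrArg Subtype.val (hr ⟨n, hn⟩ ⟨n * r, hN.mul_mem_of_left r hn⟩ rfl)
          rw [hφ, hψ] at this
          change n • b • y = (n * r) • a • x at this
          rw [this, mul_smul]
        have heq : S.mkQ ((r * a) • x) = S.mkQ (b • y) := by
          symm
          rw [← sub_eq_zero, ← map_sub, mul_smul]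
          exact (hmk _).2 hmem
        refine ⟨r * a, b, ?_, ?_⟩
        · rw [← map_smul, ← map_smul]
          exact heq
        · rw [← map_smul, heq, map_smul]
          intro h0
          rw [← map_smul] at h0
          exact hb1 ((hmk _).1 h0)
    have hUq : User R (U ⧸ S) := by
      apply ih (U ⧸ S) hquot
      intro a ha xq
      obtain ⟨x, rfl⟩ := S.mkQ_surjective xq
      rw [← map_smul]
      have : a • x ∈ S := by
        intro n hn
        rw [← mul_smul]
        apply hk
        have h3 : N ^ (e + 1 + 1) = N * N ^ (e + 1) := Submodule.pow_succ' N (Nat.succ_ne_zero e)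
        rw [h3]
        exact Ideal.mul_mem_mul hn ha
      exact (hmk _).2 this
    -- elements of S are multiples of every nonzero element
    have hSmul : ∀ s ∈ S, ∀ y : U, y ≠ 0 → ∃ r : R, s = r • y := by
      intro s hs y hy
      by_cases hs0' : s = 0
      · exact ⟨0, by rw [hs0', zero_smul]⟩
      obtain ⟨a, b, hab, h0⟩ := hU s y hs0' hy
      obtain ⟨r, hr⟩ := hsimp ⟨s, hs⟩ ⟨a • s, S.smul_mem a hs⟩
        (fun h => h0 (congrArg Subtype.val h))
      refine ⟨r * b, ?_⟩
      have := congrArg Subtype.val hr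
      change s = r • (a • s) at this
      rw [this, hab, mul_smul]
    intro x y
    by_cases hx : x = 0
    · left; exact ⟨0, by rw [hx, zero_smul]⟩
    by_cases hy : y = 0
    · right; exact ⟨0, by rw [hy, zero_smul]⟩
    rcases hUq (S.mkQ x) (S.mkQ y) with ⟨r, hr⟩ | ⟨r, hr⟩
    · left
      have hmem : x - r • y ∈ S := by
        rw [← map_smul, ← sub_eq_zero, ← map_sub] at hr
        exact (hmk _).1 hr
      obtain ⟨c, hc⟩ := hSmul _ hmem y hy
      exact ⟨c + r, by rw [add_smul, ← hc]; abel⟩
    · right
      have hmem : y - r • x ∈ S := by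
        rw [← map_smul, ← sub_eq_zero, ← map_sub] at hr
        exact (hmk _).1 hr
      obtain ⟨c, hc⟩ := hSmul _ hmem x hx
      exact ⟨c + r, by rw [add_smul, ← hc]; abel⟩

end backward

end Pool.Agent.Helper970.Uni
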