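import Mathlib

/-!
Definitions for the structure theorem on rings whose left modules embed in direct sums of
uniserial modules.
-/

universe u

open scoped DirectSum WithZero

namespace Pool.Agent.Helper970.Uni

/-- A module is uniserial when its submodules are totally ordered by inclusion. -/
def IsUniserial (R : Type u) [Ring R] (M : Type u) [AddCommGroup M] [Module R M] : Prop :=
  ∀ A B : Submodule R M, A ≤ B ∨ B ≤ A

/-- Property (E): every left module embeds in a direct sum of uniserial modules. -/
def HasE (R : Type u) [Ring R] : Prop :=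
  ∀ (M : Type u) [AddCommGroup M] [Module R M],
    ∃ (ι : Type u) (U : ι → Type u) (_ : ∀ i, AddCommGroup (U i)) (_ : ∀ i, Module R (U i)),
      (∀ i, IsUniserial R (U i)) ∧ ∃ f : M →ₗ[R] (⨁ i, U i), Function.Injective f

section order

variable {D : Type u} [DivisionRing D]

lemma mul_lt_one_A {a b : ℤᵐ⁰} (ha : a < 1) (hb : b ≤ 1) : a * b < 1 :=
  lt_of_le_of_lt (mul_le_of_le_one_right' hb) ha

lemma mul_lt_one_B {a b : ℤᵐ⁰} (ha : a ≤ 1) (hb : b < 1) : a * b < 1 :=
  lt_of_le_of_lt (mul_le_of_le_one_left' ha) hb

/-- The ring of all `k × k` matrices over `D` whose entries have value at most `1`, and whose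
`(i,j)` entry has value less than `1` whenever `n i < n j`. -/
def hereditaryOrder (v : Valuation D ℤᵐ⁰) {k : ℕ} (n : Fin k → ℕ) :
    Subring (Matrix (Fin k) (Fin k) D) where
  carrier := {M | ∀ i j, v (M i j) ≤ 1 ∧ (n i < n j → v (M i j) < 1)}
  mul_mem' := by
    intro A B hA hB i j
    rw [Matrix.mul_apply]
    constructor
    · apply v.map_sum_le
      intro l _
      rw [map_mul]
      exact mul_le_one' (hA i l).1 (hB l j).1
    · intro hij
      apply v.map_sum_lt one_ne_zero
      intro l _
      rw [map_mul]
      rcases lt_or_ge (n i) (n l) with h | h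
      · exact mul_lt_one_A ((hA i l).2 h) (hB l j).1
      · exact mul_lt_one_B (hA i l).1 ((hB l j).2 (lt_of_le_of_lt h hij))
  one_mem' := by
    intro i j
    by_cases h : i = j
    · subst h
      simp
    · simp [Matrix.one_apply_ne h]
  add_mem' := by
    intro A B hA hB i j
    rw [Matrix.add_apply]
    exact ⟨v.map_add_le (hA i j).1 (hB i j).1,
      fun h => v.map_add_lt ((hA i j).2 h) ((hB i j).2 h)⟩
  zero_mem' := by
    intro i j
    simp
  neg_mem' := by
    intro A hA i j
    rw [Matrix.neg_apply, v.map_neg]
    exact hA i j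

end order

/-- The ideal `P` is the kernel of a surjective ring homomorphism from `R` onto some
`hereditaryOrder v n` with `v : D → ℤᵐ⁰` surjective (a discrete valuation on a division ring) and
matrices of size `k > 0`; that is, `R / P` is isomorphic to such a ring. -/
def IsOrderKernel {R : Type u} [Ring R] (P : Ideal R) : Prop :=
  ∃ (D : Type u) (_ : DivisionRing D) (v : Valuation D ℤᵐ⁰) (k : ℕ) (n : Fin k → ℕ)
    (φ : R →+* hereditaryOrder v n),
    Function.Surjective v ∧ 0 < k ∧ Function.Surjective φ ∧ RingHom.ker φ = P

/-- Right multiplication by `r` on a two-sided ideal `N`, as an endomorphism of the left module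
`N`. -/
def rightMul {R : Type u} [Ring R] (N : Ideal R) (hN : N.IsTwoSided) (r : R) : N →ₗ[R] N where
  toFun n := ⟨n * r, hN.mul_mem_of_left r n.2⟩
  map_add' a b := Subtype.ext (add_mul (a : R) b r)
  map_smul' c a := Subtype.ext (mul_assoc c (a : R) r)

/-- The left `R`-module structure `(r • f)(n) = f(n * r)` on the left `R`-linear maps from a
two-sided ideal `N` to a left module `S`. -/
@[reducible] def homModule {R : Type u} [Ring R] (N : Ideal R) (hN : N.IsTwoSided) (S : Type u)
    [AddCommGroup S] [Module R S] : Module R (N →ₗ[R] S) where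
  smul r f := f.comp (rightMul N hN r)
  one_smul f := LinearMap.ext fun n => by
    have h : rightMul N hN 1 n = n := Subtype.ext (mul_one (n : R))
    exact congrArg f h
  mul_smul r s f := LinearMap.ext fun n => by
    have h : rightMul N hN (r * s) n = rightMul N hN s (rightMul N hN r n) :=
      Subtype.ext (mul_assoc (n : R) r s).symm
    exact congrArg f h
  smul_zero _ := LinearMap.ext fun _ => rfl
  smul_add _ _ _ := LinearMap.ext fun _ => rfl
  add_smul r s f := LinearMap.ext fun n => by
    have h : rightMul N hN (r + s) n = rightMul N hN r n + rightMul N hN s n :=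
      Subtype.ext (mul_add (n : R) r s)
    exact (congrArg f h).trans (map_add f _ _)
  zero_smul f := LinearMap.ext fun n => by
    have h : rightMul N hN 0 n = 0 := Subtype.ext (mul_zero (n : R))
    exact (congrArg f h).trans (map_zero f)

/-- `Hom_R(N, S)`: the left `R`-linear maps from a two-sided ideal `N` to a left module `S`,
regarded as a left `R`-module by `(r • f)(n) = f(n * r)`. -/
def HomLeft {R : Type u} [Ring R] (N : Ideal R) (_ : N.IsTwoSided) (S : Type u) [AddCommGroup S]
    [Module R S] : Type u := N →ₗ[R] S

instance {R : Type u} [Ring R] (N : Ideal R) (hN : N.IsTwoSided) (S : Type u) [AddCommGroup S]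
    [Module R S] : AddCommGroup (HomLeft N hN S) :=
  inferInstanceAs (AddCommGroup (N →ₗ[R] S))

instance {R : Type u} [Ring R] (N : Ideal R) (hN : N.IsTwoSided) (S : Type u) [AddCommGroup S]
    [Module R S] : Module R (HomLeft N hN S) :=
  homModule N hN S

end Pool.Agent.Helper970.Uni
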