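import Pool.Agent.Helper970.UniB

universe u

open scoped DirectSum

namespace Pool.Agent.Helper970.Uni

variable {R : Type u} [Ring R]

section f1

/-- `HasMaxSep M`: maximal submodules separate points -/
def MaxSep (R : Type u) [Ring R] (M : Type u) [AddCommGroup M] [Module R M] : Prop :=
  ∀ x : M, x ≠ 0 → ∃ K : Submodule R M, IsCoatom K ∧ x ∉ K

lemma simple_of_maxSep {M : Type u} [AddCommGroup M] [Module R M] (hM : MaxSep R M)
    {X : Submodule R M} (hX : User R X) :
    ∀ x ∈ X, ∀ y ∈ X, y ≠ 0 → ∃ r : R, x = r • y := by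
  intro x hx y hy hy0
  obtain ⟨K, hK, hyK⟩ := hM y hy0
  have htop : K ⊔ Submodule.span R {y} = ⊤ := by
    apply hK.2
    refine lt_of_le_of_ne le_sup_left ?_
    intro h
    apply hyK
    rw [h]
    exact Submodule.mem_sup_right (Submodule.mem_span_singleton_self y)
  have hxm : x ∈ K ⊔ Submodule.span R {y} := by rw [htop]; trivial
  obtain ⟨k, hk, z, hz, hkz⟩ := Submodule.mem_sup.1 hxm
  obtain ⟨s, rfl⟩ := Submodule.mem_span_singleton.1 hz
  have hkX : k ∈ X := by
    have : k = x - s • y := by rw [← hkz]; abel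
    rw [this]
    exact X.sub_mem hx (X.smul_mem s hy)
  rcases hX ⟨k, hkX⟩ ⟨y, hy⟩ with ⟨c, hc⟩ | ⟨c, hc⟩
  · have hc' : k = c • y := congrArg Subtype.val hc
    exact ⟨c + s, by rw [add_smul, ← hc', hkz]⟩
  · have hc' : y = c • k := congrArg Subtype.val hc
    exact absurd (by rw [hc']; exact K.smul_mem c hk) hyK

lemma semisimple_of_maxSep [IsNoetherianRing R] (hPU : PU R) {M : Type u} [AddCommGroup M]
    [Module R M] [IsNoetherian R M] (hM : MaxSep R M) : IsSemisimpleModule R M := by
  let S : Set (Submodule R M) := {K | IsSemisimpleModule R K ∧ ∃ C, IsCompl K C}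
  have hS : S.Nonempty := ⟨⊥, by
    have : Subsingleton (⊥ : Submodule R M) := inferInstance
    refine { toComplementedLattice := ⟨fun p => ⟨⊤, ?_, ?_⟩⟩ }
    · rw [disjoint_iff, eq_bot_iff]
      intro x _
      exact Subsingleton.elim _ _
    · rw [codisjoint_iff, eq_top_iff]
      intro x _
      exact Submodule.mem_sup_right trivial, ⊤, isCompl_bot_top⟩
  obtain ⟨K, ⟨hK, C, hKC⟩, hmax⟩ := set_has_maximal_iff_noetherian.2 ‹IsNoetherian R M› S hS
  by_cases hC : C = ⊥
  · have hKtop : K = ⊤ := by
      have := hKC.codisjoint.eq_top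
      rwa [hC, sup_bot_eq] at this
    rw [hKtop] at hK
    exact IsSemisimpleModule.of_surjective (⊤ : Submodule R M).subtype
      (fun x => ⟨⟨x, trivial⟩, rfl⟩)
  · exfalso
    obtain ⟨x, hxC, hx0⟩ := (Submodule.ne_bot_iff C).1 hC
    obtain ⟨L, hLx, hL0, hLU⟩ := exists_unif_in (R := R) hx0
    have hLC : L ≤ C := hLx.trans (by
      rw [Submodule.span_singleton_le_iff_mem]; exact hxC)
    have hLus : User R L := hPU L hLU
    have hsimp := simple_of_maxSep hM hLus
    obtain ⟨y, hyL, hy0⟩ := (Submodule.ne_bot_iff L).1 hL0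
    obtain ⟨m, hm, hym⟩ := hM y hy0
    have hLsimple : IsSimpleModule R L := by
      rw [isSimpleModule_iff_toSpanSingleton_surjective]
      refine ⟨⟨⟨y, hyL⟩, 0, fun h => hy0 (congrArg Subtype.val h)⟩, fun z hz w => ?_⟩
      obtain ⟨r, hr⟩ := hsimp w w.2 z z.2 (fun h => hz (Subtype.ext h))
      exact ⟨r, Subtype.ext (by rw [LinearMap.toSpanSingleton_apply]; exact hr.symm)⟩
    have hLm : ∀ z ∈ L, z ∈ m → z = 0 := by
      intro z hzL hzm
      by_contra hz0
      obtain ⟨r, hr⟩ := hsimp y hyL z hzL hz0
      exact hym (by rw [hr]; exact m.smul_mem r hzm)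
    have htop : m ⊔ L = ⊤ := by
      apply hm.2
      refine lt_of_le_of_ne le_sup_left ?_
      intro h
      apply hym
      rw [h]
      exact Submodule.mem_sup_right hyL
    have hmem : K ⊔ L ∈ S := by
      refine ⟨IsSemisimpleModule.sup hK inferInstance, C ⊓ m, ?_, ?_⟩
      · rw [Submodule.disjoint_def]
        rintro z hz ⟨hzC, hzm⟩
        obtain ⟨k, hk, l, hl, rfl⟩ := Submodule.mem_sup.1 hz
        have hkC : k ∈ C := by
          have : k = (k + l) - l := by abel
          rw [this]
          exact C.sub_mem hzC (hLC hl)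
        have hk0 : k = 0 := (Submodule.disjoint_def.1 hKC.disjoint) k hk hkC
        rw [hk0, zero_add] at hzm ⊢
        exact hLm l hl hzm
      · rw [codisjoint_iff, eq_top_iff]
        intro z _
        have hz1 : z ∈ K ⊔ C := by rw [hKC.codisjoint.eq_top]; trivial
        obtain ⟨k, hk, c, hc, rfl⟩ := Submodule.mem_sup.1 hz1
        have hc1 : c ∈ m ⊔ L := by rw [htop]; trivial
        obtain ⟨d, hd, l, hl, rfl⟩ := Submodule.mem_sup.1 hc1
        have hdC : d ∈ C := by
          have : d = (d + l) - l := by abel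
          rw [this]
          exact C.sub_mem hc (hLC hl)
        have : k + (d + l) = (k + l) + d := by abel
        rw [this]
        exact Submodule.add_mem _ (Submodule.mem_sup_left (Submodule.add_mem _
          (Submodule.mem_sup_left hk) (Submodule.mem_sup_right hl)))
          (Submodule.mem_sup_right ⟨hdC, hd⟩)
    apply hmax _ hmem
    refine lt_of_le_of_ne le_sup_left ?_
    intro h
    have hyK : y ∈ K := by
      rw [h]; exact Submodule.mem_sup_right hyL
    exact hy0 ((Submodule.disjoint_def.1 hKC.disjoint) y hyK (hLC hyL))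

lemma semisimple_quot_jacobson [IsNoetherianRing R] (hPU : PU R) :
    IsSemisimpleModule R (R ⧸ Module.jacobson R R) := by
  apply semisimple_of_maxSep hPU
  intro x hx
  have h := Module.jacobson_quotient_jacobson R R
  by_contra hcon
  push Not at hcon
  have hx' : x ∈ Module.jacobson R (R ⧸ Module.jacobson R R) :=
    Submodule.mem_sInf.2 (fun K hK => hcon K hK)
  rw [h] at hx'
  exact hx ((Submodule.mem_bot R).1 hx')

/-- among countably many simple modules two are isomorphic -/
lemma exists_iso_simple [IsNoetherianRing R] (hPU : PU R) (S : ℕ → Type u)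
    [∀ i, AddCommGroup (S i)] [∀ i, Module R (S i)] (hS : ∀ i, IsSimpleModule R (S i)) :
    ∃ i j, i < j ∧ Nonempty (S i ≃ₗ[R] S j) := by
  classical
  have := semisimple_quot_jacobson (R := R) hPU
  obtain ⟨n, T, e, hT⟩ := IsSemisimpleModule.exists_linearEquiv_fin_dfinsupp R
    (R ⧸ Module.jacobson R R)
  have key : ∀ i, ∃ j : Fin n, Nonempty (T j ≃ₗ[R] S i) := by
    intro i
    have := hS i
    have hnt := IsSimpleModule.nontrivial R (S i)
    obtain ⟨s, hs⟩ := exists_ne (0 : S i)
    have hsurj := (isSimpleModule_iff_toSpanSingleton_surjective.1 (hS i)).2 s hs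
    have hker : Module.jacobson R R ≤ LinearMap.ker (LinearMap.toSpanSingleton R (S i) s) := by
      apply sInf_le
      change IsCoatom _
      rw [← isSimpleModule_iff_isCoatom]
      exact IsSimpleModule.congr (LinearMap.quotKerEquivOfSurjective _ hsurj)
    let f : (R ⧸ Module.jacobson R R) →ₗ[R] S i :=
      (Module.jacobson R R).liftQ (LinearMap.toSpanSingleton R (S i) s) hker
    have hf : f ≠ 0 := by
      intro h
      apply hs
      have h1 : f (Submodule.Quotient.mk 1) = s := by
        change (Module.jacobson R R).liftQ (LinearMap.toSpanSingleton R (S i) s) hker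
          (Submodule.Quotient.mk 1) = s
        rw [Submodule.liftQ_apply, LinearMap.toSpanSingleton_apply, one_smul]
      rw [← h1, h]
      rfl
    have hex : ∃ j : Fin n, (f.comp e.symm.toLinearMap).comp (DFinsupp.lsingle j) ≠ 0 := by
      by_contra hcon
      push Not at hcon
      apply hf
      have h2 : f.comp e.symm.toLinearMap = 0 := by
        apply DFinsupp.lhom_ext'
        intro j
        rw [hcon j]
        rfl
      apply LinearMap.ext
      intro x
      have := LinearMap.congr_fun h2 (e x)
      simpa using this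
    obtain ⟨j, hj⟩ := hex
    have := hT j
    exact ⟨j, ⟨LinearEquiv.ofBijective _ (LinearMap.bijective_of_ne_zero hj)⟩⟩
  choose j hj using key
  obtain ⟨a, b, hab, hjab⟩ := Finite.exists_ne_map_eq_of_infinite j
  obtain ⟨e1⟩ := hj a
  obtain ⟨e2⟩ := hj b
  rcases lt_or_gt_of_ne hab with h | h
  · have e2' : T (j a) ≃ₗ[R] S b := by rw [hjab]; exact e2
    exact ⟨a, b, h, ⟨e1.symm.trans e2'⟩⟩
  · have e1' : T (j b) ≃ₗ[R] S a := by rw [← hjab]; exact e1
    exact ⟨b, a, h, ⟨e2.symm.trans e1'⟩⟩

/-- a non-noetherian uniserial module is injective -/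
lemma injective_of_not_noetherian [IsNoetherianRing R] (hPU : PU R) {F : Type u} [AddCommGroup F]
    [Module R F] (hF : User R F) (hn : ¬ IsNoetherian R F) : Module.Injective R F := by
  obtain ⟨E, _, _, j, hE1, hE2, hE3, -⟩ := exists_unif_hull (R := R) hF.unif
  by_cases hs : Function.Surjective j
  · let e : F ≃ₗ[R] E := LinearEquiv.ofBijective j ⟨hE3, hs⟩
    refine ⟨fun X Y _ _ _ _ f hf g => ?_⟩
    obtain ⟨h, hh⟩ := hE1.out f hf (e.toLinearMap.comp g)
    refine ⟨e.symm.toLinearMap.comp h, fun x => ?_⟩
    rw [LinearMap.comp_apply, hh]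
    simp
  · exfalso
    apply hn
    have hex : ∃ x, x ∉ LinearMap.range j := by
      by_contra hcon
      push Not at hcon
      exact hs hcon
    obtain ⟨x, hx⟩ := hex
    have hle : LinearMap.range j ≤ Submodule.span R {x} := by
      rcases (hPU E hE2).total (LinearMap.range j) (Submodule.span R {x}) with h | h
      · exact h
      · exact absurd (h (Submodule.mem_span_singleton_self x)) hx
    have h1 : IsNoetherian R (Submodule.span R {x}) :=
      isNoetherian_of_fg_of_noetherian _ (Submodule.fg_span_singleton x)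
    have h2 : IsNoetherian R (LinearMap.range j) := isNoetherian_of_le hle
    exact isNoetherian_of_injective (j.rangeRestrict) (by
      intro a b hab
      exact hE3 (congrArg Subtype.val hab))

end f1

end Pool.Agent.Helper970.Uni
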