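import Mathlib

universe u

open scoped WithZero

namespace Pool.Agent.Helper970.Uni

section absval

variable {E : Type u} [DivisionRing E]

/-- abstract data giving a discrete valuation on a division ring -/
structure DV (O : Set E) (π : E) : Prop where
  one : (1 : E) ∈ O
  mul : ∀ a ∈ O, ∀ b ∈ O, a * b ∈ O
  add : ∀ a ∈ O, ∀ b ∈ O, a + b ∈ O
  total : ∀ a, a ≠ 0 → a ∈ O ∨ a⁻¹ ∈ O
  pi0 : π ≠ 0
  pi : π ∈ O
  pi' : π⁻¹ ∉ O
  div : ∀ a, a ≠ 0 → a ∈ O → a⁻¹ ∉ O → π⁻¹ * a ∈ O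
  arch : ∀ d, d ≠ 0 → ∃ m : ℕ, d * π ^ (-(m : ℤ)) ∉ O

variable {O : Set E} {π : E}

namespace DV

variable (h : DV O π)

include h

lemma conjA {g : E} (hg : g ∈ O) : π * g * π⁻¹ ∈ O := by
  by_cases hg0 : g = 0
  · rw [hg0]; simp only [mul_zero, zero_mul]; rw [← hg0]; exact hg
  by_contra hcon
  have hne : π * g * π⁻¹ ≠ 0 := mul_ne_zero (mul_ne_zero h.pi0 hg0) (inv_ne_zero h.pi0)
  have h1 : (π * g * π⁻¹)⁻¹ ∈ O := (h.total _ hne).resolve_left hcon
  have h2 := h.div _ (inv_ne_zero hne) h1 (by rwa [inv_inv])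
  have h3 : π⁻¹ * (π * g * π⁻¹)⁻¹ = g⁻¹ * π⁻¹ := by
    have hp := h.pi0
    rw [mul_inv_rev, mul_inv_rev, inv_inv]
    rw [← mul_assoc, inv_mul_cancel₀ hp, one_mul]
  rw [h3] at h2
  have h4 := h.mul _ hg _ h2
  rw [← mul_assoc, mul_inv_cancel₀ hg0, one_mul] at h4
  exact h.pi' h4

lemma conjB {g : E} (hg : g ∈ O) : π⁻¹ * g * π ∈ O := by
  by_cases hg0 : g = 0
  · rw [hg0]; simp only [mul_zero, zero_mul]; rw [← hg0]; exact hg
  by_contra hcon
  have hne : π⁻¹ * g * π ≠ 0 := mul_ne_zero (mul_ne_zero (inv_ne_zero h.pi0) hg0) h.pi0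
  have h1 : (π⁻¹ * g * π)⁻¹ ∈ O := (h.total _ hne).resolve_left hcon
  have h2 := h.div _ (inv_ne_zero hne) h1 (by rwa [inv_inv])
  have h2' := h.conjA h2
  have h3 : π * (π⁻¹ * (π⁻¹ * g * π)⁻¹) * π⁻¹ = π⁻¹ * g⁻¹ := by
    have hp := h.pi0
    rw [mul_inv_rev, mul_inv_rev, inv_inv, ← mul_assoc π, mul_inv_cancel₀ hp, one_mul, mul_assoc,
      mul_assoc, mul_inv_cancel₀ hp, mul_one]
  rw [h3] at h2'
  have h4 := h.mul _ h2' _ hg
  rw [mul_assoc, inv_mul_cancel₀ hg0, mul_one] at h4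
  exact h.pi' h4

lemma conj_nat (m : ℕ) {g : E} (hg : g ∈ O) :
    π ^ (m : ℤ) * g * π ^ (-(m : ℤ)) ∈ O ∧ π ^ (-(m : ℤ)) * g * π ^ (m : ℤ) ∈ O := by
  have hp := h.pi0
  induction m with
  | zero => simpa using hg
  | succ m ih =>
    have h1 : π ^ ((m + 1 : ℕ) : ℤ) = π * π ^ (m : ℤ) := by
      push_cast
      rw [add_comm, zpow_one_add₀ hp]
    have h1' : π ^ ((m + 1 : ℕ) : ℤ) = π ^ (m : ℤ) * π := by
      push_cast
      rw [zpow_add_one₀ hp]
    have h2 : π ^ (-((m + 1 : ℕ) : ℤ)) = π ^ (-(m : ℤ)) * π⁻¹ := by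
      rw [zpow_neg, zpow_neg, h1, mul_inv_rev]
    have h2' : π ^ (-((m + 1 : ℕ) : ℤ)) = π⁻¹ * π ^ (-(m : ℤ)) := by
      rw [zpow_neg, zpow_neg, h1', mul_inv_rev]
    constructor
    · have := h.conjA ih.1
      rw [h1, h2]
      simpa only [mul_assoc] using this
    · have := h.conjB ih.2
      rw [h1', h2']
      simpa only [mul_assoc] using this

lemma conj (m : ℤ) {g : E} (hg : g ∈ O) : π ^ m * g * π ^ (-m) ∈ O := by
  rcases Int.eq_nat_or_neg m with ⟨k, rfl | rfl⟩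
  · exact (h.conj_nat k hg).1
  · rw [neg_neg]
    exact (h.conj_nat k hg).2

lemma pow_mem (m : ℤ) (hm : 0 ≤ m) : π ^ m ∈ O := by
  obtain ⟨k, rfl⟩ := Int.eq_ofNat_of_zero_le hm
  rw [zpow_natCast]
  induction k with
  | zero => simpa using h.one
  | succ k ih =>
    rw [pow_succ]
    exact h.mul _ (ih (by positivity)) _ h.pi

lemma pow_notMem (m : ℤ) (hm : m < 0) : π ^ m ∉ O := by
  intro hcon
  apply h.pi'
  have h1 := h.mul _ (h.pow_mem (-1 - m) (by linarith)) _ hcon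
  rw [← zpow_add₀ h.pi0] at h1
  have : -1 - m + m = -1 := by ring
  rw [this, zpow_neg_one] at h1
  exact h1

lemma exists_ord {g : E} (hg : g ≠ 0) :
    ∃ m : ℤ, π ^ (-m) * g ∈ O ∧ g⁻¹ * π ^ m ∈ O := by
  have hp := h.pi0
  obtain ⟨m, hm1, hm2⟩ := Int.exists_greatest_of_bdd (P := fun m => π ^ (-m) * g ∈ O) (by
    obtain ⟨b, hb⟩ := h.arch g hg
    refine ⟨b, fun z hz => ?_⟩
    by_contra hcon
    push Not at hcon
    apply hb
    have h1 := h.conj z hz
    have h2 : π ^ z * (π ^ (-z) * g) * π ^ (-z) = g * π ^ (-z) := by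
      rw [← mul_assoc, ← zpow_add₀ hp, add_neg_cancel, zpow_zero, one_mul]
    rw [h2] at h1
    have h3 := h.mul _ h1 _ (h.pow_mem (z - b) (by linarith))
    rw [mul_assoc, ← zpow_add₀ hp] at h3
    have : -z + (z - b) = -(b : ℤ) := by ring
    rwa [this] at h3) (by
    rcases h.total g hg with h1 | h1
    · exact ⟨0, by simpa using h1⟩
    · obtain ⟨b, hb⟩ := h.arch _ (inv_ne_zero hg)
      refine ⟨-b, ?_⟩
      have hne : g⁻¹ * π ^ (-(b : ℤ)) ≠ 0 := mul_ne_zero (inv_ne_zero hg) (zpow_ne_zero _ hp)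
      have h2 := (h.total _ hne).resolve_left hb
      rw [mul_inv_rev, inv_inv, zpow_neg, inv_inv] at h2
      rw [neg_neg]
      exact h2)
  refine ⟨m, hm1, ?_⟩
  by_contra hcon
  have hne : π ^ (-m) * g ≠ 0 := mul_ne_zero (zpow_ne_zero _ hp) hg
  have h1 : (π ^ (-m) * g)⁻¹ ∉ O := by
    rw [mul_inv_rev, zpow_neg, inv_inv]
    exact hcon
  have h2 := h.div _ hne hm1 h1
  have h3 : π⁻¹ * (π ^ (-m) * g) = π ^ (-(m + 1)) * g := by
    rw [← mul_assoc]
    congr 1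
    rw [neg_add, add_comm, zpow_add₀ hp, zpow_neg_one]
  rw [h3] at h2
  have := hm2 (m + 1) h2
  linarith

lemma ord_unique {g : E} {m m' : ℤ} (hg : g ≠ 0) (h1 : π ^ (-m) * g ∈ O ∧ g⁻¹ * π ^ m ∈ O)
    (h2 : π ^ (-m') * g ∈ O ∧ g⁻¹ * π ^ m' ∈ O) : m = m' := by
  have hp := h.pi0
  have key : ∀ a b : ℤ, (π ^ (-a) * g ∈ O) → (g⁻¹ * π ^ b ∈ O) → a ≤ b := by
    intro a b ha hb
    by_contra hcon
    push Not at hcon
    have h3 := h.mul _ ha _ hb
    have h4 : π ^ (-a) * g * (g⁻¹ * π ^ b) = π ^ (b - a) := by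
      rw [mul_assoc, ← mul_assoc g, mul_inv_cancel₀ hg, one_mul, ← zpow_add₀ hp]
      congr 1
      ring
    rw [h4] at h3
    exact h.pow_notMem (b - a) (by linarith) h3
  exact le_antisymm (key _ _ h1.1 h2.2) (key _ _ h2.1 h1.2)

omit h in
open Classical in
/-- the order -/
noncomputable def ord (h : DV O π) (g : E) : ℤ :=
  if hg : g = 0 then 0 else (h.exists_ord hg).choose

lemma ord_spec {g : E} (hg : g ≠ 0) : π ^ (-(h.ord g)) * g ∈ O ∧ g⁻¹ * π ^ (h.ord g) ∈ O := by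
  unfold ord
  rw [dif_neg hg]
  exact (h.exists_ord hg).choose_spec

lemma ord_eq {g : E} (hg : g ≠ 0) {m : ℤ} (h1 : π ^ (-m) * g ∈ O ∧ g⁻¹ * π ^ m ∈ O) :
    h.ord g = m := h.ord_unique hg (h.ord_spec hg) h1

lemma ord_mul {a b : E} (ha : a ≠ 0) (hb : b ≠ 0) : h.ord (a * b) = h.ord a + h.ord b := by
  have hp := h.pi0
  obtain ⟨a1, a2⟩ := h.ord_spec ha
  obtain ⟨b1, b2⟩ := h.ord_spec hb
  set m := h.ord a
  set k := h.ord b
  apply h.ord_eq (mul_ne_zero ha hb)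
  constructor
  · have h1 := h.mul _ (h.conj (-k) a1) _ b1
    rw [neg_neg] at h1
    have h2 : π ^ (-k) * (π ^ (-m) * a) * π ^ k * (π ^ (-k) * b) = π ^ (-(m + k)) * (a * b) := by
      have e1 : π ^ (-(m + k)) = π ^ (-k) * π ^ (-m) := by
        rw [← zpow_add₀ hp]; congr 1; ring
      have e2 : π ^ k * (π ^ (-k) * b) = b := by
        rw [← mul_assoc, ← zpow_add₀ hp, add_neg_cancel, zpow_zero, one_mul]
      rw [mul_assoc, e2, e1]
      simp only [mul_assoc]
    rwa [h2] at h1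
  · have h1 := h.mul _ b2 _ (h.conj (-k) a2)
    rw [neg_neg] at h1
    have h2 : b⁻¹ * π ^ k * (π ^ (-k) * (a⁻¹ * π ^ m) * π ^ k) = (a * b)⁻¹ * π ^ (m + k) := by
      have e1 : π ^ (m + k) = π ^ m * π ^ k := by
        rw [← zpow_add₀ hp]
      have e2 : ∀ z : E, π ^ k * (π ^ (-k) * z) = z := by
        intro z
        rw [← mul_assoc, ← zpow_add₀ hp, add_neg_cancel, zpow_zero, one_mul]
      rw [e1, mul_inv_rev]
      simp only [mul_assoc]
      rw [e2]
    rwa [h2] at h1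

lemma mem_iff {g : E} (hg : g ≠ 0) : g ∈ O ↔ 0 ≤ h.ord g := by
  have hp := h.pi0
  obtain ⟨a1, a2⟩ := h.ord_spec hg
  constructor
  · intro hgO
    by_contra hcon
    push Not at hcon
    have h1 := h.mul _ hgO _ a2
    rw [← mul_assoc, mul_inv_cancel₀ hg, one_mul] at h1
    exact h.pow_notMem _ hcon h1
  · intro h0
    have h1 := h.mul _ (h.pow_mem _ h0) _ a1
    rw [← mul_assoc, ← zpow_add₀ hp, add_neg_cancel, zpow_zero, one_mul] at h1
    exact h1

lemma ord_pi : h.ord π = 1 := by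
  apply h.ord_eq h.pi0
  rw [zpow_neg_one, zpow_one, inv_mul_cancel₀ h.pi0]
  exact ⟨h.one, h.one⟩

lemma ord_zpow (m : ℤ) : h.ord (π ^ m) = m := by
  have hp := h.pi0
  apply h.ord_eq (zpow_ne_zero m hp)
  rw [← zpow_add₀ hp, neg_add_cancel, zpow_zero, inv_mul_cancel₀ (zpow_ne_zero m hp)]
  exact ⟨h.one, h.one⟩

lemma ord_one : h.ord (1 : E) = 0 := by
  have := h.ord_zpow 0
  rwa [zpow_zero] at this

lemma ord_inv {a : E} (ha : a ≠ 0) : h.ord a⁻¹ = - h.ord a := by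
  have h1 := h.ord_mul ha (inv_ne_zero ha)
  rw [mul_inv_cancel₀ ha, h.ord_one] at h1
  linarith

lemma zpow_mul_mem_iff {g : E} (hg : g ≠ 0) (m : ℤ) : π ^ (-m) * g ∈ O ↔ m ≤ h.ord g := by
  have hp := h.pi0
  rw [h.mem_iff (mul_ne_zero (zpow_ne_zero _ hp) hg), h.ord_mul (zpow_ne_zero _ hp) hg,
    h.ord_zpow]
  constructor <;> intro h <;> linarith

lemma ord_add {a b : E} (ha : a ≠ 0) (hb : b ≠ 0) (hab : a + b ≠ 0) :
    min (h.ord a) (h.ord b) ≤ h.ord (a + b) := by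
  rw [← h.zpow_mul_mem_iff hab, mul_add]
  exact h.add _ ((h.zpow_mul_mem_iff ha _).2 (min_le_left _ _)) _
    ((h.zpow_mul_mem_iff hb _).2 (min_le_right _ _))

omit h in
open Classical in
/-- the valuation on the opposite division ring -/
noncomputable def val (h : DV O π) : Valuation Eᵐᵒᵖ ℤᵐ⁰ where
  toFun d := if d.unop = 0 then 0 else WithZero.exp (-(h.ord d.unop))
  map_zero' := by simp
  map_one' := by
    simp [h.ord_one]
  map_mul' := by
    intro a b
    by_cases ha : a.unop = 0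
    · simp [ha]
    by_cases hb : b.unop = 0
    · simp [hb]
    have hab : (a * b).unop ≠ 0 := by
      rw [MulOpposite.unop_mul]; exact mul_ne_zero hb ha
    rw [if_neg ha, if_neg hb, if_neg hab, MulOpposite.unop_mul, h.ord_mul hb ha, ← WithZero.exp_add]
    congr 1
    ring
  map_add_le_max' := by
    intro a b
    by_cases ha : a.unop = 0
    · have : a = 0 := MulOpposite.unop_injective (by simpa using ha)
      subst this
      simp
    by_cases hb : b.unop = 0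
    · have : b = 0 := MulOpposite.unop_injective (by simpa using hb)
      subst this
      simp
    by_cases hab : (a + b).unop = 0
    · rw [if_pos hab]
      exact zero_le
    · rw [if_neg ha, if_neg hb, if_neg hab]
      have h1 := h.ord_add ha hb (by rwa [← MulOpposite.unop_add])
      rw [← MulOpposite.unop_add] at h1
      rcases le_total (h.ord a.unop) (h.ord b.unop) with h2 | h2
      · rw [min_eq_left h2] at h1
        apply le_max_of_le_left
        rw [WithZero.exp_le_exp]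
        linarith
      · rw [min_eq_right h2] at h1
        apply le_max_of_le_right
        rw [WithZero.exp_le_exp]
        linarith

lemma val_op {g : E} (hg : g ≠ 0) : h.val (MulOpposite.op g) = WithZero.exp (-(h.ord g)) := by
  classical
  exact if_neg (by simpa using hg)

lemma val_surjective : Function.Surjective h.val := by
  intro x
  rcases eq_or_ne x 0 with rfl | hx
  · exact ⟨0, map_zero _⟩
  · refine ⟨MulOpposite.op (π ^ (-(WithZero.log x))), ?_⟩
    rw [h.val_op (zpow_ne_zero _ h.pi0), h.ord_zpow, neg_neg, WithZero.exp_log hx]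

lemma val_le_one_iff {g : E} (hg : g ≠ 0) : h.val (MulOpposite.op g) ≤ 1 ↔ 0 ≤ h.ord g := by
  rw [h.val_op hg, ← WithZero.exp_zero, WithZero.exp_le_exp]
  constructor <;> intro h <;> linarith

lemma val_lt_one_iff {g : E} (hg : g ≠ 0) : h.val (MulOpposite.op g) < 1 ↔ 1 ≤ h.ord g := by
  rw [h.val_op hg, ← WithZero.exp_zero, WithZero.exp_lt_exp]
  constructor <;> intro h <;> linarith

end DV

end absval

end Pool.Agent.Helper970.Uni
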