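import Pool.Agent.Helper970.UniE
import Pool.Agent.Helper970.UniF

universe u

open scoped DirectSum Pointwise

set_option linter.unusedSectionVars false

namespace Pool.Agent.Helper970.Uni

section nonsing

variable {R : Type u} [Ring R]

/-- prime ring -/
def PrimeR (R : Type u) [Ring R] : Prop :=
  Nontrivial R ∧ ∀ a b : R, (∀ r, a * r * b = 0) → a = 0 ∨ b = 0

/-- singular elements -/
def Sing (R : Type u) [Ring R] {M : Type u} [AddCommGroup M] [Module R M] (v : M) : Prop :=
  ∀ a : R, a ≠ 0 → ∃ b : R, b * a ≠ 0 ∧ (b * a) • v = 0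

lemma Sing.smul {M : Type u} [AddCommGroup M] [Module R M] {v : M} (h : Sing R v) (r : R) :
    Sing R (r • v) := by
  intro a ha
  by_cases har : a * r = 0
  · exact ⟨1, by rwa [one_mul], by rw [one_mul, ← mul_smul, har, zero_smul]⟩
  · obtain ⟨b, hb1, hb2⟩ := h (a * r) har
    refine ⟨b, ?_, ?_⟩
    · intro h0
      apply hb1
      rw [← mul_assoc, h0, zero_mul]
    · rw [← mul_smul, mul_assoc]
      exact hb2

lemma prime_nonsing [IsNoetherianRing R] (hP : PrimeR R) : ∀ x : R, Sing R x → x = 0 := by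
  by_contra hcon
  push Not at hcon
  obtain ⟨x, hx, hx0⟩ := hcon
  let S : Set (Submodule R R) :=
    {K | ∃ y : R, Sing R y ∧ y ≠ 0 ∧ K = LinearMap.ker (LinearMap.toSpanSingleton R R y)}
  have hS : S.Nonempty := ⟨_, x, hx, hx0, rfl⟩
  obtain ⟨K, ⟨a, ha, ha0, rfl⟩, hmax⟩ :=
    set_has_maximal_iff_noetherian.2 (inferInstance : IsNoetherian R R) S hS
  have hker : ∀ y z : R, z ∈ LinearMap.ker (LinearMap.toSpanSingleton R R y) ↔ z * y = 0 := by
    intro y z
    rw [LinearMap.mem_ker, LinearMap.toSpanSingleton_apply, smul_eq_mul]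
  have hall : ∀ r, a * r * a = 0 := by
    intro r
    by_contra hc
    have hcS : Sing R (a * r * a) := by
      intro d hd
      obtain ⟨b, hb1, hb2⟩ := ha d hd
      refine ⟨b, hb1, ?_⟩
      rw [smul_eq_mul] at hb2 ⊢
      rw [mul_assoc a, ← mul_assoc, hb2, zero_mul]
    have hle : LinearMap.ker (LinearMap.toSpanSingleton R R a)
        ≤ LinearMap.ker (LinearMap.toSpanSingleton R R (a * r * a)) := by
      intro z hz
      rw [hker] at hz ⊢
      rw [mul_assoc a, ← mul_assoc, hz, zero_mul]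
    have heq : ¬ LinearMap.ker (LinearMap.toSpanSingleton R R a)
        < LinearMap.ker (LinearMap.toSpanSingleton R R (a * r * a)) := by
      have := hmax _ (⟨_, hcS, hc, rfl⟩ :
        LinearMap.ker (LinearMap.toSpanSingleton R R (a * r * a)) ∈ S)
      simpa using this
    have heq2 : LinearMap.ker (LinearMap.toSpanSingleton R R a)
        = LinearMap.ker (LinearMap.toSpanSingleton R R (a * r * a)) := by
      by_contra hne
      exact heq (lt_of_le_of_ne hle hne)
    have h1 : Sing R (r • a) := ha.smul r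
    obtain ⟨b, hb1, hb2⟩ := h1 a ha0
    apply hb1
    rw [← hker, heq2, hker]
    rw [smul_eq_mul, smul_eq_mul] at hb2
    rw [← mul_assoc, ← mul_assoc]
    rw [← mul_assoc] at hb2
    exact hb2
  rcases hP.2 a a hall with h | h <;> exact ha0 h

/-- nonzero maps from uniform modules to nonsingular ones are injective -/
lemma inj_of_nonsing {X W : Type u} [AddCommGroup X] [Module R X] [AddCommGroup W] [Module R W]
    (hX : Unif R X) (hW : ∀ w : W, Sing R w → w = 0) (f : X →ₗ[R] W) (hf : f ≠ 0) :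
    Function.Injective f := by
  rw [injective_iff_map_eq_zero]
  intro y hy
  by_contra hy0
  apply hf
  ext x
  rw [LinearMap.zero_apply]
  apply hW
  intro a ha
  by_cases hax : a • x = 0
  · exact ⟨1, by rwa [one_mul], by rw [one_mul, ← map_smul, hax, map_zero]⟩
  · obtain ⟨b, c, hbc, h0⟩ := hX (a • x) y hax hy0
    refine ⟨b, ?_, ?_⟩
    · intro h
      apply h0
      rw [← mul_smul, h, zero_smul]
    · rw [← map_smul, mul_smul, hbc, map_smul, hy, smul_zero]

end nonsing

/-- the working setup for the prime case -/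
structure Setup (R : Type u) [Ring R] (V : Type u) [AddCommGroup V] [Module R V] (E : Type u)
    [DivisionRing E] [Module E V] [SMulCommClass E R V] (I : Ideal R) (j : I →ₗ[R] V) :
    Prop where
  prime : PrimeR R
  pu : PU R
  inj : Module.Injective R V
  user : User R V
  jinj : Function.Injective j
  Ine : ∃ a : I, a ≠ 0
  nons : ∀ v : V, Sing R v → v = 0
  endo : ∀ f : V →ₗ[R] V, ∃ e : E, ∀ v, f v = e • v

section chains

variable {R : Type u} [Ring R] {V : Type u} [AddCommGroup V] [Module R V]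

lemma no_chain {X : Submodule R V} (hX : IsNoetherian R X) (f : ℕ → Submodule R V)
    (hf : ∀ n, f n < f (n + 1)) (hfX : ∀ n, f n ≤ X) : False := by
  have h1 : StrictMono f := strictMono_nat_of_lt_succ hf
  have h2 : StrictMono (fun n => (f n).comap X.subtype) := by
    intro a b hab
    refine lt_of_le_of_ne (Submodule.comap_mono (h1 hab).le) ?_
    intro h
    have h3 := congrArg (Submodule.map X.subtype) h
    simp only [Submodule.map_comap_subtype] at h3
    rw [inf_eq_right.2 (hfX a), inf_eq_right.2 (hfX b)] at h3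
    exact (h1 hab).ne h3
  exact not_strictMono_of_wellFoundedGT _ h2

lemma exists_max_below {X : Submodule R V} (hX : IsNoetherian R X) (S : Set (Submodule R V))
    (hS : S.Nonempty) (hSX : ∀ K ∈ S, K ≤ X) : ∃ K ∈ S, ∀ L ∈ S, ¬ K < L := by
  by_contra hcon
  push Not at hcon
  choose! g hg1 hg2 using hcon
  obtain ⟨K, hK⟩ := hS
  let f : ℕ → Submodule R V := fun n => g^[n] K
  have hfS : ∀ n, f n ∈ S := by
    intro n
    induction n with
    | zero => exact hK
    | succ n ih =>
      change g^[n + 1] K ∈ S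
      rw [Function.iterate_succ_apply']
      exact hg1 _ ih
  apply no_chain hX f
  · intro n
    change g^[n] K < g^[n + 1] K
    rw [Function.iterate_succ_apply']
    exact hg2 _ (hfS n)
  · intro n
    exact hSX _ (hfS n)

end chains

section setup

variable {R : Type u} [Ring R] [IsNoetherianRing R] {V : Type u} [AddCommGroup V] [Module R V]
  {E : Type u} [DivisionRing E] [Module E V] [SMulCommClass E R V] {I : Ideal R} {j : I →ₗ[R] V}

namespace Setup

lemma smul_eq_zero' {e : E} {v : V} (h : e • v = 0) : e = 0 ∨ v = 0 := by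
  by_cases he : e = 0
  · exact Or.inl he
  · right
    have := congrArg (fun w => e⁻¹ • w) h
    simpa [smul_smul, inv_mul_cancel₀ he] using this

lemma smul_le_iff {e : E} (he : e ≠ 0) {X Y : Submodule R V} : e • X ≤ e • Y ↔ X ≤ Y := by
  constructor
  · intro h x hx
    have h1 := h (Submodule.smul_mem_pointwise_smul x e X hx)
    rw [Submodule.mem_smul_pointwise_iff_exists] at h1
    obtain ⟨y, hy, hxy⟩ := h1
    have h2 := congrArg (fun w => e⁻¹ • w) hxy
    simp only [smul_smul, inv_mul_cancel₀ he, one_smul] at h2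
    rw [← h2]
    exact hy
  · intro h x hx
    rw [Submodule.mem_smul_pointwise_iff_exists] at hx ⊢
    obtain ⟨y, hy, hxy⟩ := hx
    exact ⟨y, h hy, hxy⟩

lemma smul_lt_iff {e : E} (he : e ≠ 0) {X Y : Submodule R V} : e • X < e • Y ↔ X < Y := by
  rw [lt_iff_le_not_ge, lt_iff_le_not_ge, smul_le_iff he, smul_le_iff he]

lemma smul_le_iff' {e : E} (he : e ≠ 0) {X Y : Submodule R V} : e • X ≤ Y ↔ X ≤ e⁻¹ • Y := by
  rw [← smul_le_iff (V := V) he (X := X), smul_smul, mul_inv_cancel₀ he, one_smul]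

lemma le_smul_iff' {e : E} (he : e ≠ 0) {X Y : Submodule R V} : X ≤ e • Y ↔ e⁻¹ • X ≤ Y := by
  rw [← smul_le_iff (V := V) he (Y := Y), smul_smul, mul_inv_cancel₀ he, one_smul]

variable (h : Setup R V E I j)

include h

lemma nontrivialV : ∃ v : V, v ≠ 0 := by
  obtain ⟨a, ha⟩ := h.Ine
  exact ⟨j a, fun h0 => ha (h.jinj (by rw [h0, map_zero]))⟩

lemma ext_hom {X : Type u} [AddCommGroup X] [Module R X] (i : X →ₗ[R] V)
    (hi : Function.Injective i) (f : X →ₗ[R] V) : ∃ e : E, ∀ x, f x = e • i x := by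
  obtain ⟨g, hg⟩ := h.inj.out i hi f
  obtain ⟨e, he⟩ := h.endo g
  exact ⟨e, fun x => by rw [← hg, he]⟩

lemma coinit {y : V} (hy : y ≠ 0) :
    ∃ e : E, e ≠ 0 ∧ e • LinearMap.range j ≤ Submodule.span R {y} := by
  obtain ⟨i0, hi0⟩ := h.Ine
  have hj0 : j i0 ≠ 0 := fun h0 => hi0 (h.jinj (by rw [h0, map_zero]))
  obtain ⟨r, c, hrc, h0⟩ := h.user.unif y (j i0) hy hj0
  -- r • y = j (c • i0)
  have ha : (c • i0 : I) ≠ 0 := by
    intro hc
    apply h0
    rw [hrc, ← map_smul, hc, map_zero]
  have ha' : ((c • i0 : I) : R) ≠ 0 := fun h1 => ha (Subtype.ext h1)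
  have hi0' : (i0 : R) ≠ 0 := fun h1 => hi0 (Subtype.ext h1)
  obtain ⟨s, hs⟩ : ∃ s, (i0 : R) * s * ((c • i0 : I) : R) ≠ 0 := by
    by_contra hcon
    push Not at hcon
    rcases h.prime.2 _ _ hcon with h1 | h1
    · exact hi0' h1
    · exact ha' h1
  let f : I →ₗ[R] V := (LinearMap.toSpanSingleton R V ((s * r) • y)).comp I.subtype
  have hf : ∀ i : I, f i = (i : R) • (s * r) • y := fun i => rfl
  obtain ⟨e, he⟩ := h.ext_hom j h.jinj f
  refine ⟨e, ?_, ?_⟩
  · rintro rfl
    have h1 : f i0 = 0 := by rw [he, zero_smul]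
    rw [hf, mul_smul, hrc, ← map_smul, ← map_smul, ← map_smul] at h1
    have h2 : ((i0 : R) • s • c • i0 : I) = 0 := h.jinj (by rw [h1, map_zero])
    apply hs
    have h3 := congrArg Subtype.val h2
    simp only [SetLike.val_smul, smul_eq_mul, ZeroMemClass.coe_zero] at h3
    rw [SetLike.val_smul, smul_eq_mul, mul_assoc]
    exact h3
  · intro x hx
    rw [Submodule.mem_smul_pointwise_iff_exists] at hx
    obtain ⟨_, ⟨i, rfl⟩, rfl⟩ := hx
    rw [← he, hf, ← mul_smul]
    exact Submodule.mem_span_singleton.2 ⟨_, rfl⟩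

lemma noeth_of_notTop {X : Submodule R V} (hX : X ≠ ⊤) : IsNoetherian R X := by
  have hex : ∃ v, v ∉ X := by
    by_contra hcon
    push Not at hcon
    exact hX ((Submodule.eq_top_iff').2 hcon)
  obtain ⟨v, hv⟩ := hex
  have hle : X ≤ Submodule.span R {v} := by
    rcases h.user.total X (Submodule.span R {v}) with h1 | h1
    · exact h1
    · exact absurd (h1 (Submodule.mem_span_singleton_self v)) hv
  have h1 : IsNoetherian R (Submodule.span R {v}) :=
    isNoetherian_of_fg_of_noetherian _ (Submodule.fg_span_singleton v)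
  exact isNoetherian_of_le hle

lemma noeth_X0 : IsNoetherian R (LinearMap.range j) := by
  have : IsNoetherian R I := isNoetherian_submodule' I
  infer_instance

/-- Case A -/
lemma semisimple_of_const (hc : ∀ e : E, e ≠ 0 → e • LinearMap.range j = LinearMap.range j) :
    IsSemisimpleModule R R := by
  -- I is simple
  have hI : ∀ a b : I, b ≠ 0 → ∃ r : R, a = r • b := by
    intro a b hb
    have hjb : j b ≠ 0 := fun h0 => hb (h.jinj (by rw [h0, map_zero]))
    obtain ⟨e, he0, he⟩ := h.coinit hjb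
    rw [hc e he0] at he
    obtain ⟨r, hr⟩ := Submodule.mem_span_singleton.1 (he ⟨a, rfl⟩)
    exact ⟨r, h.jinj (by rw [map_smul, hr])⟩
  have hsimp : IsSimpleModule R I := by
    rw [isSimpleModule_iff_toSpanSingleton_surjective]
    obtain ⟨a, ha⟩ := h.Ine
    refine ⟨⟨a, 0, ha⟩, fun y hy x => ?_⟩
    obtain ⟨r, hr⟩ := hI x y hy
    exact ⟨r, by rw [LinearMap.toSpanSingleton_apply, hr]⟩
  apply semisimple_of_maxSep h.pu
  intro x hx
  obtain ⟨b, hb⟩ := h.Ine
  have hb' : (b : R) ≠ 0 := fun h1 => hb (Subtype.ext h1)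
  obtain ⟨s, hs⟩ : ∃ s, x * s * (b : R) ≠ 0 := by
    by_contra hcon
    push Not at hcon
    rcases h.prime.2 _ _ hcon with h1 | h1
    · exact hx h1
    · exact hb' h1
  have hc0 : (s • b : I) ≠ 0 := by
    intro h0
    apply hs
    have := congrArg Subtype.val h0
    rw [SetLike.val_smul, smul_eq_mul] at this
    rw [mul_assoc, this]
    simp
  refine ⟨LinearMap.ker (LinearMap.toSpanSingleton R I (s • b)), ?_, ?_⟩
  · rw [← isSimpleModule_iff_isCoatom]
    exact IsSimpleModule.congr (LinearMap.quotKerEquivOfSurjective _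
      ((isSimpleModule_iff_toSpanSingleton_surjective.1 hsimp).2 _ hc0))
  · intro hmem
    rw [LinearMap.mem_ker, LinearMap.toSpanSingleton_apply] at hmem
    apply hs
    have := congrArg Subtype.val hmem
    rw [SetLike.val_smul, SetLike.val_smul, smul_eq_mul, smul_eq_mul] at this
    rw [mul_assoc, this]
    simp

/-- the set of endomorphisms preserving the base submodule -/
def O (_ : Setup R V E I j) : Set E := {e | ∀ x ∈ LinearMap.range j, e • x ∈ LinearMap.range j}

omit [IsNoetherianRing R] in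
lemma mem_O_iff {e : E} : e ∈ h.O ↔ e • LinearMap.range j ≤ LinearMap.range j := by
  constructor
  · intro he x hx
    rw [Submodule.mem_smul_pointwise_iff_exists] at hx
    obtain ⟨y, hy, rfl⟩ := hx
    exact he y hy
  · intro he x hx
    exact he (Submodule.smul_mem_pointwise_smul x e _ hx)

/-- Case B -/
lemma exists_dv (hc : ∃ e : E, e ≠ 0 ∧ e • LinearMap.range j ≠ LinearMap.range j) :
    ∃ π : E, DV h.O π := by
  set X0 := LinearMap.range j with hX0
  have hnoe : IsNoetherian R X0 := h.noeth_X0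
  let S : Set (Submodule R V) := {X | ∃ e : E, e ≠ 0 ∧ X = e • X0 ∧ e • X0 < X0}
  have hS : S.Nonempty := by
    obtain ⟨e, he0, he⟩ := hc
    rcases h.user.total (e • X0) X0 with h1 | h1
    · exact ⟨_, e, he0, rfl, lt_of_le_of_ne h1 he⟩
    · refine ⟨_, e⁻¹, inv_ne_zero he0, rfl, ?_⟩
      have h2 : X0 < e • X0 := lt_of_le_of_ne h1 (Ne.symm he)
      have h3 := (smul_lt_iff (V := V) (R := R) (inv_ne_zero he0)).2 h2
      rwa [smul_smul, inv_mul_cancel₀ he0, one_smul] at h3
  obtain ⟨_, ⟨π, hπ0, rfl, hπ⟩, hmax⟩ := exists_max_below hnoe S hS (by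
    rintro _ ⟨e, -, rfl, he⟩
    exact he.le)
  have hpow : ∀ m : ℕ, π ^ (-(m : ℤ)) • X0 < π ^ (-((m + 1 : ℕ) : ℤ)) • X0 := by
    intro m
    have h1 : π ^ (-(m : ℤ)) = π ^ (-((m + 1 : ℕ) : ℤ)) * π := by
      rw [← zpow_add_one₀ hπ0]
      congr 1
      push_cast
      ring
    rw [h1, mul_smul, smul_lt_iff (zpow_ne_zero _ hπ0)]
    exact hπ
  refine ⟨π, ⟨?_, ?_, ?_, ?_, hπ0, ?_, ?_, ?_, ?_⟩⟩
  · intro x hx
    rwa [one_smul]
  · intro a ha b hb x hx
    rw [mul_smul]
    exact ha _ (hb _ hx)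
  · intro a ha b hb x hx
    rw [add_smul]
    exact Submodule.add_mem _ (ha x hx) (hb x hx)
  · intro a ha
    rw [h.mem_O_iff, h.mem_O_iff]
    rcases h.user.total (a • X0) X0 with h1 | h1
    · exact Or.inl h1
    · right
      rw [smul_le_iff' (inv_ne_zero ha), inv_inv]
      exact h1
  · rw [h.mem_O_iff]
    exact hπ.le
  · rw [h.mem_O_iff, smul_le_iff' (inv_ne_zero hπ0), inv_inv]
    exact not_le_of_gt hπ
  · intro a ha0 ha hai
    rw [h.mem_O_iff] at ha hai ⊢
    rw [smul_le_iff' (inv_ne_zero ha0), inv_inv] at hai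
    have h1 : a • X0 < X0 := lt_of_le_not_ge ha hai
    have h2 := hmax _ ⟨a, ha0, rfl, h1⟩
    rw [mul_smul, smul_le_iff' (inv_ne_zero hπ0), inv_inv]
    rcases h.user.total (a • X0) (π • X0) with h3 | h3
    · exact h3
    · rcases h3.lt_or_eq with h4 | h4
      · exact absurd h4 h2
      · exact h4.ge
  · intro d hd
    by_contra hcon
    push Not at hcon
    apply no_chain hnoe (fun m : ℕ => (d * π ^ (-(m : ℤ))) • X0)
    · intro m
      simp only [mul_smul]
      rw [smul_lt_iff hd]
      exact hpow m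
    · intro m
      exact h.mem_O_iff.1 (hcon m)

end Setup

end setup

end Pool.Agent.Helper970.Uni
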