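import Pool.Agent.Helper970.UniG

universe u

open scoped DirectSum Pointwise

set_option linter.unusedSectionVars false

namespace Pool.Agent.Helper970.Uni

section inj

variable {R : Type u} [Ring R]

lemma injective_of_equiv {M N : Type u} [AddCommGroup M] [Module R M] [AddCommGroup N]
    [Module R N] (e : M ≃ₗ[R] N) (hM : Module.Injective R M) : Module.Injective R N := by
  refine ⟨fun X Y _ _ _ _ f hf g => ?_⟩
  obtain ⟨h, hh⟩ := hM.out f hf (e.symm.toLinearMap.comp g)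
  refine ⟨e.toLinearMap.comp h, fun x => ?_⟩
  rw [LinearMap.comp_apply, hh]
  simp

/-- the greatest proper submodule, when it exists -/
def nxt {V : Type u} [AddCommGroup V] [Module R V] (X : Submodule R V) : Submodule R V :=
  sSup {Y | Y < X}

end inj

section setupB

variable {R : Type u} [Ring R] [IsNoetherianRing R] {V : Type u} [AddCommGroup V] [Module R V]
  {E : Type u} [DivisionRing E] [Module E V] [SMulCommClass E R V] {I : Ideal R} {j : I →ₗ[R] V}

namespace Setup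

variable (h : Setup R V E I j) {π : E} (d : DV h.O π)

include h d

lemma pi_lt : π • LinearMap.range j < LinearMap.range j := by
  have h1 := h.mem_O_iff.1 d.pi
  have h2 := d.pi'
  rw [h.mem_O_iff, smul_le_iff' (inv_ne_zero d.pi0), inv_inv] at h2
  exact lt_of_le_not_ge h1 h2

lemma pow_chain (m : ℕ) :
    π ^ (-(m : ℤ)) • LinearMap.range j < π ^ (-((m + 1 : ℕ) : ℤ)) • LinearMap.range j := by
  have h1 : π ^ (-(m : ℤ)) = π ^ (-((m + 1 : ℕ) : ℤ)) * π := by
    rw [← zpow_add_one₀ d.pi0]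
    congr 1
    push_cast
    ring
  rw [h1, mul_smul, smul_lt_iff (zpow_ne_zero _ d.pi0)]
  exact h.pi_lt d

lemma exhaust {X : Submodule R V} (hX : X ≠ ⊤) : ∃ m : ℕ, X ≤ π ^ (-(m : ℤ)) • LinearMap.range j := by
  by_contra hcon
  push Not at hcon
  have hn := h.noeth_of_notTop hX
  apply no_chain hn (fun m : ℕ => π ^ (-(m : ℤ)) • LinearMap.range j) (h.pow_chain d)
  intro m
  rcases h.user.total X (π ^ (-(m : ℤ)) • LinearMap.range j) with h1 | h1
  · exact absurd h1 (hcon m)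
  · exact h1

lemma smul_range_le_iff {a b : E} (ha : a ≠ 0) (hb : b ≠ 0) :
    a • LinearMap.range j ≤ b • LinearMap.range j ↔ d.ord b ≤ d.ord a := by
  rw [le_smul_iff' hb, smul_smul, ← h.mem_O_iff, d.mem_iff (mul_ne_zero (inv_ne_zero hb) ha),
    d.ord_mul (inv_ne_zero hb) ha, d.ord_inv hb]
  constructor <;> intro h <;> linarith

lemma inner {X : Submodule R V} (hX : X ≠ ⊥) : ∃ m : ℕ, π ^ (m : ℤ) • LinearMap.range j ≤ X := by
  obtain ⟨y, hyX, hy⟩ := (Submodule.ne_bot_iff X).1 hX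
  obtain ⟨e, he0, he⟩ := h.coinit hy
  refine ⟨(d.ord e).toNat, ?_⟩
  refine le_trans ?_ (he.trans (by rw [Submodule.span_singleton_le_iff_mem]; exact hyX))
  rw [h.smul_range_le_iff d (zpow_ne_zero _ d.pi0) he0, d.ord_zpow]
  exact Int.self_le_toNat _

lemma not_noeth : ¬ IsNoetherian R V := by
  intro hn
  have : IsNoetherian R (⊤ : Submodule R V) := inferInstance
  exact no_chain this (fun m : ℕ => π ^ (-(m : ℤ)) • LinearMap.range j) (h.pow_chain d)
    (fun m => le_top)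

lemma quot_not_noeth {K : Submodule R V} (hK : K ≠ ⊤) : ¬ IsNoetherian R (V ⧸ K) := by
  intro hn
  have hK2 := h.noeth_of_notTop hK
  apply h.not_noeth d
  exact isNoetherian_of_range_eq_ker K.subtype K.mkQ (by
    rw [Submodule.range_subtype, Submodule.ker_mkQ])

lemma quot_injective (K : Submodule R V) : Module.Injective R (V ⧸ K) := by
  by_cases hK : K = ⊤
  · subst hK
    refine ⟨fun X Y _ _ _ _ f hf g => ⟨0, fun x => ?_⟩⟩
    obtain ⟨v, hv⟩ := Submodule.mkQ_surjective (⊤ : Submodule R V) (g x)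
    rw [← hv, LinearMap.zero_apply, Submodule.mkQ_apply]
    exact ((Submodule.Quotient.mk_eq_zero (⊤ : Submodule R V)).2 (Submodule.mem_top)).symm
  · exact injective_of_not_noetherian h.pu (h.user.quot K) (h.quot_not_noeth d hK)

lemma embed {X : Submodule R V} (hX : X ≠ ⊤) :
    ∃ ι : X →ₗ[R] R, Function.Injective ι := by
  obtain ⟨m, hm⟩ := h.exhaust d hX
  have hp : (π ^ (m : ℤ)) ≠ 0 := zpow_ne_zero _ d.pi0
  have hmem : ∀ x : X, π ^ (m : ℤ) • (x : V) ∈ LinearMap.range j := by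
    intro x
    have h1 := hm x.2
    rw [Submodule.mem_smul_pointwise_iff_exists] at h1
    obtain ⟨y, hy, hxy⟩ := h1
    rw [← hxy, smul_smul, ← zpow_add₀ d.pi0, add_neg_cancel, zpow_zero, one_smul]
    exact hy
  let f : X →ₗ[R] LinearMap.range j :=
    ((DistribSMul.toLinearMap R V (π ^ (m : ℤ))).comp X.subtype).codRestrict _ hmem
  let g : LinearMap.range j ≃ₗ[R] I := (LinearEquiv.ofInjective j h.jinj).symm
  refine ⟨I.subtype.comp (g.toLinearMap.comp f), ?_⟩
  intro x y hxy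
  have h1 : g (f x) = g (f y) := Subtype.ext hxy
  have h2 := g.injective h1
  have h3 : π ^ (m : ℤ) • (x : V) = π ^ (m : ℤ) • (y : V) := congrArg Subtype.val h2
  have h4 := congrArg (fun w => (π ^ (m : ℤ))⁻¹ • w) h3
  simp only [smul_smul, inv_mul_cancel₀ hp, one_smul] at h4
  exact Subtype.ext h4

lemma lift {X : Submodule R V} (hX : X ≠ ⊤) (K : Submodule R V) (f : X →ₗ[R] (V ⧸ K)) :
    ∃ e : E, ∀ x : X, f x = K.mkQ (e • (x : V)) := by
  obtain ⟨ι, hι⟩ := h.embed d hX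
  obtain ⟨g, hg⟩ := (h.quot_injective d K).out ι hι f
  obtain ⟨w, hw⟩ := K.mkQ_surjective (g 1)
  obtain ⟨e, he⟩ := h.ext_hom X.subtype X.injective_subtype
    ((LinearMap.toSpanSingleton R V w).comp ι)
  refine ⟨e, fun x => ?_⟩
  have h1 : ι x • w = e • (x : V) := he x
  rw [← h1, map_smul, hw, ← map_smul, smul_eq_mul, mul_one, hg]

lemma exists_smaller {X : Submodule R V} (hX : X ≠ ⊥) : ∃ Y : Submodule R V, Y ≠ ⊥ ∧ Y < X := by
  obtain ⟨m, hm⟩ := h.inner d hX
  refine ⟨(π ^ (m : ℤ) * π) • LinearMap.range j, ?_, ?_⟩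
  · obtain ⟨i0, hi0⟩ := h.Ine
    intro hbot
    have h1 : (π ^ (m : ℤ) * π) • j i0 ∈ (π ^ (m : ℤ) * π) • LinearMap.range j :=
      Submodule.smul_mem_pointwise_smul _ _ _ ⟨i0, rfl⟩
    rw [hbot, Submodule.mem_bot] at h1
    rcases smul_eq_zero' h1 with h2 | h2
    · exact mul_ne_zero (zpow_ne_zero _ d.pi0) d.pi0 h2
    · exact hi0 (h.jinj (by rw [h2, map_zero]))
  · refine lt_of_lt_of_le ?_ hm
    rw [mul_smul, smul_lt_iff (zpow_ne_zero _ d.pi0)]
    exact h.pi_lt d

omit d in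
lemma nxt_spec {X : Submodule R V} (hX : X ≠ ⊥) (hX' : X ≠ ⊤) :
    nxt X < X ∧ ∀ Y < X, Y ≤ nxt X := by
  obtain ⟨M, hM, hmax⟩ := exists_max_below (h.noeth_of_notTop hX') {Y | Y < X}
    ⟨⊥, bot_lt_iff_ne_bot.2 hX⟩ (fun K hK => hK.le)
  have hle : ∀ Y < X, Y ≤ M := by
    intro Y hY
    rcases h.user.total Y M with h1 | h1
    · exact h1
    · rcases h1.lt_or_eq with h2 | h2
      · exact absurd h2 (hmax Y hY)
      · exact h2.ge
  have heq : nxt X = M := le_antisymm (sSup_le hle) (le_sSup hM)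
  rw [heq]
  exact ⟨hM, hle⟩

lemma nxt_ne_bot {X : Submodule R V} (hX : X ≠ ⊥) (hX' : X ≠ ⊤) : nxt X ≠ ⊥ := by
  obtain ⟨Y, hY, hYX⟩ := h.exists_smaller d hX
  intro h0
  have := (h.nxt_spec hX hX').2 Y hYX
  rw [h0, le_bot_iff] at this
  exact hY this

omit h d in
lemma nxt_smul {e : E} (he : e ≠ 0) (X : Submodule R V) : nxt (e • X) = e • nxt X := by
  apply le_antisymm
  · apply sSup_le
    intro Y hY
    rw [le_smul_iff' he]
    apply le_sSup
    change e⁻¹ • Y < X
    rw [← smul_lt_iff (V := V) (R := R) he, smul_smul, mul_inv_cancel₀ he, one_smul]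
    exact hY
  · rw [smul_le_iff' he]
    apply sSup_le
    intro Y hY
    rw [← smul_le_iff' he]
    apply le_sSup
    exact (smul_lt_iff he).2 hY

lemma X0_ne_top : LinearMap.range j ≠ (⊤ : Submodule R V) := by
  intro htop
  have := h.pow_chain d 0
  simp only [Nat.cast_zero, neg_zero, zpow_zero, one_smul, htop] at this
  exact absurd this not_top_lt

omit d in
lemma X0_ne_bot : LinearMap.range j ≠ (⊥ : Submodule R V) := by
  obtain ⟨i0, hi0⟩ := h.Ine
  intro hbot
  have h1 : j i0 ∈ LinearMap.range j := ⟨i0, rfl⟩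
  rw [hbot, Submodule.mem_bot] at h1
  exact hi0 (h.jinj (by rw [h1, map_zero]))

omit h d in
/-- the descending chain -/
def L (j : I →ₗ[R] V) : ℕ → Submodule R V
  | 0 => LinearMap.range j
  | (n + 1) => nxt (L j n)

lemma L_ne (n : ℕ) : L j n ≠ ⊥ ∧ L j n ≠ ⊤ := by
  induction n with
  | zero => exact ⟨h.X0_ne_bot, h.X0_ne_top d⟩
  | succ n ih =>
    refine ⟨h.nxt_ne_bot d ih.1 ih.2, ?_⟩
    intro htop
    have h1 := (h.nxt_spec ih.1 ih.2).1
    change L j (n + 1) < L j n at h1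
    rw [htop] at h1
    exact absurd h1 not_top_lt

lemma L_lt (n : ℕ) : L j (n + 1) < L j n := (h.nxt_spec (h.L_ne d n).1 (h.L_ne d n).2).1

lemma L_anti : StrictAnti (L j) := strictAnti_nat_of_succ_lt (h.L_lt d)

lemma L_nxt (n : ℕ) {Y : Submodule R V} (hY : Y < L j n) : Y ≤ L j (n + 1) :=
  (h.nxt_spec (h.L_ne d n).1 (h.L_ne d n).2).2 Y hY

omit d in
lemma L_smul_unit {u : E} (hu0 : u ≠ 0) (hu : u ∈ h.O) (hu' : u⁻¹ ∈ h.O) (n : ℕ) :
    u • L j n = L j n := by
  induction n with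
  | zero =>
    apply le_antisymm
    · exact h.mem_O_iff.1 hu
    · have := h.mem_O_iff.1 hu'
      rwa [smul_le_iff' (inv_ne_zero hu0), inv_inv] at this
  | succ n ih =>
    change u • nxt (L j n) = nxt (L j n)
    rw [← nxt_smul hu0, ih]

lemma L_smul {e : E} (he : e ≠ 0) (n : ℕ) : e • L j n = π ^ (d.ord e) • L j n := by
  obtain ⟨h1, h2⟩ := d.ord_spec he
  have hu0 : π ^ (-(d.ord e)) * e ≠ 0 := mul_ne_zero (zpow_ne_zero _ d.pi0) he
  have h2' : (π ^ (-(d.ord e)) * e)⁻¹ ∈ h.O := by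
    rw [mul_inv_rev, zpow_neg, inv_inv]
    exact h2
  have h3 := h.L_smul_unit hu0 h1 h2' n
  conv_rhs => rw [← h3]
  rw [smul_smul, ← mul_assoc, ← zpow_add₀ d.pi0, add_neg_cancel, zpow_zero, one_mul]

lemma L_le_X0 (n : ℕ) : L j n ≤ LinearMap.range j := (h.L_anti d).antitone (Nat.zero_le n)

/-- simple subquotients -/
lemma simple_S (n : ℕ) : IsSimpleModule R ((L j n) ⧸ (L j (n + 1)).comap (L j n).subtype) := by
  rw [isSimpleModule_iff_isCoatom]
  constructor
  · intro htop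
    have h1 := h.L_lt d n
    apply not_le_of_gt h1
    intro x hx
    have : (⟨x, hx⟩ : L j n) ∈ (L j (n + 1)).comap (L j n).subtype := by rw [htop]; trivial
    exact this
  · intro b hb
    have h1 : b.map (L j n).subtype ≤ L j n := by
      rintro _ ⟨x, -, rfl⟩
      exact x.2
    rcases h1.lt_or_eq with h2 | h2
    · exfalso
      have h3 := h.L_nxt d n h2
      apply not_le_of_gt hb
      intro x hx
      exact h3 ⟨x, hx, rfl⟩
    · rw [eq_top_iff]
      intro x _
      have hx : (x : V) ∈ b.map (L j n).subtype := by rw [h2]; exact x.2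
      obtain ⟨y, hy, hxy⟩ := hx
      have : y = x := Subtype.ext hxy
      rwa [← this]

lemma exists_L_eq : ∃ e : E, e ≠ 0 ∧ ∃ k m, k < m ∧ e • L j k = L j m := by
  obtain ⟨k, m, hkm, ⟨σ⟩⟩ := exists_iso_simple h.pu
    (fun n => (L j n) ⧸ (L j (n + 1)).comap (L j n).subtype) (h.simple_S d)
  let q : ((L j m) ⧸ (L j (m + 1)).comap (L j m).subtype) →ₗ[R] (V ⧸ L j (m + 1)) :=
    Submodule.mapQ _ _ (L j m).subtype le_rfl
  have hq : ∀ y : L j m, q (Submodule.Quotient.mk y) = (L j (m + 1)).mkQ (y : V) := fun y => rfl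
  let θ : L j k →ₗ[R] (V ⧸ L j (m + 1)) :=
    q.comp (σ.toLinearMap.comp (Submodule.mkQ _))
  obtain ⟨e, he⟩ := h.lift d (h.L_ne d k).2 (L j (m + 1)) θ
  have hle : e • L j k ≤ L j m := by
    intro x hx
    rw [Submodule.mem_smul_pointwise_iff_exists] at hx
    obtain ⟨x, hx, rfl⟩ := hx
    obtain ⟨y, hy⟩ := Submodule.mkQ_surjective _
      (σ (Submodule.mkQ ((L j (k + 1)).comap (L j k).subtype) ⟨x, hx⟩))
    have h1 : θ ⟨x, hx⟩ = (L j (m + 1)).mkQ (y : V) := by
      change q (σ _) = _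
      rw [← hy]
      exact hq y
    rw [he] at h1
    have h2 : e • x - (y : V) ∈ L j (m + 1) := by
      rw [← sub_eq_zero, ← map_sub] at h1
      exact (Submodule.Quotient.mk_eq_zero _).1 h1
    have h3 : e • x = (e • x - (y : V)) + y := by abel
    rw [h3]
    exact Submodule.add_mem _ ((h.L_lt d m).le h2) y.2
  have hnle : ¬ e • L j k ≤ L j (m + 1) := by
    intro hcon
    -- then θ = 0
    have hθ : ∀ x, θ x = 0 := by
      intro x
      rw [he]
      have := hcon (Submodule.smul_mem_pointwise_smul (x : V) e _ x.2)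
      simpa using this
    have h1 := h.L_lt d m
    apply not_le_of_gt h1
    intro y hy
    obtain ⟨x, hx⟩ := Submodule.mkQ_surjective ((L j (k + 1)).comap (L j k).subtype)
      (σ.symm (Submodule.mkQ ((L j (m + 1)).comap (L j m).subtype) ⟨y, hy⟩))
    have h2 := hθ x
    change q (σ (Submodule.mkQ _ x)) = 0 at h2
    rw [hx, LinearEquiv.apply_symm_apply] at h2
    have h3 := hq ⟨y, hy⟩
    change q (Submodule.mkQ _ ⟨y, hy⟩) = _ at h3
    rw [h2] at h3
    have h4 := h3.symm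
    simpa using h4
  have heq : e • L j k = L j m := by
    rcases hle.lt_or_eq with h1 | h1
    · exact absurd (h.L_nxt d m h1) hnle
    · exact h1
  refine ⟨e, ?_, k, m, hkm, heq⟩
  rintro rfl
  apply hnle
  intro x hx
  rw [Submodule.mem_smul_pointwise_iff_exists] at hx
  obtain ⟨x, hx, rfl⟩ := hx
  rw [zero_smul]
  exact Submodule.zero_mem _

lemma zpow_smul_le {a b : ℤ} : π ^ a • LinearMap.range j ≤ π ^ b • LinearMap.range j ↔ b ≤ a := by
  rw [h.smul_range_le_iff d (zpow_ne_zero _ d.pi0) (zpow_ne_zero _ d.pi0), d.ord_zpow, d.ord_zpow]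

lemma exists_t : ∃ t : ℕ, 0 < t ∧ L j t = π • LinearMap.range j := by
  by_contra hcon
  push Not at hcon
  have hlt : ∀ n, π • LinearMap.range j < L j n := by
    intro n
    induction n with
    | zero => exact h.pi_lt d
    | succ n ih =>
      exact lt_of_le_of_ne (h.L_nxt d n ih) (Ne.symm (hcon (n + 1) (Nat.succ_pos n)))
  obtain ⟨e, he0, k, m, hkm, heq⟩ := h.exists_L_eq d
  rw [h.L_smul d he0] at heq
  set a := d.ord e
  rcases lt_trichotomy a 0 with ha | ha | ha
  · have h1 : L j k = π ^ (-a) • L j m := by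
      rw [← heq, smul_smul, ← zpow_add₀ d.pi0, neg_add_cancel, zpow_zero, one_smul]
    have h2 : π ^ (-a) • L j m ≤ π ^ (-a) • LinearMap.range j :=
      (smul_le_iff (zpow_ne_zero _ d.pi0)).2 (h.L_le_X0 d m)
    have h3 : π ^ (-a) • LinearMap.range j ≤ π ^ (1 : ℤ) • LinearMap.range j := by
      rw [h.zpow_smul_le d]; linarith
    rw [zpow_one] at h3
    rw [← h1] at h2
    exact absurd (h2.trans h3) (not_le_of_gt (hlt k))
  · rw [ha, zpow_zero, one_smul] at heq
    exact (h.L_anti d hkm).ne heq.symm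
  · have h2 : π ^ a • L j k ≤ π ^ a • LinearMap.range j :=
      (smul_le_iff (zpow_ne_zero _ d.pi0)).2 (h.L_le_X0 d k)
    have h3 : π ^ a • LinearMap.range j ≤ π ^ (1 : ℤ) • LinearMap.range j := by
      rw [h.zpow_smul_le d]; linarith
    rw [zpow_one] at h3
    rw [heq] at h2
    exact absurd (h2.trans h3) (not_le_of_gt (hlt m))

/-- classification of the nonzero proper submodules -/
lemma classify {t : ℕ} (ht : L j t = π • LinearMap.range j) {Y : Submodule R V} (hY : Y ≠ ⊥)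
    (hY' : Y ≠ ⊤) : ∃ (a : ℤ) (i : ℕ), i < t ∧ Y = π ^ a • L j i := by
  classical
  obtain ⟨b, hb⟩ := h.inner d hY
  obtain ⟨c, hc⟩ := h.exhaust d hY'
  obtain ⟨a, ha1, ha2⟩ := Int.exists_greatest_of_bdd
    (P := fun a : ℤ => Y ≤ π ^ a • LinearMap.range j) ⟨b, fun z hz => by
      exact (h.zpow_smul_le d).1 (hb.trans hz)⟩ ⟨-(c : ℤ), hc⟩
  have hp : π ^ a ≠ 0 := zpow_ne_zero _ d.pi0
  have hY1 : (π ^ a)⁻¹ • Y ≤ L j 0 := by
    change (π ^ a)⁻¹ • Y ≤ LinearMap.range j
    rw [← le_smul_iff' hp]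
    exact ha1
  have hY2 : ¬ (π ^ a)⁻¹ • Y ≤ L j t := by
    rw [ht, ← le_smul_iff' hp, smul_smul, ← zpow_add_one₀ d.pi0]
    intro hcon
    have := ha2 _ hcon
    linarith
  have hex : ∃ n, ¬ (π ^ a)⁻¹ • Y ≤ L j n := ⟨t, hY2⟩
  have hfind := Nat.find_spec hex
  have hpos : 0 < Nat.find hex := by
    rw [Nat.find_pos]
    exact not_not.2 hY1
  obtain ⟨i, hi⟩ := Nat.exists_eq_succ_of_ne_zero hpos.ne'
  have hilt : i < Nat.find hex := by rw [hi]; exact Nat.lt_succ_self i
  have hmin := Nat.find_min hex hilt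
  rw [not_not] at hmin
  have hit : i < t := lt_of_lt_of_le hilt (Nat.find_min' hex hY2)
  refine ⟨a, i, hit, ?_⟩
  have heq : (π ^ a)⁻¹ • Y = L j i := by
    rcases hmin.lt_or_eq with h1 | h1
    · exfalso
      apply hfind
      rw [hi]
      exact h.L_nxt d i h1
    · exact h1
  rw [← heq, smul_smul, mul_inv_cancel₀ hp, one_smul]

end Setup

end setupB

end Pool.Agent.Helper970.Uni
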