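import Pool.Agent.Helper970.UniH

universe u

open scoped DirectSum Pointwise

set_option linter.unusedSectionVars false

namespace Pool.Agent.Helper970.Uni

section lifts

variable {R : Type u} [Ring R]

/-- maps to quotients lift -/
def Lifts (X W : Type u) [AddCommGroup X] [Module R X] [AddCommGroup W] [Module R W] : Prop :=
  ∀ (K : Submodule R W) (f : X →ₗ[R] (W ⧸ K)), ∃ g : X →ₗ[R] W, ∀ x, f x = K.mkQ (g x)

variable {X : Type u} [AddCommGroup X] [Module R X]

lemma Lifts.prod {W₁ W₂ : Type u} [AddCommGroup W₁] [Module R W₁] [AddCommGroup W₂] [Module R W₂]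
    (h1 : Lifts (R := R) X W₁) (h2 : Lifts (R := R) X W₂) : Lifts (R := R) X (W₁ × W₂) := by
  intro K f
  let q2 : ((W₁ × W₂) ⧸ K) →ₗ[R] (W₂ ⧸ K.map (LinearMap.snd R W₁ W₂)) :=
    Submodule.mapQ K (K.map (LinearMap.snd R W₁ W₂)) (LinearMap.snd R W₁ W₂)
      (Submodule.map_le_iff_le_comap.1 le_rfl)
  obtain ⟨g2, hg2⟩ := h2 (K.map (LinearMap.snd R W₁ W₂)) (q2.comp f)
  let f' : X →ₗ[R] ((W₁ × W₂) ⧸ K) := f - K.mkQ.comp ((LinearMap.inr R W₁ W₂).comp g2)
  have hf' : ∀ x, f' x = f x - K.mkQ (0, g2 x) := fun x => rfl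
  let ι1 : (W₁ ⧸ K.comap (LinearMap.inl R W₁ W₂)) →ₗ[R] ((W₁ × W₂) ⧸ K) :=
    Submodule.mapQ (K.comap (LinearMap.inl R W₁ W₂)) K (LinearMap.inl R W₁ W₂) le_rfl
  have hι1 : Function.Injective ι1 := by
    rw [injective_iff_map_eq_zero]
    intro a ha
    obtain ⟨w, rfl⟩ := Submodule.mkQ_surjective _ a
    have h3 : K.mkQ (w, 0) = 0 := ha
    rw [Submodule.mkQ_apply, Submodule.Quotient.mk_eq_zero] at h3 ⊢
    exact h3
  have hmem : ∀ x, f' x ∈ LinearMap.range ι1 := by
    intro x
    obtain ⟨⟨w1, w2⟩, hw⟩ := Submodule.mkQ_surjective K (f' x)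
    have h3 : q2 (f' x) = 0 := by
      rw [hf', map_sub]
      have := hg2 x
      rw [LinearMap.comp_apply] at this
      rw [this]
      have h4 : q2 (K.mkQ (0, g2 x)) = (K.map (LinearMap.snd R W₁ W₂)).mkQ (g2 x) := rfl
      rw [h4, sub_self]
    rw [← hw] at h3
    have h4 : (K.map (LinearMap.snd R W₁ W₂)).mkQ w2 = 0 := h3
    rw [Submodule.mkQ_apply, Submodule.Quotient.mk_eq_zero] at h4
    obtain ⟨⟨a, b⟩, hab, hb⟩ := h4
    have hb' : b = w2 := hb
    subst hb'
    refine ⟨Submodule.mkQ _ (w1 - a), ?_⟩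
    change K.mkQ (w1 - a, 0) = f' x
    rw [← hw, ← sub_eq_zero, ← map_sub, Submodule.mkQ_apply, Submodule.Quotient.mk_eq_zero]
    have : ((w1 - a, 0) - (w1, b) : W₁ × W₂) = -(a, b) := by
      ext <;> simp
    rw [this]
    exact K.neg_mem hab
  let e1 := LinearEquiv.ofInjective ι1 hι1
  obtain ⟨g1, hg1⟩ := h1 (K.comap (LinearMap.inl R W₁ W₂))
    (e1.symm.toLinearMap.comp (f'.codRestrict (LinearMap.range ι1) hmem))
  refine ⟨g1.prod g2, fun x => ?_⟩
  have h3 : ι1 (Submodule.mkQ _ (g1 x)) = f' x := by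
    rw [← hg1 x]
    have h5 : e1 (e1.symm (f'.codRestrict (LinearMap.range ι1) hmem x))
        = f'.codRestrict (LinearMap.range ι1) hmem x := e1.apply_symm_apply _
    exact congrArg Subtype.val h5
  have h4 : K.mkQ (g1 x, 0) = f' x := h3
  have h5 : ((g1.prod g2) x : W₁ × W₂) = (g1 x, 0) + (0, g2 x) := by
    ext <;> simp
  rw [h5, map_add, h4, hf']
  abel

lemma Lifts.of_equiv {W W' : Type u} [AddCommGroup W] [Module R W] [AddCommGroup W'] [Module R W']
    (e : W ≃ₗ[R] W') (h : Lifts (R := R) X W) : Lifts (R := R) X W' := by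
  intro K f
  let q : (W' ⧸ K) ≃ₗ[R] (W ⧸ K.comap e.toLinearMap) :=
    Submodule.Quotient.equiv K (K.comap e.toLinearMap) e.symm (by
      ext w
      constructor
      · rintro ⟨k, hk, rfl⟩
        change e (e.symm k) ∈ K
        rw [LinearEquiv.apply_symm_apply]
        exact hk
      · intro hw
        exact ⟨e w, hw, e.symm_apply_apply w⟩)
  obtain ⟨g, hg⟩ := h (K.comap e.toLinearMap) (q.toLinearMap.comp f)
  refine ⟨e.toLinearMap.comp g, fun x => ?_⟩
  apply q.injective
  have h1 := hg x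
  rw [LinearMap.comp_apply] at h1
  change q (f x) = q (K.mkQ (e (g x)))
  have h2 : q (K.mkQ (e (g x))) = Submodule.mkQ _ (e.symm (e (g x))) := rfl
  rw [h2, LinearEquiv.symm_apply_apply]
  exact h1

lemma Lifts.pow {V : Type u} [AddCommGroup V] [Module R V] (h : Lifts (R := R) X V) (N : ℕ) :
    Lifts (R := R) X (Fin N → V) := by
  induction N with
  | zero =>
    intro K f
    refine ⟨0, fun x => ?_⟩
    obtain ⟨w, hw⟩ := Submodule.mkQ_surjective K (f x)
    rw [← hw]
    congr 1
    exact Subsingleton.elim _ _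
  | succ N ih =>
    exact (h.prod ih).of_equiv (Fin.consLinearEquiv R (fun _ : Fin (N + 1) => V))

end lifts

section setupI

variable {R : Type u} [Ring R] [IsNoetherianRing R] {V : Type u} [AddCommGroup V] [Module R V]
  {E : Type u} [DivisionRing E] [Module E V] [SMulCommClass E R V] {I : Ideal R} {j : I →ₗ[R] V}

namespace Setup

variable (h : Setup R V E I j) {π : E} (d : DV h.O π)

include h

/-- `R` embeds in a power of `V` -/
lemma exists_embedding_pow : ∃ (N : ℕ) (ε : R →ₗ[R] (Fin N → V)), Function.Injective ε := by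
  have hinj : ∀ N : ℕ, Module.Injective R (Fin N → V) := by
    intro N
    have := h.inj
    infer_instance
  let S : Set (Submodule R R) := {A | ∃ (N : ℕ) (f : A →ₗ[R] (Fin N → V)), Function.Injective f}
  have hS : S.Nonempty := ⟨⊥, 0, 0, fun x y _ => Subsingleton.elim _ _⟩
  obtain ⟨A, ⟨N, f, hf⟩, hmax⟩ :=
    set_has_maximal_iff_noetherian.2 (inferInstance : IsNoetherian R R) S hS
  obtain ⟨g, hg⟩ := (hinj N).out A.subtype A.injective_subtype f
  by_cases hginj : Function.Injective g
  · exact ⟨N, g, hginj⟩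
  exfalso
  rw [injective_iff_map_eq_zero] at hginj
  push Not at hginj
  obtain ⟨b, hb, hb0⟩ := hginj
  obtain ⟨i0, hi0⟩ := h.Ine
  have hi0' : (i0 : R) ≠ 0 := fun h1 => hi0 (Subtype.ext h1)
  obtain ⟨s, hs⟩ : ∃ s, (i0 : R) * s * b ≠ 0 := by
    by_contra hcon
    push Not at hcon
    rcases h.prime.2 _ _ hcon with h1 | h1
    · exact hi0' h1
    · exact hb0 h1
  let m : I →ₗ[R] R := (LinearMap.toSpanSingleton R R (s * b)).comp I.subtype
  have hm : ∀ i : I, m i = (i : R) * (s * b) := fun i => rfl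
  have hm0 : m ≠ 0 := by
    intro h0
    apply hs
    have := LinearMap.congr_fun h0 i0
    rw [hm, ← mul_assoc] at this
    exact this
  have hIU : Unif R I := h.user.unif.of_injective j h.jinj
  have hminj : Function.Injective m := inj_of_nonsing hIU (prime_nonsing h.prime) m hm0
  -- extend j along m to R
  obtain ⟨g', hg'⟩ := h.inj.out m hminj j
  have hgm : ∀ i : I, g (m i) = 0 := by
    intro i
    have h2 : m i = ((i : R) * s) • b := by rw [hm, smul_eq_mul, mul_assoc]
    rw [h2, map_smul, hb, smul_zero]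
  have hmem : A ⊔ LinearMap.range m ∈ S := by
    refine ⟨N + 1, (Fin.consLinearEquiv R (fun _ : Fin (N + 1) => V)).toLinearMap.comp
      ((g'.prod g).comp (A ⊔ LinearMap.range m).subtype), ?_⟩
    rw [LinearMap.coe_comp]
    refine (LinearEquiv.injective _).comp ?_
    rw [injective_iff_map_eq_zero]
    rintro ⟨x, hx⟩ hx0
    obtain ⟨a, ha, y, ⟨i, rfl⟩, hxy⟩ := Submodule.mem_sup.1 hx
    have h1 : g' x = 0 := congrArg Prod.fst hx0
    have h2 : g x = 0 := congrArg Prod.snd hx0
    rw [← hxy, map_add, hgm, add_zero] at h2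
    have h3 : f ⟨a, ha⟩ = 0 := by rw [← hg]; exact h2
    have h4 : a = 0 := congrArg Subtype.val (hf (h3.trans (map_zero f).symm))
    rw [← hxy, h4, zero_add, hg'] at h1
    have h5 : i = 0 := h.jinj (by rw [h1, map_zero])
    apply Subtype.ext
    change x = 0
    rw [← hxy, h4, h5, map_zero, add_zero]
  apply hmax _ hmem
  refine lt_of_le_of_ne le_sup_left ?_
  intro heq
  have h1 : m i0 ∈ A := by
    rw [heq]
    exact Submodule.mem_sup_right ⟨i0, rfl⟩
  have h2 : f ⟨m i0, h1⟩ = 0 := by
    rw [← hg]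
    exact hgm i0
  have h3 : m i0 = 0 := congrArg Subtype.val (hf (h2.trans (map_zero f).symm))
  apply hs
  rw [mul_assoc]
  exact h3

include d

lemma lifts_V {X : Submodule R V} (hX : X ≠ ⊤) : Lifts (R := R) X V := by
  intro K f
  obtain ⟨e, he⟩ := h.lift d hX K f
  exact ⟨(DistribSMul.toLinearMap R V e).comp X.subtype, he⟩

lemma projective {X : Submodule R V} (hX0 : X ≠ ⊥) (hX : X ≠ ⊤) : Module.Projective R X := by
  obtain ⟨N, ε, hε⟩ := h.exists_embedding_pow
  -- a generator
  obtain ⟨x, hx, hxn⟩ := SetLike.exists_of_lt (h.nxt_spec hX0 hX).1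
  have hspan : Submodule.span R {x} = X := by
    have hle : Submodule.span R {x} ≤ X := by
      rw [Submodule.span_singleton_le_iff_mem]; exact hx
    rcases hle.lt_or_eq with h1 | h1
    · exact absurd ((h.nxt_spec hX0 hX).2 _ h1 (Submodule.mem_span_singleton_self x)) hxn
    · exact h1
  let p : R →ₗ[R] X := LinearMap.toSpanSingleton R X ⟨x, hx⟩
  have hp : Function.Surjective p := by
    rintro ⟨y, hy⟩
    rw [← hspan] at hy
    obtain ⟨r, hr⟩ := Submodule.mem_span_singleton.1 hy
    exact ⟨r, Subtype.ext hr⟩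
  let q : (R ⧸ LinearMap.ker p) →ₗ[R] ((Fin N → V) ⧸ (LinearMap.ker p).map ε) :=
    Submodule.mapQ _ _ ε (Submodule.map_le_iff_le_comap.1 le_rfl)
  let e := LinearMap.quotKerEquivOfSurjective p hp
  obtain ⟨g, hg⟩ := (h.lifts_V d hX).pow N ((LinearMap.ker p).map ε)
    (q.comp e.symm.toLinearMap)
  have hg2 : ∀ r : R, g (p r) - ε r ∈ (LinearMap.ker p).map ε := by
    intro r
    have h1 := hg (p r)
    have h2 : e.symm (p r) = Submodule.Quotient.mk r := by
      rw [LinearEquiv.symm_apply_eq]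
      rfl
    rw [LinearMap.comp_apply] at h1
    change q (e.symm (p r)) = _ at h1
    rw [h2] at h1
    have h3 : q (Submodule.Quotient.mk r) = ((LinearMap.ker p).map ε).mkQ (ε r) := rfl
    rw [h3, eq_comm, ← sub_eq_zero, ← map_sub, Submodule.mkQ_apply,
      Submodule.Quotient.mk_eq_zero] at h1
    exact h1
  have hmem : ∀ y : X, g y ∈ LinearMap.range ε := by
    intro y
    obtain ⟨r, rfl⟩ := hp y
    obtain ⟨k, -, hk⟩ := hg2 r
    refine ⟨k + r, ?_⟩
    rw [map_add, hk]
    abel
  let e2 := LinearEquiv.ofInjective ε hε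
  let s : X →ₗ[R] R := e2.symm.toLinearMap.comp (g.codRestrict (LinearMap.range ε) hmem)
  have hs : ∀ y : X, ε (s y) = g y := by
    intro y
    have h5 : e2 (e2.symm (g.codRestrict (LinearMap.range ε) hmem y))
        = g.codRestrict (LinearMap.range ε) hmem y := e2.apply_symm_apply _
    exact congrArg Subtype.val h5
  refine Module.Projective.of_split s p ?_
  apply LinearMap.ext
  intro y
  rw [LinearMap.comp_apply, LinearMap.id_apply]
  obtain ⟨r, rfl⟩ := hp y
  obtain ⟨k, hk, hk2⟩ := hg2 r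
  have h1 : s (p r) = k + r := by
    apply hε
    rw [hs, map_add, hk2]
    abel
  rw [h1, map_add, LinearMap.mem_ker.1 hk, zero_add]

omit h d in
lemma smulEquiv {e : E} (he : e ≠ 0) (X : Submodule R V) :
    Nonempty (X ≃ₗ[R] (e • X : Submodule R V)) := by
  let f : X →ₗ[R] (e • X : Submodule R V) :=
    ((DistribSMul.toLinearMap R V e).comp X.subtype).codRestrict _
      (fun x => Submodule.smul_mem_pointwise_smul (x : V) e X x.2)
  refine ⟨LinearEquiv.ofBijective f ⟨?_, ?_⟩⟩
  · intro x y hxy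
    have h3 : e • (x : V) = e • (y : V) := congrArg Subtype.val hxy
    have h4 := congrArg (fun w => e⁻¹ • w) h3
    simp only [smul_smul, inv_mul_cancel₀ he, one_smul] at h4
    exact Subtype.ext h4
  · rintro ⟨y, hy⟩
    have hy' := hy
    rw [Submodule.mem_smul_pointwise_iff_exists] at hy'
    obtain ⟨x, hx, hxy⟩ := hy'
    exact ⟨⟨x, hx⟩, Subtype.ext hxy⟩

lemma decompose {t : ℕ} (ht : L j t = π • LinearMap.range j) (N : ℕ) :
    ∀ (Y : Type u) [AddCommGroup Y] [Module R Y] [IsNoetherian R Y] (f : Y →ₗ[R] (Fin N → V)),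
      Function.Injective f → ∃ (k : ℕ) (n : Fin k → ℕ), (∀ i, n i < t) ∧
        Nonempty (Y ≃ₗ[R] (∀ i, L j (n i))) := by
  induction N with
  | zero =>
    intro Y _ _ _ f hf
    have : Subsingleton Y := hf.subsingleton
    refine ⟨0, fun i => i.elim0, fun i => i.elim0, ⟨LinearEquiv.ofBijective 0 ⟨?_, ?_⟩⟩⟩
    · intro x y _
      exact Subsingleton.elim _ _
    · intro y
      exact ⟨0, funext (fun i => i.elim0)⟩
  | succ N ih =>
    intro Y _ _ _ f hf
    let p : Y →ₗ[R] V := (LinearMap.proj 0).comp f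
    let tl : Y →ₗ[R] (Fin N → V) := LinearMap.pi (fun i => (LinearMap.proj i.succ).comp f)
    have htl : ∀ y, p y = 0 → tl y = 0 → y = 0 := by
      intro y h1 h2
      apply hf
      rw [map_zero]
      funext i
      refine Fin.cases ?_ (fun i => ?_) i
      · exact h1
      · exact congrFun h2 i
    by_cases hX : LinearMap.range p = ⊥
    · apply ih Y tl
      rw [injective_iff_map_eq_zero]
      intro y hy
      apply htl y ?_ hy
      have : p y ∈ LinearMap.range p := ⟨y, rfl⟩
      rw [hX, Submodule.mem_bot] at this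
      exact this
    · have hXn : IsNoetherian R (LinearMap.range p) := inferInstance
      have hXt : LinearMap.range p ≠ ⊤ := by
        intro htop
        apply h.not_noeth d
        rw [htop] at hXn
        exact isNoetherian_of_linearEquiv Submodule.topEquiv
      have hproj := h.projective d hX hXt
      obtain ⟨s, hs⟩ := Module.projective_lifting_property p.rangeRestrict LinearMap.id
        p.surjective_rangeRestrict
      have hs' : ∀ x, p.rangeRestrict (s x) = x := fun x => LinearMap.congr_fun hs x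
      obtain ⟨k, n, hn, ⟨e1⟩⟩ := ih (LinearMap.ker p) (tl.comp (LinearMap.ker p).subtype) (by
        rw [injective_iff_map_eq_zero]
        rintro ⟨y, hy⟩ hy2
        apply Subtype.ext
        exact htl y (LinearMap.mem_ker.1 hy) hy2)
      obtain ⟨a, i0, hi0, hXeq⟩ := h.classify d ht hX hXt
      obtain ⟨e2⟩ := smulEquiv (R := R) (V := V) (zpow_ne_zero a d.pi0) (L j i0)
      rw [← hXeq] at e2
      -- the splitting
      let F : Y →ₗ[R] (LinearMap.range p × LinearMap.ker p) :=
        p.rangeRestrict.prod ((LinearMap.id - s.comp p.rangeRestrict).codRestrict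
          (LinearMap.ker p) (by
            intro y
            rw [LinearMap.mem_ker]
            have h1 := congrArg Subtype.val (hs' (p.rangeRestrict y))
            simp only [LinearMap.sub_apply, LinearMap.id_apply, LinearMap.comp_apply, map_sub]
            rw [sub_eq_zero]
            exact h1.symm))
      have hF1 : ∀ y, (F y).1 = p.rangeRestrict y := fun y => rfl
      have hF2 : ∀ y, ((F y).2 : Y) = y - s (p.rangeRestrict y) := fun y => rfl
      have hF : Function.Bijective F := by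
        constructor
        · rw [injective_iff_map_eq_zero]
          intro y hy
          have h1 : p.rangeRestrict y = 0 := by rw [← hF1, hy]; rfl
          have h2 : y - s (p.rangeRestrict y) = 0 := by rw [← hF2, hy]; rfl
          rw [h1, map_zero, sub_zero] at h2
          exact h2
        · rintro ⟨x, ⟨z, hz⟩⟩
          have hz0 : p.rangeRestrict z = 0 := Subtype.ext (LinearMap.mem_ker.1 hz)
          refine ⟨s x + z, Prod.ext ?_ (Subtype.ext ?_)⟩
          · rw [hF1, map_add, hs', hz0, add_zero]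
          · rw [hF2, map_add, hs', hz0, add_zero]
            simp
      let e3 : Y ≃ₗ[R] (LinearMap.range p × LinearMap.ker p) := LinearEquiv.ofBijective F hF
      let e4 : (LinearMap.range p × LinearMap.ker p) ≃ₗ[R] (L j i0 × (∀ i, L j (n i))) :=
        LinearEquiv.prodCongr e2.symm e1
      let e5 : (L j i0 × (∀ i, L j (n i))) ≃ₗ[R]
          (∀ i : Fin (k + 1), L j ((Fin.cons i0 n : Fin (k + 1) → ℕ) i)) :=
        Fin.consLinearEquiv R (fun i : Fin (k + 1) => L j ((Fin.cons i0 n : Fin (k + 1) → ℕ) i))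
      refine ⟨k + 1, Fin.cons i0 n, ?_, ⟨e3.trans (e4.trans e5)⟩⟩
      intro i
      refine Fin.cases ?_ (fun i => ?_) i
      · exact hi0
      · exact hn i

lemma decompose_R {t : ℕ} (ht : L j t = π • LinearMap.range j) :
    ∃ (k : ℕ) (n : Fin k → ℕ), 0 < k ∧ (∀ i, n i < t) ∧ Nonempty (R ≃ₗ[R] (∀ i, L j (n i))) := by
  obtain ⟨N, ε, hε⟩ := h.exists_embedding_pow
  obtain ⟨k, n, hn, ⟨e⟩⟩ := h.decompose d ht N R ε hε
  refine ⟨k, n, ?_, hn, ⟨e⟩⟩
  rcases Nat.eq_zero_or_pos k with hk | hk
  · exfalso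
    subst hk
    have := h.prime.1
    apply one_ne_zero (α := R)
    apply e.injective
    exact funext (fun i => i.elim0)
  · exact hk

end Setup

end setupI

end Pool.Agent.Helper970.Uni
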