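import Pool.Agent.Helper970.UniI
import Pool.Agent.Helper970.UniC

universe u

open scoped DirectSum Pointwise WithZero

set_option linter.unusedSectionVars false

namespace Pool.Agent.Helper970.Uni

section setupJ

variable {R : Type u} [Ring R] [IsNoetherianRing R] {V : Type u} [AddCommGroup V] [Module R V]
  {E : Type u} [DivisionRing E] [Module E V] [SMulCommClass E R V] {I : Ideal R} {j : I →ₗ[R] V}

namespace Setup

variable (h : Setup R V E I j) {π : E} (d : DV h.O π)

include h d

lemma smul_L_le_iff {t : ℕ} (ht : L j t = π • LinearMap.range j) {c : E} (hc : c ≠ 0) {a b : ℕ}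
    (ha : a < t) (hb : b < t) :
    c • L j a ≤ L j b ↔ 0 ≤ d.ord c ∧ (a < b → 1 ≤ d.ord c) := by
  rw [h.L_smul d hc]
  set o := d.ord c
  constructor
  · intro hle
    have h0 : 0 ≤ o := by
      by_contra hcon
      push Not at hcon
      have h1 : π • LinearMap.range j < L j a := by
        rw [← ht]; exact h.L_anti d ha
      have h2 : π ^ o • (π • LinearMap.range j) < π ^ o • L j a :=
        (smul_lt_iff (zpow_ne_zero _ d.pi0)).2 h1
      rw [smul_smul, ← zpow_add_one₀ d.pi0] at h2
      have h3 : π ^ (0 : ℤ) • LinearMap.range j ≤ π ^ (o + 1) • LinearMap.range j := by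
        rw [h.zpow_smul_le d]; linarith
      rw [zpow_zero, one_smul] at h3
      have h4 := lt_of_le_of_lt h3 h2
      exact absurd (hle.trans (h.L_le_X0 d b)) (not_le_of_gt h4)
    refine ⟨h0, fun hab => ?_⟩
    by_contra hcon
    push Not at hcon
    have h1 : o = 0 := by linarith
    rw [h1, zpow_zero, one_smul] at hle
    exact absurd hle (not_le_of_gt (h.L_anti d hab))
  · rintro ⟨h0, h1⟩
    by_cases ho : 1 ≤ o
    · have h2 : π ^ o • L j a ≤ π ^ o • LinearMap.range j :=
        (smul_le_iff (zpow_ne_zero _ d.pi0)).2 (h.L_le_X0 d a)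
      have h3 : π ^ o • LinearMap.range j ≤ π ^ (1 : ℤ) • LinearMap.range j := by
        rw [h.zpow_smul_le d]; exact ho
      rw [zpow_one, ← ht] at h3
      exact h2.trans (h3.trans ((h.L_anti d).antitone hb.le))
    · have h2 : o = 0 := by
        push Not at ho
        linarith
      have hab : b ≤ a := by
        by_contra hcon
        push Not at hcon
        exact ho (h1 hcon)
      rw [h2, zpow_zero, one_smul]
      exact (h.L_anti d).antitone hab

theorem exists_ringEquiv {t : ℕ} (ht : L j t = π • LinearMap.range j) {k : ℕ} {n : Fin k → ℕ}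
    (hn : ∀ i, n i < t) (e0 : R ≃ₗ[R] (∀ i, L j (n i))) :
    ∃ Φ : R →+* hereditaryOrder d.val n, Function.Bijective Φ := by
  classical
  let b : ∀ i, L j (n i) →ₗ[R] R := fun i => e0.symm.toLinearMap.comp
    (LinearMap.single R (fun i : Fin k => (L j (n i) : Submodule R V)) i)
  have hb : ∀ i x, e0 (b i x) = Pi.single i x := fun i x => e0.apply_symm_apply _
  have hbsum : ∀ s : R, s = ∑ i, b i (e0 s i) := by
    intro s
    apply e0.injective
    rw [map_sum]
    simp only [hb]
    exact (Finset.univ_sum_single (e0 s)).symm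
  -- the comparison homs
  let H : R → ∀ i i', L j (n i) →ₗ[R] V := fun r i i' =>
    (L j (n i')).subtype.comp ((LinearMap.proj i').comp (e0.toLinearMap.comp
      ((LinearMap.toSpanSingleton R R r).comp (b i))))
  have hH : ∀ r i i' x, H r i i' x = (e0 (b i x * r) i' : V) := fun r i i' x => rfl
  have hex : ∀ r i i', ∃ e : E, ∀ x : L j (n i), H r i i' x = e • (x : V) := fun r i i' =>
    h.ext_hom (L j (n i)).subtype (Submodule.injective_subtype _) (H r i i')
  choose c hc using hex
  have hc' : ∀ r i i' (x : L j (n i)), (e0 (b i x * r) i' : V) = c r i i' • (x : V) := hc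
  -- uniqueness
  have huniq : ∀ i (a a' : E), (∀ x : L j (n i), a • (x : V) = a' • (x : V)) → a = a' := by
    intro i a a' haa
    obtain ⟨x, hx, hx0⟩ := (Submodule.ne_bot_iff _).1 (h.L_ne d (n i)).1
    have h1 : (a - a') • x = 0 := by
      rw [sub_smul, haa ⟨x, hx⟩, sub_self]
    rcases smul_eq_zero' h1 with h2 | h2
    · exact sub_eq_zero.1 h2
    · exact absurd h2 hx0
  have hmem : ∀ r, (fun i i' => MulOpposite.op (c r i i') : Matrix (Fin k) (Fin k) Eᵐᵒᵖ)
      ∈ hereditaryOrder d.val n := by
    intro r i i'
    change d.val (MulOpposite.op (c r i i')) ≤ 1 ∧ (n i < n i' → d.val (MulOpposite.op (c r i i')) < 1)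
    by_cases h0 : c r i i' = 0
    · rw [h0, MulOpposite.op_zero, map_zero]
      exact ⟨zero_le_one, fun _ => zero_lt_one⟩
    · rw [d.val_le_one_iff h0, d.val_lt_one_iff h0, ← h.smul_L_le_iff d ht h0 (hn i) (hn i')]
      intro x hx
      rw [Submodule.mem_smul_pointwise_iff_exists] at hx
      obtain ⟨y, hy, rfl⟩ := hx
      have := hc' r i i' ⟨y, hy⟩
      change c r i i' • y ∈ _
      rw [← this]
      exact (e0 (b i ⟨y, hy⟩ * r) i').2
  have hone : ∀ i i', c 1 i i' = if i = i' then 1 else 0 := by
    intro i i'
    apply huniq i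
    intro x
    rw [← hc', mul_one, hb]
    by_cases hii : i = i'
    · subst hii
      rw [Pi.single_eq_same, if_pos rfl, one_smul]
    · rw [Pi.single_eq_of_ne (Ne.symm hii), if_neg hii, zero_smul]
      rfl
  have hadd : ∀ r s i i', c (r + s) i i' = c r i i' + c s i i' := by
    intro r s i i'
    apply huniq i
    intro x
    rw [← hc', mul_add, map_add, Pi.add_apply, Submodule.coe_add, hc', hc', add_smul]
  have hmul : ∀ r s i i', c (r * s) i i' = ∑ l, c s l i' * c r i l := by
    intro r s i i'
    apply huniq i
    intro x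
    rw [← hc', ← mul_assoc]
    conv_lhs => rw [hbsum (b i x * r)]
    rw [Finset.sum_mul, map_sum, Finset.sum_apply, AddSubmonoidClass.coe_finsetSum,
      Finset.sum_smul]
    apply Finset.sum_congr rfl
    intro l _
    rw [hc', hc', mul_smul]
  let AA : R → Matrix (Fin k) (Fin k) Eᵐᵒᵖ := fun r i i' => MulOpposite.op (c r i i')
  let Φ : R →+* hereditaryOrder d.val n :=
    { toFun := fun r => ⟨fun i i' => MulOpposite.op (c r i i'), hmem r⟩
      map_one' := by
        apply Subtype.ext
        ext i i'
        change MulOpposite.op (c 1 i i') = (1 : Matrix (Fin k) (Fin k) Eᵐᵒᵖ) i i'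
        rw [hone, Matrix.one_apply]
        by_cases hii : i = i'
        · rw [if_pos hii, if_pos hii, MulOpposite.op_one]
        · rw [if_neg hii, if_neg hii, MulOpposite.op_zero]
      map_mul' := by
        intro r s
        apply Subtype.ext
        ext i i'
        change MulOpposite.op (c (r * s) i i') = (AA r * AA s) i i'
        rw [Matrix.mul_apply, hmul]
        exact map_sum (MulOpposite.opAddEquiv : E ≃+ Eᵐᵒᵖ) _ _
      map_zero' := by
        apply Subtype.ext
        ext i i'
        change MulOpposite.op (c 0 i i') = 0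
        have := hadd 0 0 i i'
        rw [add_zero] at this
        rw [left_eq_add.1 this, MulOpposite.op_zero]
      map_add' := by
        intro r s
        apply Subtype.ext
        ext i i'
        change MulOpposite.op (c (r + s) i i') = MulOpposite.op (c r i i') + MulOpposite.op (c s i i')
        rw [hadd, MulOpposite.op_add] }
  have hΦ : ∀ r i i', (Φ r).1 i i' = MulOpposite.op (c r i i') := fun r i i' => rfl
  refine ⟨Φ, ?_, ?_⟩
  · rw [injective_iff_map_eq_zero]
    intro r hr
    have h0 : ∀ i i', c r i i' = 0 := by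
      intro i i'
      have h1 : (Φ r).1 i i' = 0 := by rw [hr]; rfl
      rw [hΦ] at h1
      exact (MulOpposite.op_eq_zero_iff _).1 h1
    have h1 : ∀ i x, b i x * r = 0 := by
      intro i x
      apply e0.injective
      rw [map_zero]
      funext i'
      apply Subtype.ext
      rw [hc', h0, zero_smul]
      rfl
    rw [← one_mul r, hbsum 1, Finset.sum_mul]
    exact Finset.sum_eq_zero (fun i _ => h1 i _)
  · intro M
    let m : Fin k → Fin k → E := fun i i' => (M.1 i i').unop
    have hmle : ∀ i i', ∀ x ∈ L j (n i), m i i' • x ∈ L j (n i') := by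
      intro i i' x hx
      by_cases h0 : m i i' = 0
      · rw [h0, zero_smul]; exact Submodule.zero_mem _
      · have h1 := M.2 i i'
        have h2 : M.1 i i' = MulOpposite.op (m i i') := rfl
        rw [h2, d.val_le_one_iff h0, d.val_lt_one_iff h0,
          ← h.smul_L_le_iff d ht h0 (hn i) (hn i')] at h1
        exact h1 (Submodule.smul_mem_pointwise_smul x _ _ hx)
    let G : ∀ i i', L j (n i) →ₗ[R] L j (n i') := fun i i' =>
      ((DistribSMul.toLinearMap R V (m i i')).comp (L j (n i)).subtype).codRestrict _
        (fun x => hmle i i' x x.2)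
    have hG : ∀ i i' x, ((G i i' x : L j (n i')) : V) = m i i' • (x : V) := fun i i' x => rfl
    let F : R →ₗ[R] R := e0.symm.toLinearMap.comp ((LinearMap.pi (fun i' =>
      ∑ i, (G i i').comp (LinearMap.proj i))).comp e0.toLinearMap)
    have hF : ∀ s i', e0 (F s) i' = ∑ i, G i i' (e0 s i) := by
      intro s i'
      have h1 : e0 (F s) = (LinearMap.pi (fun i' =>
        ∑ i, (G i i').comp (LinearMap.proj i))) (e0 s) := e0.apply_symm_apply _
      rw [h1, LinearMap.pi_apply, LinearMap.sum_apply]
      rfl
    refine ⟨F 1, ?_⟩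
    apply Subtype.ext
    ext i i'
    rw [hΦ]
    have h1 : c (F 1) i i' = m i i' := by
      apply huniq i
      intro x
      rw [← hc']
      have h2 : b i x * F 1 = F (b i x) := by
        rw [← smul_eq_mul, ← map_smul, smul_eq_mul, mul_one]
      rw [h2, hF, Finset.sum_eq_single i]
      · rw [hb, Pi.single_eq_same, hG]
      · intro l _ hl
        rw [hb, Pi.single_eq_of_ne hl, map_zero]
      · intro hcon
        exact absurd (Finset.mem_univ i) hcon
    rw [h1]
    rfl

end Setup

end setupJ

end Pool.Agent.Helper970.Uni
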