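import Pool.Agent.Helper970.UniJ

universe u

open scoped DirectSum Pointwise WithZero

set_option linter.unusedSectionVars false

namespace Pool.Agent.Helper970.Uni

section existence

variable {R : Type u} [Ring R] [IsNoetherianRing R]

theorem exists_setup (hP : PrimeR R) (hPU : PU R) :
    ∃ (V : Type u) (_ : AddCommGroup V) (_ : Module R V) (E : Type u) (_ : DivisionRing E)
      (_ : Module E V) (_ : SMulCommClass E R V) (I : Ideal R) (j : I →ₗ[R] V),
      Setup R V E I j := by
  have hnt := hP.1
  obtain ⟨I, -, hI0, hIU⟩ := exists_unif_in (R := R) (M := R) (x := 1) one_ne_zero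
  obtain ⟨V, _, _, j, hV1, hV2, hV3, hV4⟩ := exists_unif_hull (R := R) (M := I) hIU
  have hVus : User R V := hPU V hV2
  obtain ⟨a, haI, ha0⟩ := (Submodule.ne_bot_iff I).1 hI0
  have hne : ∃ a : I, a ≠ 0 := ⟨⟨a, haI⟩, fun h => ha0 (congrArg Subtype.val h)⟩
  have hnons : ∀ v : V, Sing R v → v = 0 := by
    intro v hv
    by_contra hv0
    obtain ⟨r, m, hrm, hm0⟩ := hV4 v hv0
    have h1 : Sing R (j m) := by rw [← hrm]; exact hv.smul r
    have h2 : Sing R (m : R) := by
      intro a ha
      obtain ⟨b, hb1, hb2⟩ := h1 a ha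
      refine ⟨b, hb1, ?_⟩
      have h3 : (b * a) • m = 0 := hV3 (by rw [map_smul, hb2, map_zero])
      exact congrArg Subtype.val h3
    exact hm0 (Subtype.ext (prime_nonsing hP _ h2))
  have hVnt : Nontrivial V := by
    obtain ⟨i, hi⟩ := hne
    exact ⟨j i, 0, fun h => hi (hV3 (by rw [h, map_zero]))⟩
  have hunit : ∀ f : Module.End R V, IsUnit f ∨ f = 0 := by
    intro f
    by_cases hf : f = 0
    · exact Or.inr hf
    left
    have hinj : Function.Injective f := inj_of_nonsing hV2 hnons f hf
    obtain ⟨g, hg⟩ := hV1.out f hinj LinearMap.id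
    have hg' : ∀ x, g (f x) = x := hg
    have hg0 : g ≠ 0 := by
      intro h0
      obtain ⟨v, hv⟩ := exists_ne (0 : V)
      apply hv
      rw [← hg' v, h0, LinearMap.zero_apply]
    have hginj : Function.Injective g := inj_of_nonsing hV2 hnons g hg0
    have hfg : ∀ x, f (g x) = x := fun x => hginj (hg' (g x))
    rw [Module.End.isUnit_iff]
    exact ⟨hinj, fun y => ⟨g y, hfg y⟩⟩
  let _ : DivisionRing (Module.End R V) := DivisionRing.ofIsUnitOrEqZero hunit
  let mE : Module (Module.End R V) V := Module.End.applyModule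
  have hcomm : SMulCommClass (Module.End R V) R V := Module.End.apply_smulCommClass'
  refine ⟨V, inferInstance, inferInstance, Module.End R V, inferInstance, mE, hcomm, I, j,
    ⟨hP, hPU, hV1, hVus, hV3, hne, hnons, ?_⟩⟩
  intro f
  exact ⟨f, fun v => rfl⟩

/-- type D rings -/
def TypeD (R : Type u) [Ring R] : Prop :=
  (∃ (D : Type u) (_ : DivisionRing D) (v : Valuation D ℤᵐ⁰) (k : ℕ) (n : Fin k → ℕ)
    (Φ : R →+* hereditaryOrder v n), Function.Surjective v ∧ 0 < k ∧ Function.Bijective Φ) ∧
  (∀ (S : Type u) [AddCommGroup S] [Module R S], IsSimpleModule R S →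
    ∃ (F : Type u) (_ : AddCommGroup F) (_ : Module R F) (ι : S →ₗ[R] F),
      User R F ∧ ¬ IsNoetherian R F ∧ (∀ r : R, (∀ x : F, r • x = 0) → r = 0) ∧
      Function.Injective ι)

variable {V : Type u} [AddCommGroup V] [Module R V]
  {E : Type u} [DivisionRing E] [Module E V] [SMulCommClass E R V] {I : Ideal R} {j : I →ₗ[R] V}

lemma Setup.faithful (h : Setup R V E I j) {π : E} (d : DV h.O π) {K : Submodule R V}
    (hK : K ≠ ⊤) {r : R} (hr : ∀ v : V, r • v ∈ K) : r = 0 := by
  obtain ⟨b, hb⟩ := h.exhaust d hK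
  have h1 : ∀ i : I, r • j i = 0 := by
    intro i
    by_contra hne
    have hspan : Submodule.span R {r • j i} ≠ ⊥ := by
      rw [Ne, Submodule.span_singleton_eq_bot]; exact hne
    obtain ⟨m0, hm0⟩ := h.inner d hspan
    have h2 : ∀ m : ℕ, r • j i ∈ π ^ ((m : ℤ) - b) • LinearMap.range j := by
      intro m
      have h3 := hb (hr (π ^ (-(m : ℤ)) • j i))
      rw [Submodule.mem_smul_pointwise_iff_exists] at h3
      obtain ⟨x, hx, hxy⟩ := h3
      rw [Submodule.mem_smul_pointwise_iff_exists]
      refine ⟨x, hx, ?_⟩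
      rw [← smul_comm] at hxy
      have h4 := congrArg (fun w => π ^ (m : ℤ) • w) hxy
      simp only [smul_smul, ← zpow_add₀ d.pi0, add_neg_cancel, zpow_zero, one_smul] at h4
      rw [← h4, sub_eq_add_neg]
    have h5 : Submodule.span R {r • j i} ≤ π ^ (((m0 + b + 1 : ℕ) : ℤ) - b) • LinearMap.range j := by
      rw [Submodule.span_singleton_le_iff_mem]
      exact h2 _
    have h6 := (h.zpow_smul_le d).1 (hm0.trans h5)
    push_cast at h6
    linarith
  have h2 : ∀ i : I, r * (i : R) = 0 := by
    intro i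
    have h3 : r • i = 0 := h.jinj (by rw [map_smul, h1, map_zero])
    exact congrArg Subtype.val h3
  obtain ⟨i0, hi0⟩ := h.Ine
  rcases h.prime.2 r (i0 : R) (fun s => by
    have := h2 (s • i0)
    rw [SetLike.val_smul, smul_eq_mul] at this
    rw [mul_assoc, this]) with h3 | h3
  · exact h3
  · exact absurd (Subtype.ext h3) hi0

theorem Setup.typeD (h : Setup R V E I j) {π : E} (d : DV h.O π) : TypeD R := by
  classical
  obtain ⟨t, -, ht⟩ := h.exists_t d
  obtain ⟨k, n, hk, hn, ⟨e0⟩⟩ := h.decompose_R d ht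
  constructor
  · obtain ⟨Φ, hΦ⟩ := h.exists_ringEquiv d ht hn e0
    exact ⟨Eᵐᵒᵖ, inferInstance, d.val, k, n, Φ, d.val_surjective, hk, hΦ⟩
  · intro S _ _ hS
    have hnt := IsSimpleModule.nontrivial R S
    obtain ⟨s, hs⟩ := exists_ne (0 : S)
    let q : R →ₗ[R] S := LinearMap.toSpanSingleton R S s
    have hq0 : q ≠ 0 := by
      intro h0
      apply hs
      have := LinearMap.congr_fun h0 1
      rwa [LinearMap.toSpanSingleton_apply, one_smul, LinearMap.zero_apply] at this
    have hex : ∃ i, (q.comp e0.symm.toLinearMap).comp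
        (LinearMap.single R (fun i : Fin k => (L j (n i) : Submodule R V)) i) ≠ 0 := by
      by_contra hcon
      push Not at hcon
      apply hq0
      have h2 : q.comp e0.symm.toLinearMap = 0 := by
        apply LinearMap.pi_ext'
        intro i
        rw [hcon i]
        rfl
      apply LinearMap.ext
      intro x
      have := LinearMap.congr_fun h2 (e0 x)
      rw [LinearMap.comp_apply] at this
      simpa using this
    obtain ⟨i, hi⟩ := hex
    set g := (q.comp e0.symm.toLinearMap).comp
        (LinearMap.single R (fun i : Fin k => (L j (n i) : Submodule R V)) i) with hg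
    have hgs : Function.Surjective g := LinearMap.surjective_of_ne_zero hi
    let K : Submodule R V := (LinearMap.ker g).map (L j (n i)).subtype
    have hKle : K ≤ L j (n i) := by
      rintro _ ⟨x, -, rfl⟩
      exact x.2
    have hKt : K ≠ ⊤ := by
      intro h0
      rw [h0, top_le_iff] at hKle
      exact (h.L_ne d (n i)).2 hKle
    have hcomap : ∀ x : L j (n i), (x : V) ∈ K → g x = 0 := by
      rintro x ⟨y, hy, hxy⟩
      have : y = x := Subtype.ext hxy
      rw [← this]
      exact LinearMap.mem_ker.1 hy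
    have hKb : K ≠ ⊥ := by
      intro h0
      have hginj : Function.Injective g := by
        rw [injective_iff_map_eq_zero]
        intro x hx
        have h2 : (x : V) ∈ K := ⟨x, LinearMap.mem_ker.2 hx, rfl⟩
        rw [h0, Submodule.mem_bot] at h2
        exact Subtype.ext h2
      have hsimp : IsSimpleModule R (L j (n i)) :=
        IsSimpleModule.congr (LinearEquiv.ofBijective g ⟨hginj, hgs⟩)
      obtain ⟨Y, hY0, hYlt⟩ := h.exists_smaller d (h.L_ne d (n i)).1
      obtain ⟨y, hyY, hy0⟩ := (Submodule.ne_bot_iff Y).1 hY0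
      have h2 := (isSimpleModule_iff_toSpanSingleton_surjective.1 hsimp).2 ⟨y, hYlt.le hyY⟩
        (fun h => hy0 (congrArg Subtype.val h))
      apply not_le_of_gt hYlt
      intro x hx
      obtain ⟨r, hr⟩ := h2 ⟨x, hx⟩
      have h3 : r • y = x := congrArg Subtype.val hr
      rw [← h3]
      exact Y.smul_mem r hyY
    let ι1 : ((L j (n i)) ⧸ LinearMap.ker g) →ₗ[R] (V ⧸ K) :=
      Submodule.mapQ _ _ (L j (n i)).subtype (Submodule.map_le_iff_le_comap.1 le_rfl)
    have hι1 : Function.Injective ι1 := by
      rw [injective_iff_map_eq_zero]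
      intro a ha
      obtain ⟨x, rfl⟩ := Submodule.mkQ_surjective _ a
      have h3 : K.mkQ (x : V) = 0 := ha
      rw [Submodule.mkQ_apply, Submodule.Quotient.mk_eq_zero] at h3
      rw [Submodule.mkQ_apply, Submodule.Quotient.mk_eq_zero]
      exact hcomap x h3
    refine ⟨V ⧸ K, inferInstance, inferInstance,
      ι1.comp (LinearMap.quotKerEquivOfSurjective g hgs).symm.toLinearMap,
      h.user.quot K, h.quot_not_noeth d hKt, ?_, ?_⟩
    · intro r hr
      apply h.faithful d hKt
      intro v
      have := hr (K.mkQ v)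
      rw [← map_smul] at this
      exact (Submodule.Quotient.mk_eq_zero K).1 this
    · rw [LinearMap.coe_comp]
      exact hι1.comp (LinearEquiv.injective _)

/-- the prime case -/
theorem prime_case (hP : PrimeR R) (hPU : PU R) : IsSemisimpleModule R R ∨ TypeD R := by
  obtain ⟨V, _, _, E, _, _, _, I, j, h⟩ := exists_setup hP hPU
  by_cases hc : ∀ e : E, e ≠ 0 → e • LinearMap.range j = LinearMap.range j
  · exact Or.inl (h.semisimple_of_const hc)
  · right
    push Not at hc
    obtain ⟨π, d⟩ := h.exists_dv hc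
    exact h.typeD d

end existence

end Pool.Agent.Helper970.Uni
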