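import Pool.Agent.Helper970.UniK
import Pool.Agent.Helper970.UniD

universe u

open scoped DirectSum Pointwise WithZero

set_option linter.unusedSectionVars false

namespace Pool.Agent.Helper970.Uni

section transfer

variable {R R' : Type u} [Ring R] [Ring R']

lemma pu_of_surj (φ : R →+* R') (hφ : Function.Surjective φ) (h : PU R) : PU R' := by
  intro M _ _ hM
  let _ : Module R M := Module.compHom M φ
  have hs : ∀ (r : R) (x : M), r • x = φ r • x := fun r x => rfl
  have h1 : Unif R M := by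
    intro x y hx hy
    obtain ⟨a, b, hab, h0⟩ := hM x y hx hy
    obtain ⟨a, rfl⟩ := hφ a
    obtain ⟨b, rfl⟩ := hφ b
    exact ⟨a, b, hab, h0⟩
  intro x y
  rcases h M h1 x y with ⟨r, hr⟩ | ⟨r, hr⟩
  · exact Or.inl ⟨φ r, hr⟩
  · exact Or.inr ⟨φ r, hr⟩

lemma simple_modOfSurj (φ : R →+* R') (hφ : Function.Surjective φ) (S : Type u) [AddCommGroup S]
    [Module R S] (hk : ∀ r, φ r = 0 → ∀ x : S, r • x = 0) (hS : IsSimpleModule R S) :
    letI := modOfSurj φ hφ S hk
    IsSimpleModule R' S := by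
  let mS := modOfSurj φ hφ S hk
  have hs : ∀ (r : R) (x : S), (φ r) • x = r • x := fun r x => modOfSurj_smul φ hφ S hk r x
  have h1 := isSimpleModule_iff_toSpanSingleton_surjective.1 hS
  rw [isSimpleModule_iff_toSpanSingleton_surjective]
  refine ⟨h1.1, fun x hx y => ?_⟩
  obtain ⟨r, hr⟩ := h1.2 x hx y
  exact ⟨φ r, by rw [LinearMap.toSpanSingleton_apply, hs]; exact hr⟩

/-- injective hulls of simple modules over type D quotients -/
lemma typeD_hull [IsNoetherianRing R] (hPU : PU R) (φ : R →+* R') (hφ : Function.Surjective φ)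
    (hD : TypeD R') (S : Type u) [AddCommGroup S]
    [Module R S] (hk : ∀ r, φ r = 0 → ∀ x : S, r • x = 0) (hS : IsSimpleModule R S) :
    ∃ (F : Type u) (_ : AddCommGroup F) (_ : Module R F) (ι : S →ₗ[R] F),
      Module.Injective R F ∧ User R F ∧ (∀ r, φ r = 0 → ∀ x : F, r • x = 0) ∧
      (∀ r, (∀ x : F, r • x = 0) → φ r = 0) ∧ Function.Injective ι := by
  let mS := modOfSurj φ hφ S hk
  have hs : ∀ (r : R) (x : S), (φ r) • x = r • x := fun r x => modOfSurj_smul φ hφ S hk r x
  have hS' : IsSimpleModule R' S := simple_modOfSurj φ hφ S hk hS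
  obtain ⟨F, _, _, ι, h1, h2, h3, h4⟩ := hD.2 S hS'
  let _ : Module R F := Module.compHom F φ
  have hsF : ∀ (r : R) (x : F), r • x = φ r • x := fun r x => rfl
  have hUs : User R F := by
    intro x y
    rcases h1 x y with ⟨r, hr⟩ | ⟨r, hr⟩
    · obtain ⟨r, rfl⟩ := hφ r
      exact Or.inl ⟨r, hr⟩
    · obtain ⟨r, rfl⟩ := hφ r
      exact Or.inr ⟨r, hr⟩
  have : RingHomSurjective φ := ⟨hφ⟩
  let e : F →ₛₗ[φ] F := { AddMonoidHom.id F with map_smul' := fun _ _ => rfl }
  have hN : ¬ IsNoetherian R F := by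
    intro hN
    apply h2
    exact (LinearMap.isNoetherian_iff_of_bijective e Function.bijective_id).1 hN
  let ι' : S →ₗ[R] F :=
    { toFun := ι
      map_add' := map_add ι
      map_smul' := by
        intro r x
        rw [← hs, map_smul]
        rfl }
  refine ⟨F, inferInstance, inferInstance, ι', injective_of_not_noetherian hPU hUs hN, hUs,
    ?_, ?_, h4⟩
  · intro r hr x
    rw [hsF, hr, zero_smul]
  · intro r hr
    exact h3 _ hr

/-- simple modules over a prime semisimple ring are faithful -/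
lemma faithful_of_semisimple (hP : PrimeR R) (hss : IsSemisimpleModule R R) (S : Type u)
    [AddCommGroup S] [Module R S] (hS : IsSimpleModule R S) (r : R) (hr : ∀ x : S, r • x = 0) :
    r = 0 := by
  have hnt := IsSimpleModule.nontrivial R S
  obtain ⟨s, hs⟩ := exists_ne (0 : S)
  let q : R →ₗ[R] S := LinearMap.toSpanSingleton R S s
  obtain ⟨T, hT⟩ := exists_isCompl (LinearMap.ker q)
  have hT0 : T ≠ ⊥ := by
    intro h0
    have h1 := hT.codisjoint.eq_top
    rw [h0, sup_bot_eq] at h1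
    have h2 : (1 : R) ∈ LinearMap.ker q := by rw [h1]; trivial
    rw [LinearMap.mem_ker, LinearMap.toSpanSingleton_apply, one_smul] at h2
    exact hs h2
  obtain ⟨t, htT, ht0⟩ := (Submodule.ne_bot_iff T).1 hT0
  rcases hP.2 r t (fun a => by
    have h1 : r * a * t ∈ T := by
      rw [mul_assoc]
      exact T.smul_mem r (T.smul_mem a htT)
    have h2 : r * a * t ∈ LinearMap.ker q := by
      rw [LinearMap.mem_ker, LinearMap.toSpanSingleton_apply, mul_assoc, mul_smul]
      exact hr _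
    exact (Submodule.disjoint_def.1 hT.disjoint) _ h2 h1) with h | h
  · exact h
  · exact absurd h ht0

end transfer

section primes

variable {R : Type u} [Ring R]

/-- two-sided prime ideals -/
def PrimeI (P : Ideal R) : Prop :=
  P.IsTwoSided ∧ P ≠ ⊤ ∧ ∀ a b : R, (∀ r, a * r * b ∈ P) → a ∈ P ∨ b ∈ P

/-- left ideal generated by `a R` -/
def aR (a : R) : Ideal R := Ideal.span (Set.range fun r => a * r)

lemma mem_aR (a : R) : a ∈ aR a := Ideal.subset_span ⟨1, mul_one a⟩

lemma aR_twoSided (a : R) : (aR a).IsTwoSided := by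
  refine ⟨fun {x} b hx => ?_⟩
  refine Submodule.span_induction (p := fun x _ => x * b ∈ aR a) ?_ ?_ ?_ ?_ hx
  · rintro _ ⟨r, rfl⟩
    exact Ideal.subset_span ⟨r * b, by simp only [mul_assoc]⟩
  · rw [zero_mul]; exact Submodule.zero_mem _
  · intro x y _ _ hx hy
    rw [add_mul]; exact Submodule.add_mem _ hx hy
  · intro c x _ hx
    rw [smul_eq_mul, mul_assoc]; exact Ideal.mul_mem_left _ c hx

lemma aR_mul {I : Ideal R} (hI : I.IsTwoSided) {a b : R} (hab : ∀ r, a * r * b ∈ I) :
    ∀ x ∈ aR a, ∀ y ∈ aR b, x * y ∈ I := by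
  intro x hx
  refine Submodule.span_induction (p := fun x _ => ∀ y ∈ aR b, x * y ∈ I) ?_ ?_ ?_ ?_ hx
  · rintro _ ⟨r, rfl⟩ y hy
    refine Submodule.span_induction (p := fun y _ => ∀ r, a * r * y ∈ I) ?_ ?_ ?_ ?_ hy r
    · rintro _ ⟨s, rfl⟩ r
      rw [← mul_assoc]
      exact hI.mul_mem_of_left s (hab r)
    · intro r
      rw [mul_zero]; exact Submodule.zero_mem _
    · intro x y _ _ hx hy r
      rw [mul_add]; exact Submodule.add_mem _ (hx r) (hy r)
    · intro c x _ hx r
      have : a * r * (c • x) = a * (r * c) * x := by rw [smul_eq_mul]; simp only [mul_assoc]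
      rw [this]
      exact hx _
  · intro y _
    rw [zero_mul]; exact Submodule.zero_mem _
  · intro x y _ _ hx hy z hz
    rw [add_mul]; exact Submodule.add_mem _ (hx z hz) (hy z hz)
  · intro c x _ hx y hy
    rw [smul_eq_mul, mul_assoc]; exact Ideal.mul_mem_left _ c (hx y hy)

lemma sup_twoSided {I J : Ideal R} (hI : I.IsTwoSided) (hJ : J.IsTwoSided) : (I ⊔ J).IsTwoSided := by
  refine ⟨fun {x} b hx => ?_⟩
  obtain ⟨i, hi, k, hk, rfl⟩ := Submodule.mem_sup.1 hx
  rw [add_mul]
  exact Submodule.add_mem _ (Submodule.mem_sup_left (hI.mul_mem_of_left b hi))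
    (Submodule.mem_sup_right (hJ.mul_mem_of_left b hk))

lemma exists_primes [IsNoetherianRing R] (I : Ideal R) (hI : I.IsTwoSided) :
    ∃ s : Finset (Ideal R), (∀ P ∈ s, PrimeI P) ∧ ∃ e : ℕ, ∀ N : Ideal R,
      (∀ P ∈ s, N ≤ P) → N ^ (e + 1) ≤ I := by
  classical
  have hwf : WellFounded ((· > ·) : Ideal R → Ideal R → Prop) := wellFounded_gt
  induction I using hwf.induction with
  | h I ih =>
    by_cases htop : I = ⊤
    · exact ⟨∅, by simp, 0, fun N _ => by rw [htop]; exact le_top⟩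
    by_cases hpr : ∀ a b : R, (∀ r, a * r * b ∈ I) → a ∈ I ∨ b ∈ I
    · refine ⟨{I}, ?_, 0, ?_⟩
      · intro P hP
        rw [Finset.mem_singleton] at hP
        subst hP
        exact ⟨hI, htop, hpr⟩
      · intro N hN
        rw [zero_add, Submodule.pow_one]
        exact hN I (Finset.mem_singleton_self I)
    push Not at hpr
    obtain ⟨a, b, hab, ha, hb⟩ := hpr
    have h1 : I ⊔ aR a > I := by
      refine lt_of_le_of_ne le_sup_left ?_
      intro h; apply ha; rw [h]; exact Submodule.mem_sup_right (mem_aR a)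
    have h2 : I ⊔ aR b > I := by
      refine lt_of_le_of_ne le_sup_left ?_
      intro h; apply hb; rw [h]; exact Submodule.mem_sup_right (mem_aR b)
    obtain ⟨s1, hs1, e1, he1⟩ := ih _ h1 (sup_twoSided hI (aR_twoSided a))
    obtain ⟨s2, hs2, e2, he2⟩ := ih _ h2 (sup_twoSided hI (aR_twoSided b))
    refine ⟨s1 ∪ s2, ?_, e1 + 1 + e2, ?_⟩
    · intro P hP
      rcases Finset.mem_union.1 hP with h | h
      · exact hs1 P h
      · exact hs2 P h
    · intro N hN
      have h3 := he1 N (fun P hP => hN P (Finset.mem_union_left _ hP))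
      have h4 := he2 N (fun P hP => hN P (Finset.mem_union_right _ hP))
      have h5 : N ^ (e1 + 1 + e2 + 1) = N ^ (e1 + 1) * N ^ (e2 + 1) := by
        rw [add_assoc, Submodule.pow_add _ (Nat.succ_ne_zero e2)]
      rw [h5, Ideal.mul_le]
      intro x hx y hy
      obtain ⟨i, hi, u, hu, rfl⟩ := Submodule.mem_sup.1 (h3 hx)
      obtain ⟨k, hk, w, hw, rfl⟩ := Submodule.mem_sup.1 (h4 hy)
      rw [add_mul, mul_add u]
      exact Submodule.add_mem _ (hI.mul_mem_of_left _ hi) (Submodule.add_mem _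
        (Ideal.mul_mem_left _ u hk) (aR_mul hI hab u hu w hw))

/-- an antichain of primes whose intersection is nilpotent -/
lemma exists_antichain [IsNoetherianRing R] :
    ∃ s : Finset (Ideal R), (∀ P ∈ s, PrimeI P) ∧ (∀ P ∈ s, ∀ Q ∈ s, P ≤ Q → P = Q) ∧
      ∃ e : ℕ, ∀ N : Ideal R, (∀ P ∈ s, N ≤ P) → N ^ (e + 1) = ⊥ := by
  classical
  obtain ⟨s, hs, e, he⟩ := exists_primes (R := R) ⊥ ⟨fun {x} b hx => by
    rw [Ideal.mem_bot] at hx
    rw [hx, zero_mul]
    exact Submodule.zero_mem _⟩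
  refine ⟨s.filter (fun P => ∀ Q ∈ s, Q ≤ P → P ≤ Q), ?_, ?_, e, ?_⟩
  · intro P hP
    exact hs P (Finset.mem_filter.1 hP).1
  · intro P hP Q hQ hPQ
    exact le_antisymm hPQ ((Finset.mem_filter.1 hQ).2 P (Finset.mem_filter.1 hP).1 hPQ)
  · intro N hN
    rw [eq_bot_iff]
    apply he
    intro P hP
    obtain ⟨Q, hQP, hQ⟩ := s.finite_toSet.exists_le_minimal (a := P) hP
    have hQs : Q ∈ s := hQ.prop
    refine le_trans (hN Q (Finset.mem_filter.2 ⟨hQs, fun T hT hTQ => ?_⟩)) hQP
    exact hQ.le_of_le hT hTQ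

end primes

end Pool.Agent.Helper970.Uni
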