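import Pool.Agent.Helper970.UniL

universe u

open scoped DirectSum Pointwise WithZero

set_option linter.unusedSectionVars false

namespace Pool.Agent.Helper970.Uni

section types

variable {R : Type u} [Ring R]

/-- quotients of the hereditary kind -/
def DType (P : Ideal R) : Prop :=
  ∃ (R' : Type u) (_ : Ring R') (φ : R →+* R'), Function.Surjective φ ∧ (∀ r, φ r = 0 ↔ r ∈ P) ∧
    TypeD R'

/-- quotients of the semisimple kind -/
def SType (P : Ideal R) : Prop :=
  ∃ (R' : Type u) (_ : Ring R') (φ : R →+* R'), Function.Surjective φ ∧ (∀ r, φ r = 0 ↔ r ∈ P) ∧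
    PrimeR R' ∧ IsSemisimpleModule R' R'

lemma type_cases [IsNoetherianRing R] (hPU : PU R) {P : Ideal R} (hP : PrimeI P) :
    SType P ∨ DType P := by
  obtain ⟨h1, h2, h3⟩ := hP
  have hsurj : Function.Surjective (Ideal.Quotient.mk P) := Ideal.Quotient.mk_surjective
  have hker : ∀ r, Ideal.Quotient.mk P r = 0 ↔ r ∈ P := fun r => Ideal.Quotient.eq_zero_iff_mem
  have hN : IsNoetherianRing (R ⧸ P) := isNoetherianRing_of_surjective R (R ⧸ P) _ hsurj
  have hpr : PrimeR (R ⧸ P) := by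
    constructor
    · refine ⟨⟨1, 0, fun h => h2 ?_⟩⟩
      rw [Ideal.eq_top_iff_one, ← hker, map_one, h]
    · intro a b hab
      obtain ⟨a, rfl⟩ := hsurj a
      obtain ⟨b, rfl⟩ := hsurj b
      rw [hker, hker]
      apply h3
      intro r
      rw [← hker, map_mul, map_mul]
      exact hab _
  rcases prime_case hpr (pu_of_surj _ hsurj hPU) with h | h
  · exact Or.inl ⟨R ⧸ P, inferInstance, Ideal.Quotient.mk P, hsurj, hker, hpr, h⟩
  · exact Or.inr ⟨R ⧸ P, inferInstance, Ideal.Quotient.mk P, hsurj, hker, h⟩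

lemma SType.faithful {P : Ideal R} (hP : SType P) (S : Type u) [AddCommGroup S] [Module R S]
    (hS : IsSimpleModule R S) (hk : ∀ r ∈ P, ∀ x : S, r • x = 0) (r : R)
    (hr : ∀ x : S, r • x = 0) : r ∈ P := by
  obtain ⟨R', _, φ, hφ, hker, hpr, hss⟩ := hP
  have hk' : ∀ r, φ r = 0 → ∀ x : S, r • x = 0 := fun r h => hk r ((hker r).1 h)
  let mS := modOfSurj φ hφ S hk'
  have hs : ∀ (r : R) (x : S), (φ r) • x = r • x := fun r x => modOfSurj_smul φ hφ S hk' r x
  have hS' : IsSimpleModule R' S := simple_modOfSurj φ hφ S hk' hS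
  rw [← hker]
  exact faithful_of_semisimple hpr hss S hS' (φ r) (fun x => by rw [hs, hr])

lemma SType.semisimple {P : Ideal R} (hP : SType P) : IsSemisimpleModule R (R ⧸ P) := by
  obtain ⟨R', _, φ, hφ, hker, hpr, hss⟩ := hP
  let _ : Module R R' := Module.compHom R' φ
  have : RingHomSurjective φ := ⟨hφ⟩
  let e : R' →ₛₗ[φ] R' := { AddMonoidHom.id R' with map_smul' := fun _ _ => rfl }
  have h1 : IsSemisimpleModule R R' :=
    (e.isSemisimpleModule_iff_of_bijective Function.bijective_id).2 hss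
  let f : R →ₗ[R] R' :=
    { toFun := φ
      map_add' := map_add φ
      map_smul' := fun r s => map_mul φ r s }
  have hf : ∀ r, f r = φ r := fun r => rfl
  have hle : P ≤ LinearMap.ker f := by
    intro r hr
    rw [LinearMap.mem_ker, hf, hker]
    exact hr
  refine IsSemisimpleModule.of_injective (P.liftQ f hle) ?_
  rw [injective_iff_map_eq_zero]
  intro a ha
  obtain ⟨r, rfl⟩ := Submodule.mkQ_surjective P a
  rw [Submodule.mkQ_apply, Submodule.liftQ_apply, hf, hker] at ha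
  exact (Submodule.Quotient.mk_eq_zero P).2 ha

lemma DType.hull [IsNoetherianRing R] (hPU : PU R) {P : Ideal R} (hP : DType P) (S : Type u)
    [AddCommGroup S] [Module R S] (hS : IsSimpleModule R S)
    (hk : ∀ r ∈ P, ∀ x : S, r • x = 0) :
    ∃ (F : Type u) (_ : AddCommGroup F) (_ : Module R F) (ι : S →ₗ[R] F),
      Module.Injective R F ∧ User R F ∧ (∀ r ∈ P, ∀ x : F, r • x = 0) ∧
      (∀ r, (∀ x : F, r • x = 0) → r ∈ P) ∧ Function.Injective ι := by
  obtain ⟨R', _, φ, hφ, hker, hD⟩ := hP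
  obtain ⟨F, _, _, ι, h1, h2, h3, h4, h5⟩ := typeD_hull hPU φ hφ hD S
    (fun r h => hk r ((hker r).1 h)) hS
  exact ⟨F, inferInstance, inferInstance, ι, h1, h2, fun r hr => h3 r ((hker r).2 hr),
    fun r hr => (hker r).1 (h4 r hr), h5⟩

lemma le_of_simple [IsNoetherianRing R] (hPU : PU R) {P Q : Ideal R}
    (hP : SType P ∨ DType P) (hQ : SType Q ∨ DType Q) (S : Type u) [AddCommGroup S] [Module R S]
    (hS : IsSimpleModule R S) (hkP : ∀ r ∈ P, ∀ x : S, r • x = 0)
    (hkQ : ∀ r ∈ Q, ∀ x : S, r • x = 0) : P ≤ Q ∨ Q ≤ P := by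
  rcases hQ with hQ | hQ
  · exact Or.inl (fun r hr => hQ.faithful S hS hkQ r (hkP r hr))
  rcases hP with hP | hP
  · exact Or.inr (fun r hr => hP.faithful S hS hkP r (hkQ r hr))
  left
  obtain ⟨F, _, _, ι, f1, f2, f3, f4, f5⟩ := hP.hull hPU S hS hkP
  obtain ⟨G, _, _, κ, g1, g2, g3, g4, g5⟩ := hQ.hull hPU S hS hkQ
  obtain ⟨u, hu⟩ := f1.out κ g5 ι
  have hnt := IsSimpleModule.nontrivial R S
  obtain ⟨s, hs⟩ := exists_ne (0 : S)
  have hκs : κ s ≠ 0 := fun h => hs (g5 (by rw [h, map_zero]))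
  have huinj : Function.Injective u := by
    rw [injective_iff_map_eq_zero]
    intro z hz
    by_contra hz0
    obtain ⟨a, b, hab, h0⟩ := g2.unif z (κ s) hz0 hκs
    apply h0
    rw [hab, ← map_smul]
    have h1 : u (κ (b • s)) = 0 := by
      rw [map_smul, ← hab, map_smul, hz, smul_zero]
    rw [hu] at h1
    have h2 : b • s = 0 := f5 (by rw [h1, map_zero])
    rw [h2, map_zero]
  intro r hr
  apply g4
  intro x
  apply huinj
  rw [map_smul, map_zero]
  exact f3 r hr _

lemma comax [IsNoetherianRing R] (hPU : PU R) {P Q : Ideal R} (hP : PrimeI P) (hQ : PrimeI Q)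
    (h1 : P ≤ Q → P = Q) (h2 : Q ≤ P → Q = P) (hne : P ≠ Q) : P ⊔ Q = ⊤ := by
  by_contra hcon
  obtain ⟨m, hm, hle⟩ := Ideal.exists_le_maximal (P ⊔ Q) hcon
  have hS : IsSimpleModule R (R ⧸ m) := by
    rw [isSimpleModule_iff_isCoatom]
    exact hm.out
  have hk : ∀ T : Ideal R, T.IsTwoSided → T ≤ m → ∀ r ∈ T, ∀ x : R ⧸ m, r • x = 0 := by
    intro T hT hTm r hr x
    obtain ⟨y, rfl⟩ := Submodule.mkQ_surjective m x
    rw [← map_smul, Submodule.mkQ_apply, Submodule.Quotient.mk_eq_zero, smul_eq_mul]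
    exact hTm (hT.mul_mem_of_left y hr)
  rcases le_of_simple hPU (type_cases hPU hP) (type_cases hPU hQ) (R ⧸ m) hS
    (hk P hP.1 (le_sup_left.trans hle)) (hk Q hQ.1 (le_sup_right.trans hle)) with h | h
  · exact hne (h1 h)
  · exact hne (h2 h).symm

/-- absorption -/
lemma absorb [IsNoetherianRing R] (hPU : PU R) {P N : Ideal R} (_ : P.IsTwoSided) (hD : DType P)
    (hNP : N ≤ P) : N ≤ P * N := by
  by_contra hcon
  let T : Submodule R N := Submodule.comap (Submodule.subtype N) (P * N)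
  have hT : T ≠ ⊤ := by
    intro h0
    apply hcon
    intro x hx
    have : (⟨x, hx⟩ : N) ∈ T := by rw [h0]; trivial
    exact this
  have hNn : IsNoetherian R N := isNoetherian_submodule' N
  obtain ⟨K, hK, hTK⟩ := (eq_top_or_exists_le_coatom T).resolve_left hT
  have hS : IsSimpleModule R (N ⧸ K) := by
    rw [isSimpleModule_iff_isCoatom]; exact hK
  have hk : ∀ r ∈ P, ∀ x : N ⧸ K, r • x = 0 := by
    intro r hr x
    obtain ⟨y, rfl⟩ := Submodule.mkQ_surjective K x
    rw [← map_smul, Submodule.mkQ_apply, Submodule.Quotient.mk_eq_zero]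
    apply hTK
    exact Ideal.mul_mem_mul hr y.2
  obtain ⟨F, _, _, ι, f1, f2, f3, f4, f5⟩ := hD.hull hPU (N ⧸ K) hS hk
  obtain ⟨g, hg⟩ := f1.out N.subtype N.injective_subtype (ι.comp K.mkQ)
  apply hK.1
  rw [eq_top_iff]
  intro x _
  have h1 : ι (K.mkQ x) = 0 := by
    have h2 := hg x
    rw [LinearMap.comp_apply] at h2
    rw [← h2]
    change g (x : R) = 0
    have h3 : (x : R) = (x : R) • (1 : R) := by rw [smul_eq_mul, mul_one]
    rw [h3, map_smul]
    exact f3 _ (hNP x.2) _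
  have h2 : K.mkQ x = 0 := f5 (by rw [h1, map_zero])
  exact (Submodule.Quotient.mk_eq_zero K).1 h2

/-- maps from a left ideal to a simple module -/
lemma homUser_of_pu (hPU : PU R) (N : Ideal R) (S : Type u) [AddCommGroup S] [Module R S]
    (hS : IsSimpleModule R S) : HomUser N S := by
  have hSU : Unif R S := by
    intro x y hx hy
    obtain ⟨r, hr⟩ := (isSimpleModule_iff_toSpanSingleton_surjective.1 hS).2 y hy x
    exact ⟨1, r, by rw [one_smul]; exact hr.symm, by rwa [one_smul]⟩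
  obtain ⟨E, _, _, i, h1, h2, h3, -⟩ := exists_unif_hull (R := R) hSU
  intro φ ψ
  obtain ⟨f, hf⟩ := h1.out N.subtype N.injective_subtype (i.comp φ)
  obtain ⟨g, hg⟩ := h1.out N.subtype N.injective_subtype (i.comp ψ)
  have hf' : ∀ a : N, i (φ a) = (a : R) • f 1 := by
    intro a
    have := hf a
    rw [LinearMap.comp_apply] at this
    rw [← this, ← map_smul, smul_eq_mul, mul_one]
    rfl
  have hg' : ∀ a : N, i (ψ a) = (a : R) • g 1 := by
    intro a
    have := hg a
    rw [LinearMap.comp_apply] at this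
    rw [← this, ← map_smul, smul_eq_mul, mul_one]
    rfl
  rcases hPU E h2 (f 1) (g 1) with ⟨r, hr⟩ | ⟨r, hr⟩
  · left
    refine ⟨r, fun a b hab => h3 ?_⟩
    rw [hf', hg', hr, hab, mul_smul]
  · right
    refine ⟨r, fun a b hab => h3 ?_⟩
    rw [hf', hg', hr, hab, mul_smul]

end types

section final

variable {R : Type u} [Ring R]

/-- kernels of maps onto hereditary orders -/
def OrderKernel (P : Ideal R) : Prop :=
  ∃ (D : Type u) (_ : DivisionRing D) (v : Valuation D ℤᵐ⁰) (k : ℕ) (n : Fin k → ℕ)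
    (φ : R →+* hereditaryOrder v n), Function.Surjective v ∧ 0 < k ∧ Function.Surjective φ ∧
      ∀ r, φ r = 0 ↔ r ∈ P

lemma DType.orderKernel {P : Ideal R} (hP : DType P) : OrderKernel P := by
  obtain ⟨R', _, φ, hφ, hker, ⟨D, _, v, k, n, Φ, h1, h2, h3⟩, -⟩ := hP
  refine ⟨D, inferInstance, v, k, n, Φ.comp φ, h1, h2, h3.2.comp hφ, fun r => ?_⟩
  rw [← hker, RingHom.comp_apply]
  constructor
  · intro h
    exact h3.1 (by rw [h, map_zero])
  · intro h
    rw [h, map_zero]

/-- the structural condition -/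
def StructE (R : Type u) [Ring R] : Prop :=
  IsNoetherianRing R ∧ ∃ (m : ℕ) (A N : Ideal R) (P : Fin m → Ideal R),
    A.IsTwoSided ∧ (∀ i, (P i).IsTwoSided) ∧ N = A ⊓ ⨅ i, P i ∧
    (∀ i, A ⊔ P i = ⊤) ∧ (∀ i j, i ≠ j → P i ⊔ P j = ⊤) ∧
    (∃ e : ℕ, N ^ e = ⊥) ∧
    IsSemisimpleModule R (R ⧸ A) ∧
    (∀ i, OrderKernel (P i)) ∧
    (∀ i, P i * N = N) ∧
    (∀ (S : Type u) [AddCommGroup S] [Module R S], IsSimpleModule R S → HomUser N S)

theorem pu_of_struct (h : StructE R) : PU R := by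
  obtain ⟨hNoe, m, A, N, P, hA, hP, hNdef, hAP, hPP, ⟨e, he⟩, hss, hord, hPN, hhom⟩ := h
  have hN : N.IsTwoSided := by
    refine ⟨fun {x} b hx => ?_⟩
    rw [hNdef] at hx ⊢
    refine ⟨hA.mul_mem_of_left b hx.1, ?_⟩
    have h2 := hx.2
    change x ∈ ⨅ i, P i at h2
    change x * b ∈ ⨅ i, P i
    rw [Submodule.mem_iInf] at h2 ⊢
    intro i
    exact (hP i).mul_mem_of_left b (h2 i)
  have he' : N ^ (e + 1) = ⊥ := by
    rw [Submodule.pow_succ, he, Submodule.bot_mul]
  intro U _ _ hU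
  refine user_of_unif_struct hN hA P hP hAP hPP hNdef hss (fun i => (hPN i).ge) ?_ hhom e U hU ?_
  · intro i U _ _ hU hk
    obtain ⟨D, _, v, k, n, φ, -, -, hφ, hker⟩ := hord i
    exact user_of_surj φ hφ (fun M _ _ hM => user_of_unif_order hM) U
      (fun r hr => hk r ((hker r).1 hr)) hU
  · intro a ha x
    rw [he'] at ha
    rw [(Submodule.mem_bot R).1 ha, zero_smul]

theorem struct_of_pu [IsNoetherianRing R] (hPU : PU R) : StructE R := by
  classical
  obtain ⟨s, hs, hanti, e, he⟩ := exists_antichain (R := R)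
  -- types
  let sD : Finset (Ideal R) := s.filter (fun P => DType P)
  let sA : Finset (Ideal R) := s.filter (fun P => ¬ DType P)
  have hsA : ∀ P ∈ sA, SType P := by
    intro P hP
    have h1 := Finset.mem_filter.1 hP
    exact (type_cases hPU (hs P h1.1)).resolve_right h1.2
  have hco : ∀ P ∈ s, ∀ Q ∈ s, P ≠ Q → P ⊔ Q = ⊤ := fun P hP Q hQ hne =>
    comax hPU (hs P hP) (hs Q hQ) (hanti P hP Q hQ) (hanti Q hQ P hP) hne
  let m := sD.card
  let eq : Fin m ≃ sD := sD.equivFin.symm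
  let P : Fin m → Ideal R := fun i => (eq i : Ideal R)
  have hPs : ∀ i, P i ∈ s := fun i => (Finset.mem_filter.1 (eq i).2).1
  have hPD : ∀ i, DType (P i) := fun i => (Finset.mem_filter.1 (eq i).2).2
  let A : Ideal R := ⨅ Q : sA, (Q : Ideal R)
  have hmemA : ∀ x, x ∈ A ↔ ∀ Q ∈ sA, x ∈ Q := by
    intro x
    change x ∈ (⨅ Q : sA, (Q : Ideal R)) ↔ _
    rw [Submodule.mem_iInf]
    exact ⟨fun h Q hQ => h ⟨Q, hQ⟩, fun h Q => h Q Q.2⟩
  have hA : A.IsTwoSided := by
    refine ⟨fun {x} b hx => ?_⟩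
    rw [hmemA] at hx ⊢
    intro Q hQ
    exact (hs Q (Finset.mem_filter.1 hQ).1).1.mul_mem_of_left b (hx Q hQ)
  have hPts : ∀ i, (P i).IsTwoSided := fun i => (hs _ (hPs i)).1
  have hAP : ∀ i, A ⊔ P i = ⊤ := by
    intro i
    obtain ⟨b, hb1, hb2⟩ := exists_comax (fun Q : sA => (Q : Ideal R))
      (fun Q => (hs Q (Finset.mem_filter.1 Q.2).1).1) (P i) Finset.univ (by
        intro Q _
        apply hco _ (hPs i) _ (Finset.mem_filter.1 Q.2).1
        intro h
        apply (Finset.mem_filter.1 Q.2).2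
        rw [← h]
        exact hPD i)
    rw [Ideal.eq_top_iff_one]
    have hbA : b ∈ A := by
      rw [hmemA]
      intro Q hQ
      exact hb1 ⟨Q, hQ⟩ (Finset.mem_univ _)
    have : (1 : R) = b + (1 - b) := by abel
    rw [this]
    exact Submodule.add_mem _ (Submodule.mem_sup_left hbA) (Submodule.mem_sup_right hb2)
  have hPP : ∀ i i', i ≠ i' → P i ⊔ P i' = ⊤ := by
    intro i i' hne
    apply hco _ (hPs i) _ (hPs i')
    intro h
    exact hne (eq.injective (Subtype.ext h))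
  have hNle : ∀ Q ∈ s, A ⊓ ⨅ i, P i ≤ Q := by
    intro Q hQ
    by_cases hQD : DType Q
    · have hQm : Q ∈ sD := Finset.mem_filter.2 ⟨hQ, hQD⟩
      have h1 : P (eq.symm ⟨Q, hQm⟩) = Q := by
        change ((eq (eq.symm ⟨Q, hQm⟩) : sD) : Ideal R) = Q
        rw [Equiv.apply_symm_apply]
      rw [← h1]
      exact inf_le_right.trans (iInf_le _ _)
    · have hQm : Q ∈ sA := Finset.mem_filter.2 ⟨hQ, hQD⟩
      refine inf_le_left.trans ?_
      intro x hx
      exact (hmemA x).1 hx Q hQm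
  refine ⟨inferInstance, m, A, A ⊓ ⨅ i, P i, P, hA, hPts, rfl, hAP, hPP,
    ⟨e + 1, he _ hNle⟩, ?_, fun i => (hPD i).orderKernel, ?_, ?_⟩
  · -- semisimple quotient
    have h1 : ∀ Q : sA, IsSemisimpleModule R (R ⧸ (Q : Ideal R)) := fun Q =>
      (hsA Q Q.2).semisimple
    let f : R →ₗ[R] (∀ Q : sA, R ⧸ (Q : Ideal R)) := LinearMap.pi (fun Q => (Q : Ideal R).mkQ)
    have hf : ∀ x, f x = 0 ↔ x ∈ A := by
      intro x
      rw [hmemA]
      constructor
      · intro h Q hQ
        have := congrFun h ⟨Q, hQ⟩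
        exact (Submodule.Quotient.mk_eq_zero Q).1 this
      · intro h
        funext Q
        exact (Submodule.Quotient.mk_eq_zero (Q : Ideal R)).2 (h Q Q.2)
    have hle : A ≤ LinearMap.ker f := fun x hx => LinearMap.mem_ker.2 ((hf x).2 hx)
    refine IsSemisimpleModule.of_injective (A.liftQ f hle) ?_
    rw [injective_iff_map_eq_zero]
    intro a ha
    obtain ⟨r, rfl⟩ := Submodule.mkQ_surjective A a
    rw [Submodule.mkQ_apply, Submodule.liftQ_apply, hf] at ha
    exact (Submodule.Quotient.mk_eq_zero A).2 ha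
  · intro i
    apply le_antisymm
    · rw [Ideal.mul_le]
      intro r _ x hx
      exact Ideal.mul_mem_left _ r hx
    · exact absorb hPU (hPts i) (hPD i) (inf_le_right.trans (iInf_le _ _))
  · intro S _ _ hS
    exact homUser_of_pu hPU _ S hS

theorem hasE_iff_struct : HasE R ↔ StructE R := by
  rw [hasE_iff]
  constructor
  · rintro ⟨h1, h2⟩
    exact struct_of_pu h2
  · intro h
    exact ⟨h.1, pu_of_struct h⟩

end final

end Pool.Agent.Helper970.Uni
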