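import Pool.Agent.Helper970.UniM

universe u

open scoped DirectSum WithZero

namespace Pool.Agent.Helper970.Uni

section homleft

variable {R : Type u} [Ring R]

lemma homUser_iff (N : Ideal R) (hN : N.IsTwoSided) (S : Type u) [AddCommGroup S] [Module R S] :
    IsUniserial R (HomLeft N hN S) ↔ HomUser N S := by
  rw [isUniserial_iff]
  have key : ∀ (φ ψ : HomLeft N hN S) (r : R), φ = r • ψ ↔
        ∀ a b : N, (b : R) = a * r → (show N →ₗ[R] S from φ) a = (show N →ₗ[R] S from ψ) b := by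
    intro φ ψ r
    constructor
    · intro h a b hab
      have h1 : (show N →ₗ[R] S from φ) a = (show N →ₗ[R] S from ψ) (rightMul N hN r a) :=
        LinearMap.congr_fun (show (show N →ₗ[R] S from φ) = _ from h) a
      rw [h1]
      congr 1
      exact Subtype.ext hab.symm
    · intro h
      have h2 : (show N →ₗ[R] S from φ) = (show N →ₗ[R] S from ψ).comp (rightMul N hN r) :=
        LinearMap.ext fun a => h a (rightMul N hN r a) rfl
      exact h2
  constructor
  · intro h φ ψ
    rcases h φ ψ with ⟨r, hr⟩ | ⟨r, hr⟩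
    · exact Or.inl ⟨r, (key φ ψ r).1 hr⟩
    · exact Or.inr ⟨r, (key ψ φ r).1 hr⟩
  · intro h φ ψ
    rcases h φ ψ with ⟨r, hr⟩ | ⟨r, hr⟩
    · exact Or.inl ⟨r, (key φ ψ r).2 hr⟩
    · exact Or.inr ⟨r, (key ψ φ r).2 hr⟩

lemma homUser_congr {N : Ideal R} {S S' : Type u} [AddCommGroup S] [Module R S] [AddCommGroup S']
    [Module R S'] (e : S ≃ₗ[R] S') (h : HomUser N S') : HomUser N S := by
  intro φ ψ
  rcases h (e.toLinearMap.comp φ) (e.toLinearMap.comp ψ) with ⟨r, hr⟩ | ⟨r, hr⟩
  · exact Or.inl ⟨r, fun a b hab => e.injective (hr a b hab)⟩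
  · exact Or.inr ⟨r, fun a b hab => e.injective (hr a b hab)⟩

end homleft

end Pool.Agent.Helper970.Uni
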